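import Mathlib

set_option autoImplicit false

/-! # Cochains on the nerve of a partially ordered set, with coefficients in a commutative ring

`Ch S` is the type of nonempty finite strictly increasing lists (chains) of elements of `S`;
the chain `[x_0, ..., x_p]` is a nondegenerate `p`-simplex of the nerve of `S`.
`Coch S P` is the ring of all functions from `Ch S` to `P`, with the cup product. -/

namespace Pool.Agent.TH541.KM

open Finset

/-! ### The product and the differential on functions of lists -/

section Lists

variable {S : Type*} {P : Type*} [CommRing P]

/-- Cup product of functions of lists (recursive form). -/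
def lmul : (List S → P) → (List S → P) → List S → P
  | _, _, [] => 0
  | f, g, (x :: l) => f [x] * g (x :: l) + lmul (fun m => f (x :: m)) g l

/-- Alternating sum over the faces (recursive form). -/
def ld : (List S → P) → List S → P
  | _, [] => 0
  | f, (x :: l) => f l - ld (fun m => f (x :: m)) l

@[simp] theorem lmul_nil (f g : List S → P) : lmul f g [] = 0 := by simp [lmul]

theorem lmul_cons (f g : List S → P) (x : S) (l : List S) :
    lmul f g (x :: l) = f [x] * g (x :: l) + lmul (fun m => f (x :: m)) g l := by
  rw [lmul]

@[simp] theorem ld_nil (f : List S → P) : ld f [] = 0 := by simp [ld]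

theorem ld_cons (f : List S → P) (x : S) (l : List S) :
    ld f (x :: l) = f l - ld (fun m => f (x :: m)) l := by
  rw [ld]

theorem lmul_eq_sum (f g : List S → P) (l : List S) :
    lmul f g l = ∑ i ∈ range l.length, f (l.take (i + 1)) * g (l.drop i) := by
  induction l generalizing f with
  | nil => simp
  | cons x l ih =>
    rw [lmul_cons, List.length_cons, Finset.sum_range_succ', ih, add_comm]
    simp only [List.take_succ_cons, List.drop_succ_cons, List.drop_zero, List.take_zero, zero_add]

theorem ld_eq_sum (f : List S → P) (l : List S) :
    ld f l = ∑ i ∈ range l.length, (-1) ^ i * f (l.eraseIdx i) := by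
  induction l generalizing f with
  | nil => simp
  | cons x l ih =>
    rw [ld_cons, List.length_cons, Finset.sum_range_succ', ih]
    simp only [List.eraseIdx_cons_succ, List.eraseIdx_cons_zero, pow_zero, one_mul, pow_succ]
    rw [sub_eq_add_neg, add_comm, ← Finset.sum_neg_distrib]
    congr 1
    exact Finset.sum_congr rfl fun i _ => by ring

theorem lmul_congr {f f' g g' : List S → P} {l : List S}
    (hf : ∀ m, m.Sublist l → f m = f' m) (hg : ∀ m, m.Sublist l → g m = g' m) :
    lmul f g l = lmul f' g' l := by
  induction l generalizing f f' with
  | nil => simp
  | cons x l ih =>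
    rw [lmul_cons, lmul_cons, hf [x] (by simp), hg (x :: l) (List.Sublist.refl _)]
    congr 1
    exact ih (fun m hm => hf _ (List.Sublist.cons_cons x hm)) (fun m hm => hg _ (hm.cons x))

theorem ld_congr {f f' : List S → P} {l : List S}
    (hf : ∀ m, m.Sublist l → f m = f' m) : ld f l = ld f' l := by
  induction l generalizing f f' with
  | nil => simp
  | cons x l ih =>
    rw [ld_cons, ld_cons, hf l (List.sublist_cons_self x l)]
    congr 1
    exact ih (fun m hm => hf _ (List.Sublist.cons_cons x hm))

theorem lmul_add_left (f f' g : List S → P) (l : List S) :
    lmul (fun m => f m + f' m) g l = lmul f g l + lmul f' g l := by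
  induction l generalizing f f' with
  | nil => simp
  | cons x l ih => rw [lmul_cons, lmul_cons, lmul_cons, ih]; ring

theorem lmul_add_right (f g g' : List S → P) (l : List S) :
    lmul f (fun m => g m + g' m) l = lmul f g l + lmul f g' l := by
  induction l generalizing f with
  | nil => simp
  | cons x l ih => rw [lmul_cons, lmul_cons, lmul_cons, ih]; ring

theorem lmul_smul_left (a : P) (f g : List S → P) (l : List S) :
    lmul (fun m => a * f m) g l = a * lmul f g l := by
  induction l generalizing f with
  | nil => simp
  | cons x l ih => rw [lmul_cons, lmul_cons, ih]; ring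

theorem lmul_smul_right (a : P) (f g : List S → P) (l : List S) :
    lmul f (fun m => a * g m) l = a * lmul f g l := by
  induction l generalizing f with
  | nil => simp
  | cons x l ih => rw [lmul_cons, lmul_cons, ih]; ring

theorem lmul_neg_left (f g : List S → P) (l : List S) :
    lmul (fun m => - f m) g l = - lmul f g l := by
  have := lmul_smul_left (-1) f g l
  simpa using this

theorem lmul_sub_left (f f' g : List S → P) (l : List S) :
    lmul (fun m => f m - f' m) g l = lmul f g l - lmul f' g l := by
  have := lmul_add_left f (fun m => - f' m) g l
  rw [lmul_neg_left] at this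
  simpa [sub_eq_add_neg] using this

theorem ld_add (f f' : List S → P) (l : List S) :
    ld (fun m => f m + f' m) l = ld f l + ld f' l := by
  induction l generalizing f f' with
  | nil => simp
  | cons x l ih => rw [ld_cons, ld_cons, ld_cons, ih]; ring

theorem ld_smul (a : P) (f : List S → P) (l : List S) :
    ld (fun m => a * f m) l = a * ld f l := by
  induction l generalizing f with
  | nil => simp
  | cons x l ih => rw [ld_cons, ld_cons, ih]; ring

theorem ld_neg (f : List S → P) (l : List S) :
    ld (fun m => - f m) l = - ld f l := by
  have := ld_smul (-1) f l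
  simpa using this

theorem ld_sub (f f' : List S → P) (l : List S) :
    ld (fun m => f m - f' m) l = ld f l - ld f' l := by
  have := ld_add f (fun m => - f' m) l
  rw [ld_neg] at this
  simpa [sub_eq_add_neg] using this

theorem lmul_assoc (f g h : List S → P) (l : List S) :
    lmul (lmul f g) h l = lmul f (lmul g h) l := by
  induction l generalizing f with
  | nil => simp
  | cons x l ih =>
    have h1 : (fun m => lmul f g (x :: m)) =
        fun m => f [x] * g (x :: m) + lmul (fun m => f (x :: m)) g m := by
      funext m; rw [lmul_cons]
    rw [lmul_cons, lmul_cons, lmul_nil, h1, lmul_add_left, lmul_smul_left, lmul_cons, ih,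
      lmul_cons g h]
    ring

theorem lmul_eq_zero_left {f g : List S → P} (hf : ∀ m, m ≠ [] → f m = 0) (l : List S) :
    lmul f g l = 0 := by
  induction l generalizing f with
  | nil => simp
  | cons x l ih =>
    rw [lmul_cons, hf _ (by simp), ih (fun m _ => hf _ (by simp))]
    simp

/-- The unit: the function with value `1` on lists of length one. -/
def lone : List S → P := fun l => if l.length = 1 then 1 else 0

theorem lone_lmul (g : List S → P) {l : List S} (hl : l ≠ []) : lmul lone g l = g l := by
  cases l with
  | nil => exact absurd rfl hl
  | cons x l =>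
    rw [lmul_cons, lmul_eq_zero_left]
    · simp [lone]
    · intro m hm
      have : m.length ≠ 0 := by simpa using hm
      simp [lone, this]

theorem lmul_lone (f : List S → P) {l : List S} (hl : l ≠ []) : lmul f lone l = f l := by
  induction l generalizing f with
  | nil => exact absurd rfl hl
  | cons x l ih =>
    rw [lmul_cons]
    cases l with
    | nil => simp [lone]
    | cons y l =>
      rw [ih (fun m => f (x :: m)) (by simp)]
      simp [lone]

/-- The sign `(-1)^p` in degree `p`; lists of length `p + 1` have degree `p`. -/
def leps (f : List S → P) : List S → P := fun l => -((-1) ^ l.length * f l)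

theorem ld_lmul (f g : List S → P) (l : List S) :
    ld (lmul f g) l = lmul (ld f) g l + lmul (leps f) (ld g) l - f [] * g l
      + (-1) ^ l.length * (f l * g []) := by
  induction l generalizing f with
  | nil => simp
  | cons x l ih =>
    have h1 : (fun m => lmul f g (x :: m)) =
        fun m => f [x] * g (x :: m) + lmul (fun m => f (x :: m)) g m := by
      funext m; rw [lmul_cons]
    have h2 : (fun m => ld f (x :: m)) = fun m => f m - ld (fun m => f (x :: m)) m := by
      funext m; rw [ld_cons]
    have h3 : (fun m => leps f (x :: m)) = fun m => - leps (fun m => f (x :: m)) m := by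
      funext m; simp only [leps, List.length_cons, pow_succ]; ring
    have h4 := ih (fun m => f (x :: m))
    rw [ld_cons, h1, ld_add, ld_smul, h4, lmul_cons (ld f), h2, lmul_sub_left,
      lmul_cons (leps f), h3, lmul_neg_left, ld_cons g, ld_cons f]
    simp only [leps, List.length_cons, List.length_nil, pow_succ, ld_nil, pow_zero]
    ring

theorem ld_ld (f : List S → P) (l : List S) : ld (ld f) l = 0 := by
  induction l generalizing f with
  | nil => simp
  | cons x l ih =>
    have h2 : (fun m => ld f (x :: m)) = fun m => f m - ld (fun m => f (x :: m)) m := by
      funext m; rw [ld_cons]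
    rw [ld_cons, h2, ld_sub, ih]
    ring

theorem lmul_mem {Q : Type*} [SetLike Q P] [AddSubmonoidClass Q P] [MulMemClass Q P] (q : Q)
    {f g : List S → P} {l : List S}
    (hf : ∀ m, m.Sublist l → m ≠ [] → f m ∈ q) (hg : ∀ m, m.Sublist l → m ≠ [] → g m ∈ q) :
    lmul f g l ∈ q := by
  induction l generalizing f with
  | nil => rw [lmul_nil]; exact zero_mem q
  | cons x l ih =>
    rw [lmul_cons]
    refine add_mem (mul_mem (hf _ (by simp) (by simp)) (hg _ (List.Sublist.refl _) (by simp))) ?_
    exact ih (fun m hm _ => hf _ (List.Sublist.cons_cons x hm) (by simp))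
      (fun m hm h0 => hg _ (hm.cons x) h0)

theorem ld_mem {Q : Type*} [SetLike Q P] [AddSubgroupClass Q P] (q : Q)
    {f : List S → P} {l : List S}
    (hf : ∀ m, m.Sublist l → f m ∈ q) : ld f l ∈ q := by
  induction l generalizing f with
  | nil => rw [ld_nil]; exact zero_mem q
  | cons x l ih =>
    rw [ld_cons]
    refine sub_mem (hf _ (List.sublist_cons_self x l)) ?_
    exact ih (fun m hm => hf _ (List.Sublist.cons_cons x hm))

end Lists

end Pool.Agent.TH541.KM
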