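import Mathlib

set_option autoImplicit false

/-! # The cochain ring of a partially ordered set

`Ch S` is the type of nonempty finite strictly increasing lists (chains) of elements of `S`;
the chain `[x_0, ..., x_p]` is a nondegenerate `p`-simplex of the nerve of `S`.
`Coch S P` is the ring of all functions from `Ch S` to `P`, with the cup product.
For a family `F x` (`x` in `S`) of subalgebras of `P`, decreasing in `x`, the cochains with
coefficients in `F` are the functions with `φ [x_0, ..., x_p]` in `F x_0`. -/

namespace Pool.Agent.TH541.KM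

open Finset

/-- Chains of `S`: nonempty strictly increasing lists. -/
abbrev Ch (S : Type*) [Preorder S] : Type _ := {l : List S // l ≠ [] ∧ l.Pairwise (· < ·)}

/-- Functions from the chains of `S` to `P`. -/
structure Coch (S : Type*) [Preorder S] (P : Type*) : Type _ where
  /-- the underlying function -/
  val : Ch S → P

section

variable {S : Type*} [Preorder S] {P : Type*} [CommRing P]

instance : CoeFun (Coch S P) (fun _ => Ch S → P) := ⟨Coch.val⟩

omit [CommRing P] in
theorem Coch.val_injective : Function.Injective (Coch.val : Coch S P → (Ch S → P)) := by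
  rintro ⟨f⟩ ⟨g⟩ h
  exact congrArg Coch.mk h

omit [CommRing P] in
theorem Coch.ext {φ ψ : Coch S P} (h : ∀ c, φ c = ψ c) : φ = ψ :=
  Coch.val_injective (funext h)

/-- Addition is pointwise. -/
instance : Add (Coch S P) := ⟨fun φ ψ => ⟨fun c => φ c + ψ c⟩⟩

instance : Zero (Coch S P) := ⟨⟨fun _ => 0⟩⟩

instance : Neg (Coch S P) := ⟨fun φ => ⟨fun c => - φ c⟩⟩

instance : Sub (Coch S P) := ⟨fun φ ψ => ⟨fun c => φ c - ψ c⟩⟩

/-- Scalar multiplication is pointwise. -/
instance {R : Type*} [SMul R P] : SMul R (Coch S P) := ⟨fun r φ => ⟨fun c => r • φ c⟩⟩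

instance : AddCommGroup (Coch S P) :=
  Coch.val_injective.addCommGroup Coch.val rfl (fun _ _ => rfl) (fun _ => rfl) (fun _ _ => rfl)
    (fun _ _ => rfl) (fun _ _ => rfl)

/-- Evaluation as an additive map. -/
def Coch.valHom (S : Type*) [Preorder S] (P : Type*) [CommRing P] : Coch S P →+ (Ch S → P) where
  toFun := Coch.val
  map_zero' := rfl
  map_add' _ _ := rfl

instance {R : Type*} [Semiring R] [Module R P] : Module R (Coch S P) :=
  Coch.val_injective.module R (Coch.valHom S P) (fun _ _ => rfl)

open Classical in
/-- Extension of a cochain by zero to all lists. -/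
noncomputable def E (φ : Coch S P) (l : List S) : P :=
  if h : l ≠ [] ∧ l.Pairwise (· < ·) then φ ⟨l, h⟩ else 0

/-- Cup product: `(φ ψ) [x_0, ..., x_p] = ∑ i, φ [x_0, ..., x_i] * ψ [x_i, ..., x_p]`. -/
noncomputable instance : Mul (Coch S P) where
  mul φ ψ := ⟨fun c => ∑ i ∈ range c.1.length, E φ (c.1.take (i + 1)) * E ψ (c.1.drop i)⟩

/-- The unit is the cochain with value `1` on the chains with one element. -/
instance : One (Coch S P) where
  one := ⟨fun c => if c.1.length = 1 then 1 else 0⟩

/-- The differential: `(d φ) [x_0, ..., x_p] = ∑ i, (-1)^i φ [x_0, ..., x_i omitted, ..., x_p]`. -/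
noncomputable def dif (φ : Coch S P) : Coch S P :=
  ⟨fun c => ∑ i ∈ range c.1.length, (-1) ^ i * E φ (c.1.eraseIdx i)⟩

end

section

variable {S : Type*} [Preorder S] {P : Type*} [CommRing P] {R : Type*} [CommRing R] [Algebra R P]

/-- Cochains with coefficients in `F`: the value on `[x_0, ..., x_p]` lies in `F x_0`. -/
def IsCochain (F : S → Subalgebra R P) (φ : Coch S P) : Prop :=
  ∀ c : Ch S, φ c ∈ F (c.1.head c.2.1)

/-- Cocycles with coefficients in `F`. -/
def IsCocycle (F : S → Subalgebra R P) (φ : Coch S P) : Prop := IsCochain F φ ∧ dif φ = 0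

/-- `φ` and `ψ` differ by the differential of a cochain with coefficients in `F`. -/
def Cohom (F : S → Subalgebra R P) (φ ψ : Coch S P) : Prop :=
  ∃ χ : Coch S P, IsCochain F χ ∧ dif χ = φ - ψ

end

end Pool.Agent.TH541.KM
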