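import Pool.Agent.TH541.KM.L1

set_option autoImplicit false

/-! # The cochain ring -/

namespace Pool.Agent.TH541.KM

section

variable {S : Type*} [Preorder S] {P : Type*} [CommRing P]

noncomputable instance : Ring (Coch S P) :=
  { (inferInstance : AddCommGroup (Coch S P)) with
    left_distrib := Coch.left_distrib
    right_distrib := Coch.right_distrib
    zero_mul := Coch.zero_mul
    mul_zero := Coch.mul_zero
    mul_assoc := Coch.mul_assoc
    one_mul := Coch.one_mul
    mul_one := Coch.mul_one }

noncomputable instance {R : Type*} [CommSemiring R] [Algebra R P] : Algebra R (Coch S P) :=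
  Algebra.ofModule Coch.smul_mul Coch.mul_smul

end

end Pool.Agent.TH541.KM
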