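import Pool.Agent.TH541.KM.L2

set_option autoImplicit false

/-! # Cocycles, coboundaries and cohomology -/

namespace Pool.Agent.TH541.KM

section

variable {S : Type*} [Preorder S] {P : Type*} [CommRing P] {R : Type*} [CommRing R] [Algebra R P]

/-- The algebra of cocycles. -/
noncomputable def cocycles (F : S → Subalgebra R P) (hF : Antitone F) :
    Subalgebra R (Coch S P) where
  carrier := {φ | IsCocycle F φ}
  mul_mem' := IsCocycle.mul hF
  add_mem' := IsCocycle.add
  algebraMap_mem' := isCocycle_algebraMap F

/-- Being cohomologous is a congruence of the ring of cocycles. -/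
noncomputable def cohomologous (F : S → Subalgebra R P) (hF : Antitone F) :
    RingCon ↥(cocycles F hF) where
  r z w := Cohom F (z : Coch S P) (w : Coch S P)
  iseqv := ⟨fun z => Cohom.refl F (z : Coch S P), Cohom.symm, Cohom.trans⟩
  add' := Cohom.add
  mul' := fun {_ x y _} h h' => Cohom.mul hF x.2 y.2 h h'

/-- The cohomology ring of `S` with coefficients in `F`: cocycles modulo coboundaries. -/
def Cohomology (F : S → Subalgebra R P) (hF : Antitone F) : Type _ :=
  (cohomologous F hF).Quotient

noncomputable instance Cohomology.instRing (F : S → Subalgebra R P) (hF : Antitone F) :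
    Ring (Cohomology F hF) := RingCon.instRingQuotient (cohomologous F hF)

noncomputable instance Cohomology.instAlgebra (F : S → Subalgebra R P) (hF : Antitone F) :
    Algebra R (Cohomology F hF) := RingCon.instAlgebraQuotient (cohomologous F hF)

end

end Pool.Agent.TH541.KM
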