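import Pool.Agent.TH541.KM.D3

set_option autoImplicit false

/-! # The rational cohomology of the classifying space of a Kac-Moody group

Conventions. `A` is an `n × n` integer matrix, the Lie algebra of the maximal torus `T` has the
basis `e_1, ..., e_n, h_1, ..., h_c` with `e_i` the simple coroots, and the simple roots are the
linear forms `α_j` with `α_j (e_i) = A i j` and `α_j (h_k) = B k j`. So `n + c` is the rank of `T`
and `B` is the part of the pairing that `A` does not fix. The ring `P = H^*(BT; ℚ)` is the ring of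
polynomial functions on the Lie algebra of `T`, with linear forms in cohomological degree two. -/

namespace Pool.Agent.TH541.KM

open MvPolynomial Matrix

/-- The linear substitution `p ↦ p ∘ g`, where `g` acts on column vectors. -/
noncomputable def TT {ι : Type*} [Fintype ι] {R : Type*} [CommRing R] (g : Matrix ι ι R) :
    MvPolynomial ι R →ₐ[R] MvPolynomial ι R :=
  aeval (fun i : ι => ∑ j : ι, C (g i j) * X j)

/-- Generalized Cartan matrices. -/
structure IsGCM {n : ℕ} (A : Matrix (Fin n) (Fin n) ℤ) : Prop where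
  diag : ∀ i, A i i = 2
  nonpos : ∀ i j, i ≠ j → A i j ≤ 0
  zero_iff : ∀ i j, A i j = 0 ↔ A j i = 0

/-- `A` is indecomposable: the index set is not a disjoint union of two nonempty sets `s` and
its complement with `A i j = 0` for all `i` in `s` and all `j` outside `s`. -/
def IsIndecomposable {n : ℕ} (A : Matrix (Fin n) (Fin n) ℤ) : Prop :=
  ∀ s : Finset (Fin n), s.Nonempty → sᶜ.Nonempty → ∃ i ∈ s, ∃ j ∈ sᶜ, A i j ≠ 0

/-- `A` is of indefinite type: `A u < 0` for some real vector `u > 0`. -/
def IsIndefinite {n : ℕ} (A : Matrix (Fin n) (Fin n) ℤ) : Prop :=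
  ∃ u : Fin n → ℝ, (∀ i, 0 < u i) ∧ ∀ i, ∑ j, (A i j : ℝ) * u j < 0

section

variable {n c : ℕ}

/-- The simple root `α_j` as a row vector: `α_j (e_i) = A i j` and `α_j (h_k) = B k j`. -/
def root (A : Matrix (Fin n) (Fin n) ℤ) (B : Matrix (Fin c) (Fin n) ℚ) (j : Fin n) :
    Fin n ⊕ Fin c → ℚ :=
  Sum.elim (fun i => (A i j : ℚ)) (fun k => B k j)

/-- The simple reflection `s_j x = x - α_j (x) e_j` on the Lie algebra of the torus. -/
def srefl (A : Matrix (Fin n) (Fin n) ℤ) (B : Matrix (Fin c) (Fin n) ℚ) (j : Fin n) :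
    Matrix (Fin n ⊕ Fin c) (Fin n ⊕ Fin c) ℚ :=
  1 - Matrix.vecMulVec (Pi.single (Sum.inl j) 1) (root A B j)

/-- The subgroup `W_I` of the Weyl group generated by the simple reflections `s_j`, `j` in `I`
(these are involutions, so the monoid they generate is a group). -/
def weyl (A : Matrix (Fin n) (Fin n) ℤ) (B : Matrix (Fin c) (Fin n) ℚ) (I : Finset (Fin n)) :
    Submonoid (Matrix (Fin n ⊕ Fin c) (Fin n ⊕ Fin c) ℚ) :=
  Submonoid.closure (srefl A B '' (I : Set (Fin n)))

theorem weyl_mono (A : Matrix (Fin n) (Fin n) ℤ) (B : Matrix (Fin c) (Fin n) ℚ) :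
    Monotone (weyl A B) := fun _ _ h =>
  Submonoid.closure_mono (Set.image_mono (Finset.coe_subset.mpr h))

/-- The partially ordered set of the spherical subsets `I` (those with `W_I` finite), ordered by
inclusion. -/
abbrev Sph (A : Matrix (Fin n) (Fin n) ℤ) (B : Matrix (Fin c) (Fin n) ℚ) : Type :=
  {I : Finset (Fin n) // (weyl A B I : Set (Matrix (Fin n ⊕ Fin c) (Fin n ⊕ Fin c) ℚ)).Finite}

/-- The ring `P = H^*(BT; ℚ)` of polynomial functions on the Lie algebra of the torus. -/
abbrev PP (n c : ℕ) : Type := MvPolynomial (Fin n ⊕ Fin c) ℚ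

/-- The invariant ring `P^{W_I} = H^*(BK_I; ℚ)`, where `K_I` is the compact Lie subgroup of the
unitary form with Weyl group `W_I`. -/
noncomputable def invs (A : Matrix (Fin n) (Fin n) ℤ) (B : Matrix (Fin c) (Fin n) ℚ)
    (I : Finset (Fin n)) : Subalgebra ℚ (PP n c) where
  carrier := {p | ∀ g ∈ weyl A B I, TT g p = p}
  mul_mem' := fun ha hb g hg => by rw [map_mul, ha g hg, hb g hg]
  add_mem' := fun ha hb g hg => by rw [map_add, ha g hg, hb g hg]
  algebraMap_mem' := fun r g _ => (TT g).commutes r

theorem invs_anti (A : Matrix (Fin n) (Fin n) ℤ) (B : Matrix (Fin c) (Fin n) ℚ) :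
    Antitone (fun I : Sph A B => invs A B I.1) :=
  fun _ _ h _ hp g hg => hp g (weyl_mono A B h hg)

/-- The rational cohomology ring of the classifying space of the Kac-Moody group with generalized
Cartan matrix `A` and torus of rank `n + c`: the cohomology of the homotopy limit, over the
partially ordered set of spherical subsets `I`, of the rings `H^*(BK_I; ℚ) = P^{W_I}`. It is
computed by the cochains on the nerve of this partially ordered set with coefficients in
`I ↦ P^{W_I}`, with the cup product. -/
def KMCohomology (A : Matrix (Fin n) (Fin n) ℤ) (B : Matrix (Fin c) (Fin n) ℚ) : Type :=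
  Cohomology (fun I : Sph A B => invs A B I.1) (invs_anti A B)

noncomputable instance KMCohomology.instRing (A : Matrix (Fin n) (Fin n) ℤ)
    (B : Matrix (Fin c) (Fin n) ℚ) : Ring (KMCohomology A B) := Cohomology.instRing _ _

noncomputable instance KMCohomology.instAlgebra (A : Matrix (Fin n) (Fin n) ℤ)
    (B : Matrix (Fin c) (Fin n) ℚ) : Algebra ℚ (KMCohomology A B) := Cohomology.instAlgebra _ _

end

end Pool.Agent.TH541.KM
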