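import Mathlib

set_option autoImplicit false

/-! # Hilbert series of finitely generated graded modules

The Hilbert-Serre theorem for subquotients `Z / B` of a fixed graded vector space. -/

namespace Pool.Agent.TH541.KM

open Finset Module

/-- A grading of a vector space by finite-dimensional pieces, given by projections. -/
structure Grading (K C : Type*) [Field K] [AddCommGroup C] [Module K C] where
  /-- the projection to degree `m` -/
  pr : ℕ → C →ₗ[K] C
  idem : ∀ m x, pr m (pr m x) = pr m x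
  orth : ∀ m m' x, m ≠ m' → pr m (pr m' x) = 0
  sum_pr : ∀ x, ∃ N, ∑ m ∈ range N, pr m x = x
  fin : ∀ m, FiniteDimensional K (LinearMap.range (pr m))

variable {K R C : Type*} [Field K] [CommRing R] [Algebra K R] [AddCommGroup C] [Module K C]
  [Module R C] [IsScalarTower K R C]

/-- Graded submodules. -/
def IsGr (g : Grading K C) (N : Submodule R C) : Prop := ∀ x ∈ N, ∀ m, g.pr m x ∈ N

/-- The degree `m` part of a submodule. -/
def piece (g : Grading K C) (N : Submodule R C) (m : ℕ) : Submodule K C :=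
  N.restrictScalars K ⊓ LinearMap.range (g.pr m)

theorem mem_piece {g : Grading K C} {N : Submodule R C} {m : ℕ} {x : C} :
    x ∈ piece g N m ↔ x ∈ N ∧ g.pr m x = x := by
  unfold piece
  rw [Submodule.mem_inf, Submodule.restrictScalars_mem]
  constructor
  · rintro ⟨h, y, rfl⟩
    exact ⟨h, g.idem m y⟩
  · rintro ⟨h, h2⟩
    exact ⟨h, x, h2⟩

theorem finite_piece (g : Grading K C) (N : Submodule R C) (m : ℕ) :
    FiniteDimensional K (piece g N m) := by
  have := g.fin m
  exact Submodule.finiteDimensional_of_le (inf_le_right : piece g N m ≤ _)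

/-- Dimension of the degree `m` part. -/
noncomputable def hd (g : Grading K C) (N : Submodule R C) (m : ℕ) : ℕ := finrank K (piece g N m)

theorem Grading.pr_pr (g : Grading K C) (m m' : ℕ) (x : C) :
    g.pr m (g.pr m' x) = if m = m' then g.pr m x else 0 := by
  split_ifs with h
  · subst h; exact g.idem m x
  · exact g.orth m m' x h

theorem Grading.pr_eq_zero (g : Grading K C) {N : ℕ} {x : C} (h : ∑ m ∈ range N, g.pr m x = x)
    {k : ℕ} (hk : N ≤ k) : g.pr k x = 0 := by
  rw [← h, map_sum]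
  refine Finset.sum_eq_zero fun m hm => ?_
  rw [Finset.mem_range] at hm
  exact g.orth k m x (by omega)

/-- `r` is homogeneous of degree `d`. -/
def HomDeg (g : Grading K C) (r : R) (d : ℕ) : Prop :=
  ∀ m c, g.pr (m + d) (r • g.pr m c) = r • g.pr m c

omit [Algebra K R] [IsScalarTower K R C] in
theorem HomDeg.pr_smul {g : Grading K C} {r : R} {d : ℕ} (h : HomDeg g r d) (k : ℕ) (c : C) :
    g.pr (k + d) (r • c) = r • g.pr k c := by
  obtain ⟨N, hN⟩ := g.sum_pr c
  have h1 : r • c = ∑ m ∈ range N, r • g.pr m c := by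
    rw [← Finset.smul_sum, hN]
  have h2 : ∀ m, g.pr (k + d) (r • g.pr m c) = if k = m then r • g.pr m c else 0 := by
    intro m
    rw [← h m c, g.pr_pr]
    by_cases hkm : k = m
    · subst hkm; rw [if_pos rfl, if_pos rfl, h]
    · rw [if_neg (by omega), if_neg hkm]
  rw [h1, map_sum]
  simp only [h2]
  rw [Finset.sum_ite_eq (range N) k]
  split_ifs with hk
  · rfl
  · rw [Finset.mem_range, not_lt] at hk
    rw [g.pr_eq_zero hN hk, smul_zero]

omit [Algebra K R] [IsScalarTower K R C] in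
theorem HomDeg.pr_smul_lt {g : Grading K C} {r : R} {d : ℕ} (h : HomDeg g r d) {k : ℕ}
    (hk : k < d) (c : C) : g.pr k (r • c) = 0 := by
  obtain ⟨N, hN⟩ := g.sum_pr c
  have h1 : r • c = ∑ m ∈ range N, r • g.pr m c := by
    rw [← Finset.smul_sum, hN]
  rw [h1, map_sum]
  refine Finset.sum_eq_zero fun m _ => ?_
  rw [← h m c]
  exact g.orth _ _ _ (by omega)

/-- Multiplication by `r` as a `K`-linear map. -/
def mulK (K : Type*) [Field K] [Algebra K R] [Module K C] [IsScalarTower K R C] (r : R) :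
    C →ₗ[K] C where
  toFun c := r • c
  map_add' := smul_add r
  map_smul' k c := by
    rw [RingHom.id_apply]
    rw [← algebraMap_smul R k c, ← algebraMap_smul R k (r • c), smul_smul, smul_smul, mul_comm]

/-- Multiplication by `r` as an `R`-linear map. -/
def mulR (r : R) : C →ₗ[R] C where
  toFun c := r • c
  map_add' := smul_add r
  map_smul' k c := by
    rw [RingHom.id_apply, smul_smul, smul_smul, mul_comm]

/-- The kernel of multiplication by `r` on `Z / B`. -/
def kerS (r : R) (Z B : Submodule R C) : Submodule R C := Z ⊓ B.comap (mulR r)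

/-- `B + r Z`. -/
def cokS (r : R) (Z B : Submodule R C) : Submodule R C := B ⊔ Z.map (mulR r)

theorem mem_kerS {r : R} {Z B : Submodule R C} {x : C} : x ∈ kerS r Z B ↔ x ∈ Z ∧ r • x ∈ B :=
  Iff.rfl

theorem mem_cokS {r : R} {Z B : Submodule R C} {x : C} :
    x ∈ cokS r Z B ↔ ∃ b ∈ B, ∃ z ∈ Z, b + r • z = x := by
  unfold cokS
  rw [Submodule.mem_sup]
  constructor
  · rintro ⟨b, hb, y, ⟨z, hz, rfl⟩, h⟩
    exact ⟨b, hb, z, hz, h⟩
  · rintro ⟨b, hb, z, hz, h⟩
    exact ⟨b, hb, _, ⟨z, hz, rfl⟩, h⟩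

theorem isGr_kerS {g : Grading K C} {r : R} {d : ℕ} (h : HomDeg g r d) {Z B : Submodule R C}
    (hZ : IsGr g Z) (hB : IsGr g B) : IsGr g (kerS r Z B) := by
  intro x hx m
  rw [mem_kerS] at hx ⊢
  refine ⟨hZ x hx.1 m, ?_⟩
  rw [← h.pr_smul]
  exact hB _ hx.2 _

theorem isGr_cokS {g : Grading K C} {r : R} {d : ℕ} (h : HomDeg g r d) {Z B : Submodule R C}
    (hZ : IsGr g Z) (hB : IsGr g B) : IsGr g (cokS r Z B) := by
  intro x hx m
  rw [mem_cokS] at hx ⊢
  obtain ⟨b, hb, z, hz, rfl⟩ := hx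
  rw [map_add]
  by_cases hm : m < d
  · rw [h.pr_smul_lt hm]
    exact ⟨_, hB b hb m, 0, zero_mem _, by rw [smul_zero]⟩
  · obtain ⟨k, rfl⟩ : ∃ k, m = k + d := ⟨m - d, by omega⟩
    rw [h.pr_smul]
    exact ⟨_, hB b hb _, _, hZ z hz k, rfl⟩

theorem finrank_map_add (f : C →ₗ[K] C) (N : Submodule K C) [FiniteDimensional K N] :
    finrank K (N.map f) + finrank K (N ⊓ LinearMap.ker f : Submodule K C) = finrank K N := by
  have h := LinearMap.finrank_range_add_finrank_ker (f.domRestrict N)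
  have h1 : LinearMap.range (f.domRestrict N) = N.map f := by
    rw [LinearMap.range_domRestrict]
  have h2 : finrank K (LinearMap.ker (f.domRestrict N)) =
      finrank K (N ⊓ LinearMap.ker f : Submodule K C) := by
    have h3 : (LinearMap.ker (f.domRestrict N)).map N.subtype = N ⊓ LinearMap.ker f := by
      ext x
      simp only [Submodule.mem_map, LinearMap.mem_ker, LinearMap.domRestrict_apply,
        Submodule.subtype_apply, Submodule.mem_inf, Subtype.exists, exists_and_left,
        exists_prop]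
      constructor
      · rintro ⟨y, hy, hyN, rfl⟩
        exact ⟨hyN, hy⟩
      · rintro ⟨hx, hx2⟩
        exact ⟨x, hx2, hx, rfl⟩
    rw [← h3]
    exact (LinearEquiv.finrank_eq (Submodule.equivMapOfInjective N.subtype
      (Submodule.subtype_injective N) _))
  rw [← h1, ← h2, h]

theorem hd_cokS_add {g : Grading K C} {r : R} {d : ℕ} (h : HomDeg g r d) {Z B : Submodule R C}
    (hZ : IsGr g Z) (hB : IsGr g B) (m : ℕ) :
    hd g (cokS r Z B) (m + d) + hd g (kerS r Z B) m = hd g B (m + d) + hd g Z m := by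
  have f1 := finite_piece g B (m + d)
  have f2 := finite_piece g Z m
  have f3 := finite_piece g (kerS r Z B) m
  have e1 : piece g (cokS r Z B) (m + d) =
      piece g B (m + d) ⊔ (piece g Z m).map (mulK K r) := by
    ext x
    rw [mem_piece, mem_cokS, Submodule.mem_sup]
    constructor
    · rintro ⟨⟨b, hb, z, hz, rfl⟩, hx⟩
      rw [map_add, h.pr_smul] at hx
      refine ⟨g.pr (m + d) b, mem_piece.mpr ⟨hB b hb _, g.idem _ _⟩, r • g.pr m z,
        ⟨g.pr m z, mem_piece.mpr ⟨hZ z hz _, g.idem _ _⟩, rfl⟩, hx⟩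
    · rintro ⟨b, hb, y, ⟨z, hz, rfl⟩, rfl⟩
      rw [mem_piece] at hb
      have hz' := mem_piece.mp hz
      refine ⟨⟨b, hb.1, z, hz'.1, rfl⟩, ?_⟩
      have h3 : g.pr (m + d) (r • z) = r • z := by rw [h.pr_smul, hz'.2]
      show g.pr (m + d) (b + r • z) = b + r • z
      rw [map_add, hb.2, h3]
  have e2 : piece g B (m + d) ⊓ (piece g Z m).map (mulK K r) =
      (piece g (kerS r Z B) m).map (mulK K r) := by
    ext x
    rw [Submodule.mem_inf, mem_piece]
    constructor
    · rintro ⟨⟨hb, _⟩, ⟨z, hz, rfl⟩⟩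
      have hz' := mem_piece.mp hz
      exact ⟨z, mem_piece.mpr ⟨mem_kerS.mpr ⟨hz'.1, hb⟩, hz'.2⟩, rfl⟩
    · rintro ⟨z, hz, rfl⟩
      have hz' := mem_piece.mp hz
      have hz2 := mem_kerS.mp hz'.1
      refine ⟨⟨hz2.2, ?_⟩, ⟨z, mem_piece.mpr ⟨hz2.1, hz'.2⟩, rfl⟩⟩
      show g.pr (m + d) (r • z) = r • z
      rw [h.pr_smul, hz'.2]
  have e3 : piece g Z m ⊓ LinearMap.ker (mulK K r : C →ₗ[K] C) =
      piece g (kerS r Z B) m ⊓ LinearMap.ker (mulK K r : C →ₗ[K] C) := by
    ext x
    rw [Submodule.mem_inf, Submodule.mem_inf, mem_piece, mem_piece, LinearMap.mem_ker, mem_kerS]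
    constructor
    · rintro ⟨⟨h1, h2⟩, h3⟩
      have h4 : r • x = 0 := h3
      exact ⟨⟨⟨h1, by rw [h4]; exact zero_mem _⟩, h2⟩, h3⟩
    · rintro ⟨⟨h1, h2⟩, h3⟩
      exact ⟨⟨h1.1, h2⟩, h3⟩
  have a1 := Submodule.finrank_sup_add_finrank_inf_eq (piece g B (m + d))
    ((piece g Z m).map (mulK K r))
  have a2 := finrank_map_add (mulK K r) (piece g Z m)
  have a3 := finrank_map_add (mulK K r) (piece g (kerS r Z B) m)
  rw [← e1, e2] at a1
  rw [e3] at a2
  unfold hd
  omega

theorem hd_cokS_lt {g : Grading K C} {r : R} {d : ℕ} (h : HomDeg g r d) {Z B : Submodule R C}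
    (hB : IsGr g B) {m : ℕ} (hm : m < d) :
    hd g (cokS r Z B) m = hd g B m := by
  have : piece g (cokS r Z B) m = piece g B m := by
    ext x
    rw [mem_piece, mem_cokS, mem_piece]
    constructor
    · rintro ⟨⟨b, hb, z, hz, rfl⟩, hx⟩
      refine ⟨?_, hx⟩
      rw [← hx, map_add, h.pr_smul_lt hm, add_zero]
      exact hB b hb m
    · rintro ⟨h1, h2⟩
      exact ⟨⟨x, h1, 0, zero_mem _, by rw [smul_zero, add_zero]⟩, h2⟩
  unfold hd
  rw [this]

/-- Every submodule between `B` and `Z` is finitely generated over `B`. -/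
def Noeth (Z B : Submodule R C) : Prop :=
  ∀ L : Submodule R C, B ≤ L → L ≤ Z → ∃ G : Finset C, L = B ⊔ Submodule.span R (G : Set C)

theorem Noeth.kerS {Z B : Submodule R C} (h : Noeth Z B) (r : R) : Noeth (kerS r Z B) B := by
  intro L h1 h2
  exact h L h1 (h2.trans inf_le_left)

theorem Noeth.cokS {Z B : Submodule R C} (h : Noeth Z B) (r : R) : Noeth Z (cokS r Z B) := by
  intro L h1 h2
  obtain ⟨G, hG⟩ := h L (le_sup_left.trans h1) h2
  refine ⟨G, le_antisymm ?_ ?_⟩
  · conv_lhs => rw [hG]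
    exact sup_le_sup_right le_sup_left _
  · refine sup_le h1 ?_
    rw [hG]
    exact le_sup_right

theorem noeth_of_fg [IsNoetherianRing R] {Z B : Submodule R C} (G : Finset C)
    (h : Z ≤ B ⊔ Submodule.span R (G : Set C)) : Noeth Z B := by
  intro L h1 h2
  have h3 : L = B ⊔ (L ⊓ Submodule.span R (G : Set C)) := by
    rw [inf_comm, sup_inf_assoc_of_le _ h1 |>.symm, inf_comm]
    exact (inf_eq_left.mpr (h2.trans h)).symm
  have h4 : IsNoetherian R (Submodule.span R (G : Set C)) :=
    isNoetherian_span_of_finite R G.finite_toSet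
  have h5 : (L ⊓ Submodule.span R (G : Set C)).FG := by
    have := isNoetherian_submodule.mp h4 (L ⊓ Submodule.span R (G : Set C)) inf_le_right
    exact this
  obtain ⟨G', hG'⟩ := h5
  exact ⟨G', by rw [hG']; exact h3⟩

section main

variable {ι : Type*} {x : ι → R} {d : ι → ℕ} {g : Grading K C}

theorem scalar_of_trivial (hgen : Algebra.adjoin K (Set.range x) = ⊤) {Z B : Submodule R C}
    (h0 : ∀ i, ∀ z ∈ Z, x i • z ∈ B) (r : R) :
    ∃ k : K, ∀ z ∈ Z, r • z - k • z ∈ B := by
  have hr : r ∈ Algebra.adjoin K (Set.range x) := by rw [hgen]; trivial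
  induction hr using Algebra.adjoin_induction with
  | mem y hy =>
    obtain ⟨i, rfl⟩ := hy
    exact ⟨0, fun z hz => by rw [zero_smul, sub_zero]; exact h0 i z hz⟩
  | algebraMap k => exact ⟨k, fun z hz => by rw [algebraMap_smul, sub_self]; exact zero_mem _⟩
  | add a b _ _ ha hb =>
    obtain ⟨k, hk⟩ := ha
    obtain ⟨l, hl⟩ := hb
    refine ⟨k + l, fun z hz => ?_⟩
    have := add_mem (hk z hz) (hl z hz)
    rw [add_smul, add_smul]
    convert this using 1
    abel
  | mul a b _ _ ha hb =>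
    obtain ⟨k, hk⟩ := ha
    obtain ⟨l, hl⟩ := hb
    refine ⟨k * l, fun z hz => ?_⟩
    have h1 : a • (b • z - l • z) ∈ B := B.smul_mem a (hl z hz)
    have h2 : algebraMap K R l • (a • z - k • z) ∈ B := B.smul_mem _ (hk z hz)
    have := add_mem h1 h2
    rw [smul_sub, smul_sub, smul_smul, algebraMap_smul, algebraMap_smul] at this
    have h3 : a • l • z = l • a • z := by
      rw [← algebraMap_smul R l z, ← algebraMap_smul R l (a • z), smul_smul, smul_smul, mul_comm]
    rw [h3, smul_smul l k z, mul_comm l k] at this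
    convert this using 1
    abel

theorem eventually_trivial (hgen : Algebra.adjoin K (Set.range x) = ⊤) {Z B : Submodule R C}
    (hB : IsGr g B) (hBZ : B ≤ Z) (hN : Noeth Z B)
    (h0 : ∀ i, ∀ z ∈ Z, x i • z ∈ B) : ∃ M, ∀ m, M ≤ m → hd g Z m = hd g B m := by
  obtain ⟨G, hG⟩ := hN Z hBZ le_rfl
  choose N hN using g.sum_pr
  refine ⟨G.sup N, fun m hm => ?_⟩
  have hpr : ∀ y ∈ G, g.pr m y = 0 := fun y hy =>
    g.pr_eq_zero (hN y) ((Finset.le_sup hy).trans hm)
  have hyZ : ∀ y ∈ Submodule.span R (G : Set C), y ∈ Z := by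
    intro y hy
    rw [hG]
    exact Submodule.mem_sup_right hy
  have key' : ∀ y ∈ Submodule.span R (G : Set C), g.pr m y ∈ B := by
    intro y hy
    induction hy using Submodule.span_induction with
    | mem y hy => rw [hpr y hy]; exact zero_mem _
    | zero => rw [map_zero]; exact zero_mem _
    | add u v _ _ hu hv =>
      rw [map_add]
      exact add_mem hu hv
    | smul r u hu ih =>
      obtain ⟨k, hk⟩ := scalar_of_trivial hgen h0 r
      have h1 := hB _ (hk u (hyZ u hu)) m
      rw [map_sub, (g.pr m).map_smul k u] at h1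
      have h3 : k • g.pr m u ∈ B := by
        rw [← algebraMap_smul R k]
        exact B.smul_mem _ ih
      have := add_mem h1 h3
      rwa [sub_add_cancel] at this
  have key : ∀ z ∈ Z, g.pr m z ∈ B := by
    intro z hz
    rw [hG] at hz
    obtain ⟨b, hb, y, hy, rfl⟩ := Submodule.mem_sup.mp hz
    rw [map_add]
    exact add_mem (hB b hb m) (key' y hy)
  have : piece g Z m = piece g B m := by
    ext y
    rw [mem_piece, mem_piece]
    constructor
    · rintro ⟨h1, h2⟩
      refine ⟨?_, h2⟩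
      rw [← h2]
      exact key y h1
    · rintro ⟨h1, h2⟩
      exact ⟨hBZ h1, h2⟩
  unfold hd
  rw [this]

/-- The Hilbert series of `Z / B`. -/
noncomputable def HSer (g : Grading K C) (Z B : Submodule R C) : PowerSeries ℤ :=
  PowerSeries.mk fun m => (hd g Z m : ℤ) - hd g B m

theorem HSer_step {r : R} {d : ℕ} (h : HomDeg g r d) {Z B : Submodule R C}
    (hZ : IsGr g Z) (hB : IsGr g B) :
    (1 - PowerSeries.X ^ d) * HSer g Z B =
      HSer g Z (cokS r Z B) - PowerSeries.X ^ d * HSer g (kerS r Z B) B := by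
  ext m
  rw [sub_mul, one_mul, map_sub, map_sub]
  by_cases hm : m < d
  · have h1 : ∀ f : PowerSeries ℤ, PowerSeries.coeff m (PowerSeries.X ^ d * f) = 0 := by
      intro f
      rw [PowerSeries.coeff_X_pow_mul', if_neg (by omega)]
    rw [h1, h1, HSer, HSer, PowerSeries.coeff_mk, PowerSeries.coeff_mk, hd_cokS_lt h hB hm]
  · obtain ⟨k, rfl⟩ : ∃ k, m = k + d := ⟨m - d, by omega⟩
    rw [PowerSeries.coeff_X_pow_mul, PowerSeries.coeff_X_pow_mul]
    simp only [HSer, PowerSeries.coeff_mk]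
    have := hd_cokS_add h hZ hB k
    omega

/-- **Hilbert-Serre.** -/
theorem hilbert_serre [DecidableEq ι] (hx : ∀ i, HomDeg g (x i) (d i))
    (hgen : Algebra.adjoin K (Set.range x) = ⊤)
    (s : Finset ι) : ∀ (Z B : Submodule R C), IsGr g Z → IsGr g B → B ≤ Z → Noeth Z B →
      (∀ i ∉ s, ∀ z ∈ Z, x i • z ∈ B) →
      ∃ p : Polynomial ℤ, (∏ i ∈ s, (1 - PowerSeries.X ^ (d i))) * HSer g Z B =
        (p : PowerSeries ℤ) := by
  induction s using Finset.induction_on with
  | empty =>
    intro Z B hZ hB hBZ hN h0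
    obtain ⟨M, hM⟩ := eventually_trivial hgen hB hBZ hN (fun i => h0 i (Finset.notMem_empty i))
    refine ⟨PowerSeries.trunc M (HSer g Z B), ?_⟩
    rw [Finset.prod_empty, one_mul]
    ext m
    rw [Polynomial.coeff_coe, PowerSeries.coeff_trunc]
    split_ifs with h
    · rfl
    · rw [HSer, PowerSeries.coeff_mk, hM m (not_lt.mp h), sub_self]
  | insert i s his ih =>
    intro Z B hZ hB hBZ hN h0
    have hxZ : ∀ z ∈ Z, x i • z ∈ Z := fun z hz => Z.smul_mem _ hz
    obtain ⟨p, hp⟩ := ih Z (cokS (x i) Z B) hZ (isGr_cokS (hx i) hZ hB)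
      (by
        intro y hy
        obtain ⟨b, hb, z, hz, rfl⟩ := mem_cokS.mp hy
        exact add_mem (hBZ hb) (hxZ z hz)) (hN.cokS (x i))
      (by
        intro j hj z hz
        by_cases hji : j = i
        · subst hji
          exact mem_cokS.mpr ⟨0, zero_mem _, z, hz, zero_add _⟩
        · exact Submodule.mem_sup_left (h0 j (by simp [hji, hj]) z hz))
    obtain ⟨q, hq⟩ := ih (kerS (x i) Z B) B (isGr_kerS (hx i) hZ hB) hB
      (fun b hb => mem_kerS.mpr ⟨hBZ hb, B.smul_mem _ hb⟩) (hN.kerS (x i))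
      (by
        intro j hj z hz
        by_cases hji : j = i
        · subst hji
          exact (mem_kerS.mp hz).2
        · exact h0 j (by simp [hji, hj]) z (mem_kerS.mp hz).1)
    refine ⟨p - Polynomial.X ^ (d i) * q, ?_⟩
    rw [Finset.prod_insert his, mul_comm (1 - _) (∏ i ∈ s, _), mul_assoc,
      HSer_step (hx i) hZ hB, mul_sub, hp]
    rw [mul_left_comm, hq]
    push_cast
    rfl

end main

end Pool.Agent.TH541.KM
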