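import Pool.Agent.TH541.KM.Mol1

set_option autoImplicit false

/-! # Directional derivatives, reflections, and the two-reflection lemma -/

namespace Pool.Agent.TH541.KM

open MvPolynomial Matrix

set_option linter.unusedSectionVars false

variable {ι : Type*} [Fintype ι] [DecidableEq ι]

/-- The linear form with coefficients `φ`. -/
noncomputable def lin (φ : ι → ℚ) : MvPolynomial ι ℚ := ∑ i, C (φ i) * X i

/-- Derivative in the direction `v`. -/
noncomputable def Dv (v : ι → ℚ) : Derivation ℚ (MvPolynomial ι ℚ) (MvPolynomial ι ℚ) :=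
  mkDerivation ℚ (fun i => C (v i))

theorem ext_eval {p q : MvPolynomial ι ℚ} (h : ∀ x, eval x p = eval x q) : p = q :=
  MvPolynomial.funext h

theorem eval_lin (φ x : ι → ℚ) : eval x (lin φ) = φ ⬝ᵥ x := by
  simp [lin, dotProduct]

theorem eval_TT (g : Matrix ι ι ℚ) (x : ι → ℚ) (p : MvPolynomial ι ℚ) :
    eval x (TT g p) = eval (g *ᵥ x) p := by
  induction p using MvPolynomial.induction_on with
  | C a => rw [TT_C, eval_C, eval_C]
  | add p q hp hq => rw [map_add, map_add, map_add, hp, hq]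
  | mul_X p i hp =>
    rw [map_mul, map_mul, map_mul, hp, TT_X, eval_X]
    simp [Matrix.mulVec, dotProduct]

theorem TT_lin (g : Matrix ι ι ℚ) (φ : ι → ℚ) : TT g (lin φ) = lin (φ ᵥ* g) := by
  apply ext_eval
  intro x
  rw [eval_TT, eval_lin, eval_lin, dotProduct_mulVec]

theorem lin_add (φ ψ : ι → ℚ) : lin (φ + ψ) = lin φ + lin ψ := by
  apply ext_eval; intro x
  rw [map_add, eval_lin, eval_lin, eval_lin, add_dotProduct]

theorem lin_smul (a : ℚ) (φ : ι → ℚ) : lin (a • φ) = C a * lin φ := by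
  apply ext_eval; intro x
  rw [map_mul, eval_lin, eval_lin, eval_C, smul_dotProduct, smul_eq_mul]

theorem lin_sub (φ ψ : ι → ℚ) : lin (φ - ψ) = lin φ - lin ψ := by
  apply ext_eval; intro x
  rw [map_sub, eval_lin, eval_lin, eval_lin, sub_dotProduct]

theorem lin_neg (φ : ι → ℚ) : lin (-φ) = - lin φ := by
  apply ext_eval; intro x
  rw [map_neg, eval_lin, eval_lin, neg_dotProduct]

theorem lin_ne_zero {φ v : ι → ℚ} (h : φ ⬝ᵥ v ≠ 0) : lin φ ≠ 0 := by
  intro h0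
  apply h
  rw [← eval_lin, h0, map_zero]

theorem Dv_X (v : ι → ℚ) (i : ι) : Dv v (X i) = C (v i) := mkDerivation_X _ _ _

theorem Dv_C (v : ι → ℚ) (a : ℚ) : Dv v (C a) = 0 := derivation_C _ _

theorem Dv_mul (v : ι → ℚ) (p q : MvPolynomial ι ℚ) : Dv v (p * q) = p * Dv v q + q * Dv v p := by
  rw [Derivation.leibniz, smul_eq_mul, smul_eq_mul]

theorem Dv_add_vec (v w : ι → ℚ) (f : MvPolynomial ι ℚ) : Dv (v + w) f = Dv v f + Dv w f := by
  induction f using MvPolynomial.induction_on with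
  | C a => rw [Dv_C, Dv_C, Dv_C, add_zero]
  | add p q hp hq => rw [map_add, map_add, map_add, hp, hq]; ring
  | mul_X p i hp => rw [Dv_mul, Dv_mul, Dv_mul, hp, Dv_X, Dv_X, Dv_X, Pi.add_apply, C_add]; ring

theorem Dv_smul_vec (a : ℚ) (v : ι → ℚ) (f : MvPolynomial ι ℚ) :
    Dv (a • v) f = C a * Dv v f := by
  induction f using MvPolynomial.induction_on with
  | C a => rw [Dv_C, Dv_C, mul_zero]
  | add p q hp hq => rw [map_add, map_add, hp, hq]; ring
  | mul_X p i hp => rw [Dv_mul, Dv_mul, hp, Dv_X, Dv_X, Pi.smul_apply, smul_eq_mul, C_mul]; ring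

theorem Dv_neg_vec (v : ι → ℚ) (f : MvPolynomial ι ℚ) : Dv (-v) f = - Dv v f := by
  have := Dv_smul_vec (-1) v f
  rw [neg_one_smul] at this
  rw [this, map_neg, map_one, neg_one_mul]

theorem Dv_sub_vec (v w : ι → ℚ) (f : MvPolynomial ι ℚ) : Dv (v - w) f = Dv v f - Dv w f := by
  rw [sub_eq_add_neg, Dv_add_vec, Dv_neg_vec, sub_eq_add_neg]

theorem Dv_TT (g : Matrix ι ι ℚ) (v : ι → ℚ) (f : MvPolynomial ι ℚ) :
    Dv v (TT g f) = TT g (Dv (g *ᵥ v) f) := by
  induction f using MvPolynomial.induction_on with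
  | C a => rw [TT_C, Dv_C, Dv_C, map_zero]
  | add p q hp hq => rw [map_add, map_add, hp, hq, map_add, map_add]
  | mul_X p i hp =>
    have h1 : Dv v (TT g (X i)) = TT g (Dv (g *ᵥ v) (X i)) := by
      rw [TT_X, map_sum, Dv_X, TT_C]
      simp only [Dv_mul, Dv_C, Dv_X, mul_zero, add_zero, ← C_mul]
      rw [← map_sum]
      rfl
    rw [map_mul, Dv_mul, hp, h1, Dv_mul, map_add, map_mul, map_mul]

theorem Dv_single (i : ι) (f : MvPolynomial ι ℚ) : Dv (Pi.single i 1) f = pderiv i f := by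
  rw [pderiv_def, Dv]
  congr 2
  funext j
  by_cases h : j = i
  · subst h; simp
  · simp [Pi.single_eq_of_ne h]

/-! ### Restriction to lines -/

/-- The restriction of `f` to the line `t ↦ x + t v`. -/
noncomputable def Ln (x v : ι → ℚ) : MvPolynomial ι ℚ →ₐ[ℚ] Polynomial ℚ :=
  aeval (fun i => Polynomial.C (x i) + Polynomial.C (v i) * Polynomial.X)

theorem Ln_X (x v : ι → ℚ) (i : ι) :
    Ln x v (X i) = Polynomial.C (x i) + Polynomial.C (v i) * Polynomial.X := by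
  simp [Ln]

theorem Ln_C (x v : ι → ℚ) (a : ℚ) : Ln x v (C a) = Polynomial.C a := (Ln x v).commutes a

theorem eval_Ln (x v : ι → ℚ) (t : ℚ) (f : MvPolynomial ι ℚ) :
    (Ln x v f).eval t = eval (x + t • v) f := by
  induction f using MvPolynomial.induction_on with
  | C a => rw [Ln_C, Polynomial.eval_C, eval_C]
  | add p q hp hq => rw [map_add, Polynomial.eval_add, hp, hq, map_add]
  | mul_X p i hp =>
    rw [map_mul, Polynomial.eval_mul, hp, Ln_X, map_mul, eval_X]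
    simp only [Polynomial.eval_add, Polynomial.eval_C, Polynomial.eval_mul, Polynomial.eval_X,
      Pi.add_apply, Pi.smul_apply, smul_eq_mul]
    ring

theorem derivative_Ln (x v : ι → ℚ) (f : MvPolynomial ι ℚ) :
    Polynomial.derivative (Ln x v f) = Ln x v (Dv v f) := by
  induction f using MvPolynomial.induction_on with
  | C a => rw [Ln_C, Polynomial.derivative_C, Dv_C, map_zero]
  | add p q hp hq => rw [map_add, Polynomial.derivative_add, hp, hq, map_add, map_add]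
  | mul_X p i hp =>
    have h1 : Ln x v (Dv v (p * X i)) = Ln x v p * Polynomial.C (v i) +
        (Polynomial.C (x i) + Polynomial.C (v i) * Polynomial.X) * Ln x v (Dv v p) := by
      rw [Dv_mul, map_add, map_mul (Ln x v), map_mul (Ln x v), Dv_X, Ln_C, Ln_X]
    rw [map_mul, Polynomial.derivative_mul, hp, Ln_X, h1]
    simp only [Polynomial.derivative_add, Polynomial.derivative_C, Polynomial.derivative_mul,
      Polynomial.derivative_X]
    ring

/-! ### Reflections -/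

/-- The reflection `x ↦ x - φ (x) v`. -/
def rf (v φ : ι → ℚ) : Matrix ι ι ℚ := 1 - Matrix.vecMulVec v φ

theorem rf_mulVec (v φ x : ι → ℚ) : rf v φ *ᵥ x = x - (φ ⬝ᵥ x) • v := by
  rw [rf, Matrix.sub_mulVec, Matrix.one_mulVec, Matrix.vecMulVec_mulVec]
  congr 1
  ext i
  simp [mul_comm]

theorem vecMul_rf (v φ ψ : ι → ℚ) : ψ ᵥ* rf v φ = ψ - (ψ ⬝ᵥ v) • φ := by
  rw [rf, Matrix.vecMul_sub, Matrix.vecMul_one, Matrix.vecMul_vecMulVec]

theorem mat_ext {g h : Matrix ι ι ℚ} (H : ∀ x, g *ᵥ x = h *ᵥ x) : g = h := by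
  apply Matrix.toLin'.injective
  ext1 i
  ext1
  simp only [LinearMap.comp_apply, Matrix.toLin'_apply]
  exact H _

theorem rf_mul_self {v φ : ι → ℚ} (h : φ ⬝ᵥ v = 2) : rf v φ * rf v φ = 1 := by
  apply mat_ext
  intro x
  rw [← Matrix.mulVec_mulVec, rf_mulVec, rf_mulVec, Matrix.one_mulVec, dotProduct_sub,
    dotProduct_smul, h, smul_eq_mul]
  ext i
  simp only [Pi.sub_apply, Pi.smul_apply, smul_eq_mul]
  ring

theorem rf_conj {v φ : ι → ℚ} {w ψ : ι → ℚ} (h : ψ ⬝ᵥ w = 2) :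
    rf (rf w ψ *ᵥ v) (φ ᵥ* rf w ψ) = rf w ψ * rf v φ * rf w ψ := by
  apply mat_ext
  intro x
  rw [← Matrix.mulVec_mulVec, ← Matrix.mulVec_mulVec, rf_mulVec _ _ x, rf_mulVec v φ,
    Matrix.mulVec_sub, Matrix.mulVec_smul, ← dotProduct_mulVec, Matrix.mulVec_mulVec x,
    rf_mul_self h, Matrix.one_mulVec]

/-- `(v, φ)` is a reflection datum for `f`, with quotient `G`. -/
structure RD (f : MvPolynomial ι ℚ) (v φ : ι → ℚ) (G : MvPolynomial ι ℚ) : Prop where
  two : φ ⬝ᵥ v = 2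
  inv : TT (rf v φ) f = f
  der : Dv v f = lin φ * G

theorem TT_TT_self {w ψ : ι → ℚ} (h : ψ ⬝ᵥ w = 2) (p : MvPolynomial ι ℚ) :
    TT (rf w ψ) (TT (rf w ψ) p) = p := by
  rw [TT_mul, rf_mul_self h, TT_one]

theorem Dv_refl {f : MvPolynomial ι ℚ} {w ψ : ι → ℚ} (h : ψ ⬝ᵥ w = 2)
    (hf : TT (rf w ψ) f = f) (v : ι → ℚ) :
    TT (rf w ψ) (Dv v f) = Dv (rf w ψ *ᵥ v) f := by
  have h1 := Dv_TT (rf w ψ) v f
  rw [hf] at h1
  rw [h1, TT_TT_self h]

theorem rf_mulVec_self {w ψ : ι → ℚ} (h : ψ ⬝ᵥ w = 2) : rf w ψ *ᵥ w = -w := by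
  rw [rf_mulVec, h, two_smul]
  abel

theorem vecMul_rf_self {w ψ : ι → ℚ} (h : ψ ⬝ᵥ w = 2) : ψ ᵥ* rf w ψ = -ψ := by
  rw [vecMul_rf, h, two_smul]
  abel

theorem dvd_sub_TT (w ψ : ι → ℚ) (p : MvPolynomial ι ℚ) : lin ψ ∣ p - TT (rf w ψ) p := by
  induction p using MvPolynomial.induction_on with
  | C a => rw [TT_C, sub_self]; exact dvd_zero _
  | add p q hp hq =>
    have : p + q - TT (rf w ψ) (p + q) = (p - TT (rf w ψ) p) + (q - TT (rf w ψ) q) := by
      rw [map_add]; ring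
    rw [this]
    exact dvd_add hp hq
  | mul_X p i hp =>
    have h1 : X i - TT (rf w ψ) (X i) = C (w i) * lin ψ := by
      apply ext_eval
      intro x
      rw [map_sub, eval_TT, eval_X, eval_X, rf_mulVec, map_mul, eval_C, eval_lin, Pi.sub_apply,
        Pi.smul_apply, smul_eq_mul]
      ring
    have h2 : p * X i - TT (rf w ψ) (p * X i) =
        (p - TT (rf w ψ) p) * X i + TT (rf w ψ) p * (X i - TT (rf w ψ) (X i)) := by
      rw [map_mul]; ring
    rw [h2, h1]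
    exact dvd_add (hp.mul_right _) (dvd_mul_of_dvd_right (dvd_mul_left _ _) _)

theorem exists_RD {f : MvPolynomial ι ℚ} {v φ : ι → ℚ} (h : φ ⬝ᵥ v = 2)
    (hf : TT (rf v φ) f = f) : ∃ G, RD f v φ G := by
  have h1 : TT (rf v φ) (Dv v f) = - Dv v f := by
    rw [Dv_refl h hf, rf_mulVec_self h, Dv_neg_vec]
  obtain ⟨G, hG⟩ := dvd_sub_TT v φ (Dv v f)
  rw [h1] at hG
  refine ⟨C (1 / 2) * G, h, hf, ?_⟩
  have h2 : (C (1 / 2 : ℚ) : MvPolynomial ι ℚ) * 2 = 1 := by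
    have : (2 : MvPolynomial ι ℚ) = C 2 := (map_ofNat C 2).symm
    rw [this, ← C_mul]
    norm_num
  calc Dv v f = C (1 / 2) * 2 * Dv v f := by rw [h2, one_mul]
    _ = C (1 / 2) * (Dv v f - -Dv v f) := by ring
    _ = lin φ * (C (1 / 2) * G) := by rw [hG]; ring

theorem RD.inv_G {f G : MvPolynomial ι ℚ} {v φ : ι → ℚ} (h : RD f v φ G) :
    TT (rf v φ) G = G := by
  have h1 : TT (rf v φ) (Dv v f) = - Dv v f := by
    rw [Dv_refl h.two h.inv, rf_mulVec_self h.two, Dv_neg_vec]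
  rw [h.der, map_mul, TT_lin, vecMul_rf_self h.two, lin_neg] at h1
  have h2 : lin φ * (TT (rf v φ) G - G) = 0 := by linear_combination -h1
  have h3 : lin φ ≠ 0 := lin_ne_zero (v := v) (by rw [h.two]; norm_num)
  rcases mul_eq_zero.mp h2 with h4 | h4
  · exact absurd h4 h3
  · exact sub_eq_zero.mp h4

theorem RD.conj {f G H : MvPolynomial ι ℚ} {v φ w ψ : ι → ℚ} (h : RD f v φ G)
    (h' : RD f w ψ H) : RD f (rf w ψ *ᵥ v) (φ ᵥ* rf w ψ) (TT (rf w ψ) G) := by
  refine ⟨?_, ?_, ?_⟩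
  · rw [← dotProduct_mulVec, Matrix.mulVec_mulVec, rf_mul_self h'.two, Matrix.one_mulVec, h.two]
  · rw [rf_conj h'.two, ← TT_mul, ← TT_mul, h'.inv, h.inv, h'.inv]
  · rw [← Dv_refl h'.two h'.inv, h.der, map_mul, TT_lin]

/-! ### Sequences -/

theorem seq_grow {τ : ℚ} (hτ : 2 ≤ |τ|) (b : ℕ → ℚ) (hb : ∀ k, b (k + 2) = τ * b (k + 1) - b k)
    (h0 : b 0 = 2) (h1 : b 1 = τ) (k : ℕ) :
    0 < τ * (b k * b (k + 1)) ∧ |b k| ≤ |b (k + 1)| := by
  induction k with
  | zero =>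
    rw [h0, h1]
    constructor
    · have : τ ^ 2 = |τ| ^ 2 := (sq_abs τ).symm
      nlinarith
    · rw [abs_two]; exact hτ
  | succ k ih =>
    obtain ⟨i1, i2⟩ := ih
    rw [hb k]
    have h3 : b (k + 1) ≠ 0 := by
      intro h
      rw [h] at i1
      simp at i1
    have h4 : 0 < |b (k + 1)| := abs_pos.mpr h3
    constructor
    · have e : τ * (b (k + 1) * (τ * b (k + 1) - b k)) =
          τ ^ 2 * b (k + 1) ^ 2 - τ * (b k * b (k + 1)) := by ring
      have e1 : τ ^ 2 * b (k + 1) ^ 2 = (|τ| * |b (k + 1)|) * (|τ| * |b (k + 1)|) := by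
        rw [← sq_abs τ, ← sq_abs (b (k + 1))]; ring
      have e2 : τ * (b k * b (k + 1)) ≤ |τ| * (|b k| * |b (k + 1)|) := by
        rw [← abs_mul, ← abs_mul]; exact le_abs_self _
      have e3 : |τ| * (|b k| * |b (k + 1)|) ≤ |τ| * |b (k + 1)| * |b (k + 1)| := by
        rw [mul_assoc]
        exact mul_le_mul_of_nonneg_left (mul_le_mul_of_nonneg_right i2 h4.le) (abs_nonneg _)
      rw [e, e1]
      have h5 : 0 < |τ| * |b (k + 1)| := mul_pos (by linarith) h4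
      nlinarith [mul_le_mul_of_nonneg_right hτ h4.le]
    · have h5 : |τ * b (k + 1)| - |b k| ≤ |τ * b (k + 1) - b k| := abs_sub_abs_le_abs_sub _ _
      rw [abs_mul] at h5
      nlinarith [mul_le_mul_of_nonneg_right hτ h4.le]

/-- Quotients of two solutions of the recursion take infinitely many values. -/
theorem seq_inj {τ : ℚ} (hτ : 2 ≤ |τ|) (a b : ℕ → ℚ)
    (ha : ∀ k, a (k + 2) = τ * a (k + 1) - a k)
    (hb : ∀ k, b (k + 2) = τ * b (k + 1) - b k)
    (h0 : b 0 = 2) (h1 : b 1 = τ) (hW : a 1 * b 0 - a 0 * b 1 ≠ 0) :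
    (∀ k, b k ≠ 0) ∧ Function.Injective (fun k => a k / b k) := by
  have hg := seq_grow hτ b hb h0 h1
  have hne : ∀ k, b k ≠ 0 := by
    intro k h
    have := (hg k).1
    rw [h] at this
    simp at this
  refine ⟨hne, ?_⟩
  set W := a 1 * b 0 - a 0 * b 1 with hWdef
  have hWk : ∀ k, a (k + 1) * b k - a k * b (k + 1) = W := by
    intro k
    induction k with
    | zero => rfl
    | succ k ih => rw [ha, hb, ← ih]; ring
  have hstep : ∀ k, (τ * W) * (a k / b k) < (τ * W) * (a (k + 1) / b (k + 1)) := by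
    intro k
    have h2 := (hg k).1
    have h3 : a (k + 1) / b (k + 1) - a k / b k = W / (b k * b (k + 1)) := by
      rw [← hWk k]
      field_simp [hne k, hne (k + 1)]
    have h4 : (τ * W) * (a (k + 1) / b (k + 1)) - (τ * W) * (a k / b k) =
        (τ * (b k * b (k + 1))) * (W / (b k * b (k + 1))) ^ 2 := by
      rw [← mul_sub, h3]
      have := hne k
      have := hne (k + 1)
      field_simp
    have h5 : 0 < (τ * (b k * b (k + 1))) * (W / (b k * b (k + 1))) ^ 2 := by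
      have := hne k
      have := hne (k + 1)
      positivity
    linarith
  have hmono : StrictMono (fun k => (τ * W) * (a k / b k)) := strictMono_nat_of_lt_succ hstep
  intro k l hkl
  apply hmono.injective
  simp only at hkl ⊢
  rw [hkl]

/-! ### The two-reflection lemma -/

theorem two_reflections {f G₁ G₂ : MvPolynomial ι ℚ} {v₁ φ₁ v₂ φ₂ : ι → ℚ}
    (h₁ : RD f v₁ φ₁ G₁) (h₂ : RD f v₂ φ₂ G₂) {p r : ℚ} (hp : φ₁ ⬝ᵥ v₂ = p) (hr : φ₂ ⬝ᵥ v₁ = r)
    (hp0 : p ≠ 0) (hpr : p * r ≤ 0 ∨ 4 < p * r) : C p * G₁ = C r * G₂ := by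
  set g : MvPolynomial ι ℚ := C p * lin φ₂ * Dv v₁ f - C r * lin φ₁ * Dv v₂ f with hg
  have hg' : g = lin φ₁ * (lin φ₂ * (C p * G₁ - C r * G₂)) := by
    rw [hg, h₁.der, h₂.der]; ring
  have t1 : TT (rf v₁ φ₁) g = -g := by
    rw [hg, map_sub, map_mul, map_mul, map_mul, map_mul, Dv_refl h₁.two h₁.inv,
      Dv_refl h₁.two h₁.inv, rf_mulVec_self h₁.two, TT_lin, TT_lin, vecMul_rf_self h₁.two,
      vecMul_rf, rf_mulVec, hr, hp, TT_C, TT_C, Dv_neg_vec, Dv_sub_vec, Dv_smul_vec, lin_sub,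
      lin_smul, lin_neg]
    ring
  have t2 : TT (rf v₂ φ₂) g = -g := by
    rw [hg, map_sub, map_mul, map_mul, map_mul, map_mul, Dv_refl h₂.two h₂.inv,
      Dv_refl h₂.two h₂.inv, rf_mulVec_self h₂.two, TT_lin, TT_lin, vecMul_rf_self h₂.two,
      vecMul_rf, rf_mulVec, hr, hp, TT_C, TT_C, Dv_neg_vec, Dv_sub_vec, Dv_smul_vec, lin_sub,
      lin_smul, lin_neg]
    ring
  -- the product of the two reflections
  set T : Matrix ι ι ℚ := rf v₁ φ₁ * rf v₂ φ₂ with hT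
  have hTg : ∀ x, eval (T *ᵥ x) g = eval x g := by
    intro x
    rw [← eval_TT, hT, ← TT_mul, t1, map_neg, t2, neg_neg]
  have hTk : ∀ k x, eval (T ^ k *ᵥ x) g = eval x g := by
    intro k x
    induction k with
    | zero => rw [pow_zero, Matrix.one_mulVec]
    | succ k ih => rw [pow_succ', ← Matrix.mulVec_mulVec, hTg, ih]
  have e1 : ∀ x, φ₁ ⬝ᵥ (T *ᵥ x) = - (φ₁ ⬝ᵥ x) + p * (φ₂ ⬝ᵥ x) := by
    intro x
    rw [hT, ← Matrix.mulVec_mulVec, rf_mulVec v₁, rf_mulVec v₂]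
    simp only [dotProduct_sub, dotProduct_smul, smul_eq_mul, hp, h₁.two]
    ring
  have e2 : ∀ x, φ₂ ⬝ᵥ (T *ᵥ x) = - r * (φ₁ ⬝ᵥ x) + (p * r - 1) * (φ₂ ⬝ᵥ x) := by
    intro x
    rw [hT, ← Matrix.mulVec_mulVec, rf_mulVec v₁, rf_mulVec v₂]
    simp only [dotProduct_sub, dotProduct_smul, smul_eq_mul, hp, hr, h₂.two]
    ring
  set τ : ℚ := p * r - 2 with hτ
  have hτ2 : 2 ≤ |τ| := by
    rcases hpr with h | h
    · rw [abs_of_nonpos (by linarith)]; linarith
    · rw [abs_of_nonneg (by linarith)]; linarith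
  have hrec : ∀ x k, φ₁ ⬝ᵥ (T ^ (k + 2) *ᵥ x) =
      τ * (φ₁ ⬝ᵥ (T ^ (k + 1) *ᵥ x)) - φ₁ ⬝ᵥ (T ^ k *ᵥ x) := by
    intro x k
    have h1 : T ^ (k + 2) *ᵥ x = T *ᵥ (T *ᵥ (T ^ k *ᵥ x)) := by
      rw [Matrix.mulVec_mulVec, Matrix.mulVec_mulVec, pow_succ', pow_succ', ← Matrix.mul_assoc]
    have h2 : T ^ (k + 1) *ᵥ x = T *ᵥ (T ^ k *ᵥ x) := by
      rw [Matrix.mulVec_mulVec, pow_succ']
    rw [h1, h2, e1, e1, e2, hτ]
    ring
  have hzero : ∀ x, φ₁ ⬝ᵥ x = 0 → eval x g = 0 := by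
    intro x hx
    rw [hg', map_mul, eval_lin, hx, zero_mul]
  have key : ∀ x, p * (2 * (φ₂ ⬝ᵥ x) - r * (φ₁ ⬝ᵥ x)) ≠ 0 → eval x g = 0 := by
    intro x hx
    set a : ℕ → ℚ := fun k => φ₁ ⬝ᵥ (T ^ k *ᵥ x) with ha
    set b : ℕ → ℚ := fun k => φ₁ ⬝ᵥ (T ^ k *ᵥ v₁) with hb
    have hb0 : b 0 = 2 := by simp only [hb, pow_zero, Matrix.one_mulVec, h₁.two]
    have hb1 : b 1 = τ := by
      simp only [hb, pow_one, e1, h₁.two, hr, hτ]
      ring
    have ha0 : a 0 = φ₁ ⬝ᵥ x := by simp only [ha, pow_zero, Matrix.one_mulVec]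
    have ha1 : a 1 = - (φ₁ ⬝ᵥ x) + p * (φ₂ ⬝ᵥ x) := by simp only [ha, pow_one, e1]
    have hW : a 1 * b 0 - a 0 * b 1 ≠ 0 := by
      rw [ha0, ha1, hb0, hb1, hτ]
      intro h
      apply hx
      linear_combination h
    obtain ⟨hbne, hinj⟩ := seq_inj hτ2 a b (hrec x) (hrec v₁) hb0 hb1 hW
    have hroot : ∀ k, (Ln x v₁ g).eval (-(a k / b k)) = 0 := by
      intro k
      rw [eval_Ln, ← hTk k]
      apply hzero
      rw [Matrix.mulVec_add, Matrix.mulVec_smul, dotProduct_add, dotProduct_smul, smul_eq_mul]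
      show a k + -(a k / b k) * b k = 0
      have := hbne k
      field_simp
      ring
    have hpoly : Ln x v₁ g = 0 := by
      apply Polynomial.eq_zero_of_infinite_isRoot
      refine Set.Infinite.mono (s := Set.range (fun k => -(a k / b k))) ?_ ?_
      · rintro _ ⟨k, rfl⟩
        exact hroot k
      · apply Set.infinite_range_of_injective
        intro k l hkl
        exact hinj (neg_injective hkl)
    have := eval_Ln x v₁ 0 g
    rw [hpoly, Polynomial.eval_zero, zero_smul, add_zero] at this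
    exact this.symm
  have hprod : g * lin ((2 : ℚ) • φ₂ - r • φ₁) = 0 := by
    apply ext_eval
    intro x
    rw [map_mul, map_zero, eval_lin, sub_dotProduct, smul_dotProduct, smul_dotProduct,
      smul_eq_mul, smul_eq_mul]
    by_cases h : p * (2 * (φ₂ ⬝ᵥ x) - r * (φ₁ ⬝ᵥ x)) = 0
    · rw [(mul_eq_zero.mp h).resolve_left hp0, mul_zero]
    · rw [key x h, zero_mul]
  have hl : lin ((2 : ℚ) • φ₂ - r • φ₁) ≠ 0 := by
    apply lin_ne_zero (v := v₂)
    rw [sub_dotProduct, smul_dotProduct, smul_dotProduct, h₂.two, hp, smul_eq_mul, smul_eq_mul]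
    intro h
    rcases hpr with h' | h' <;> linarith
  have hg0 : g = 0 := (mul_eq_zero.mp hprod).resolve_right hl
  rw [hg'] at hg0
  have l1 : lin φ₁ ≠ 0 := lin_ne_zero (v := v₁) (by rw [h₁.two]; norm_num)
  have l2 : lin φ₂ ≠ 0 := lin_ne_zero (v := v₂) (by rw [h₂.two]; norm_num)
  have := (mul_eq_zero.mp ((mul_eq_zero.mp hg0).resolve_left l1)).resolve_left l2
  exact sub_eq_zero.mp this

end Pool.Agent.TH541.KM
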