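import Pool.Agent.TH541.KM.Inv1

set_option autoImplicit false

/-! # Invariants of the Weyl group of an indefinite generalized Cartan matrix, I -/

namespace Pool.Agent.TH541.KM

open MvPolynomial Matrix

set_option linter.unusedSectionVars false

/-! ### Integer sequences -/

theorem int_grow {τ : ℤ} (hτ : 3 ≤ |τ|) (x : ℕ → ℤ) (hx : ∀ k, x (k + 2) = τ * x (k + 1) - x k)
    (h0 : x 0 ≠ 0) : ∃ K, ∀ k, K ≤ k → 5 ≤ |x k| := by
  have hbound : ∀ k, 3 * |x (k + 1)| - |x k| ≤ |x (k + 2)| := by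
    intro k
    rw [hx k]
    have h1 : |τ * x (k + 1)| - |x k| ≤ |τ * x (k + 1) - x k| := abs_sub_abs_le_abs_sub _ _
    rw [abs_mul] at h1
    nlinarith [mul_le_mul_of_nonneg_right hτ (abs_nonneg (x (k + 1)))]
  have step1 : ∃ k, |x k| < |x (k + 1)| := by
    by_contra hcon
    push Not at hcon
    have hne : ∀ k, x k ≠ 0 := by
      intro k
      induction k with
      | zero => exact h0
      | succ k ih =>
        intro h
        have h1 := hcon (k + 1)
        rw [hx k, h, mul_zero, zero_sub, abs_neg, abs_zero] at h1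
        exact ih (abs_nonpos_iff.mp h1)
    have hdec : ∀ k : ℕ, |x k| ≤ |x 0| - k := by
      intro k
      induction k with
      | zero => simp
      | succ k ih =>
        have h1 := hcon (k + 1)
        have h2 := hbound k
        have h3 : 0 < |x (k + 1)| := abs_pos.mpr (hne (k + 1))
        push_cast
        linarith
    have h1 := hdec (|x 0|.toNat + 1)
    have h2 : ((|x 0|.toNat : ℕ) : ℤ) = |x 0| := Int.toNat_of_nonneg (abs_nonneg _)
    push_cast at h1
    rw [h2] at h1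
    have := abs_nonneg (x (|x 0|.toNat + 1))
    linarith
  obtain ⟨k₀, hk₀⟩ := step1
  have step2 : ∀ j : ℕ, |x (k₀ + j)| < |x (k₀ + j + 1)| := by
    intro j
    induction j with
    | zero => exact hk₀
    | succ j ih =>
      have h1 := hbound (k₀ + j)
      have h2 : k₀ + j + 2 = k₀ + (j + 1) + 1 := by ring
      have h3 : k₀ + j + 1 = k₀ + (j + 1) := by ring
      rw [h2] at h1
      rw [h3] at h1 ih
      have := abs_nonneg (x (k₀ + j))
      linarith
  have step3 : ∀ j : ℕ, (j : ℤ) ≤ |x (k₀ + j)| := by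
    intro j
    induction j with
    | zero => simp
    | succ j ih =>
      have := step2 j
      rw [add_assoc] at this
      push_cast
      linarith
  refine ⟨k₀ + 5, fun k hk => ?_⟩
  obtain ⟨j, rfl⟩ : ∃ j, k = k₀ + j := ⟨k - k₀, by omega⟩
  have := step3 j
  have h5 : (5 : ℤ) ≤ j := by exact_mod_cast (by omega : 5 ≤ j)
  linarith

/-! ### Integral reflection data -/

section

variable {n c : ℕ}

/-- The simple coroot. -/
def ee (n c : ℕ) (j : Fin n) : Fin n ⊕ Fin c → ℚ := Pi.single (Sum.inl j) 1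

theorem srefl_eq (A : Matrix (Fin n) (Fin n) ℤ) (B : Matrix (Fin c) (Fin n) ℚ) (j : Fin n) :
    srefl A B j = rf (ee n c j) (root A B j) := rfl

theorem dot_ee (φ : Fin n ⊕ Fin c → ℚ) (j : Fin n) : φ ⬝ᵥ ee n c j = φ (Sum.inl j) := by
  rw [ee, dotProduct_single, mul_one]

theorem root_inl (A : Matrix (Fin n) (Fin n) ℤ) (B : Matrix (Fin c) (Fin n) ℚ) (i j : Fin n) :
    root A B j (Sum.inl i) = A i j := rfl

/-- Integral reflection data. -/
structure IRD (f : PP n c) (v φ : Fin n ⊕ Fin c → ℚ) (G : PP n c) : Prop extends RD f v φ G where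
  vint : ∀ i, ∃ m : ℤ, v (Sum.inl i) = m
  vzero : ∀ k, v (Sum.inr k) = 0
  fint : ∀ i, ∃ m : ℤ, φ (Sum.inl i) = m

theorem dot_eq_sum {v : Fin n ⊕ Fin c → ℚ} (φ : Fin n ⊕ Fin c → ℚ)
    (h : ∀ k, v (Sum.inr k) = 0) : φ ⬝ᵥ v = ∑ i, φ (Sum.inl i) * v (Sum.inl i) := by
  rw [dotProduct, Fintype.sum_sum_type]
  simp [h]

theorem dot_int {v φ : Fin n ⊕ Fin c → ℚ} (h1 : ∀ i, ∃ m : ℤ, v (Sum.inl i) = m)
    (h2 : ∀ k, v (Sum.inr k) = 0) (h3 : ∀ i, ∃ m : ℤ, φ (Sum.inl i) = m) :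
    ∃ m : ℤ, φ ⬝ᵥ v = m := by
  choose a ha using h1
  choose b hb using h3
  refine ⟨∑ i, b i * a i, ?_⟩
  rw [dot_eq_sum φ h2]
  push_cast
  exact Finset.sum_congr rfl fun i _ => by rw [ha, hb]

theorem IRD.conj {f : PP n c} {v φ w ψ : Fin n ⊕ Fin c → ℚ} {G H : PP n c}
    (h : IRD f v φ G) (h' : IRD f w ψ H) :
    IRD f (rf w ψ *ᵥ v) (φ ᵥ* rf w ψ) (TT (rf w ψ) G) := by
  obtain ⟨a, ha⟩ := dot_int h.vint h.vzero h'.fint
  obtain ⟨b, hb⟩ := dot_int h'.vint h'.vzero h.fint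
  refine ⟨h.toRD.conj h'.toRD, ?_, ?_, ?_⟩
  · intro i
    obtain ⟨m, hm⟩ := h.vint i
    obtain ⟨k, hk⟩ := h'.vint i
    refine ⟨m - a * k, ?_⟩
    rw [rf_mulVec, Pi.sub_apply, Pi.smul_apply, smul_eq_mul, ha, hm, hk]
    push_cast
    ring
  · intro k
    rw [rf_mulVec, Pi.sub_apply, Pi.smul_apply, h.vzero, h'.vzero, smul_zero, sub_zero]
  · intro i
    obtain ⟨m, hm⟩ := h.fint i
    obtain ⟨k, hk⟩ := h'.fint i
    refine ⟨m - b * k, ?_⟩
    rw [vecMul_rf, Pi.sub_apply, Pi.smul_apply, smul_eq_mul, hb, hm, hk]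
    push_cast
    ring

/-- All data about an invariant polynomial. -/
structure Ctx (A : Matrix (Fin n) (Fin n) ℤ) (B : Matrix (Fin c) (Fin n) ℚ) (f : PP n c)
    (g : Fin n → PP n c) : Prop where
  gcm : IsGCM A
  rd : ∀ j, RD f (ee n c j) (root A B j) (g j)

variable {A : Matrix (Fin n) (Fin n) ℤ} {B : Matrix (Fin c) (Fin n) ℚ} {f : PP n c}
  {g : Fin n → PP n c}

theorem Ctx.ird (h : Ctx A B f g) (j : Fin n) : IRD f (ee n c j) (root A B j) (g j) := by
  refine ⟨h.rd j, ?_, ?_, ?_⟩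
  · intro i
    by_cases hij : i = j
    · subst hij
      exact ⟨1, by simp [ee]⟩
    · refine ⟨0, ?_⟩
      rw [ee, Pi.single_eq_of_ne (by simpa using hij)]
      simp
  · intro k
    rw [ee, Pi.single_eq_of_ne (by simp)]
  · intro i
    exact ⟨A i j, rfl⟩

/-- Existence of reflection data of large height. -/
theorem Ctx.exists_height (h : Ctx A B f g) (hn : 0 < n) {u : Fin n → ℝ} (hu : ∀ i, 0 < u i)
    (hAu : ∀ i, ∑ j, (A i j : ℝ) * u j < 0) (H : ℕ) :
    ∃ v φ G, IRD f v φ G ∧ (∀ i, 0 ≤ v (Sum.inl i)) ∧ ((H : ℚ) + 1 ≤ ∑ i, v (Sum.inl i)) := by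
  induction H with
  | zero =>
    refine ⟨_, _, _, h.ird ⟨0, hn⟩, ?_, ?_⟩
    · intro i
      rw [ee]
      by_cases hi : (Sum.inl i : Fin n ⊕ Fin c) = Sum.inl ⟨0, hn⟩
      · rw [hi, Pi.single_eq_same]; norm_num
      · rw [Pi.single_eq_of_ne hi]
    · have : ∑ i, ee n c ⟨0, hn⟩ (Sum.inl i) = 1 := by
        rw [Finset.sum_eq_single ⟨0, hn⟩]
        · simp [ee]
        · intro b _ hb
          rw [ee, Pi.single_eq_of_ne (by simpa using hb)]
        · intro hh; exact absurd (Finset.mem_univ _) hh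
      rw [this]
      simp
  | succ H ih =>
    obtain ⟨v, φ, G, hv, hpos, hH⟩ := ih
    have hex : ∃ j, root A B j ⬝ᵥ v < 0 := by
      by_contra hcon
      push Not at hcon
      have h1 : ∑ j, u j * ((root A B j ⬝ᵥ v : ℚ) : ℝ) =
          ∑ i, (v (Sum.inl i) : ℝ) * ∑ j, (A i j : ℝ) * u j := by
        simp only [dot_eq_sum _ hv.vzero, root_inl]
        push_cast
        simp only [Finset.mul_sum]
        rw [Finset.sum_comm]
        refine Finset.sum_congr rfl fun i _ => Finset.sum_congr rfl fun j _ => by ring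
      have h2 : 0 ≤ ∑ j, u j * ((root A B j ⬝ᵥ v : ℚ) : ℝ) :=
        Finset.sum_nonneg fun j _ => mul_nonneg (hu j).le (by exact_mod_cast hcon j)
      have h3 : ∑ i, (v (Sum.inl i) : ℝ) * ∑ j, (A i j : ℝ) * u j < 0 := by
        have hsum : (0 : ℚ) < ∑ i, v (Sum.inl i) := by
          have : (0 : ℚ) ≤ H := Nat.cast_nonneg H
          linarith
        obtain ⟨i, _, hi⟩ := Finset.exists_lt_of_sum_lt
          (s := Finset.univ) (f := fun _ : Fin n => (0 : ℚ)) (g := fun i => v (Sum.inl i))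
          (by simpa using hsum)
        refine Finset.sum_neg' (fun j _ => ?_) ⟨i, Finset.mem_univ i, ?_⟩
        · exact mul_nonpos_of_nonneg_of_nonpos (by exact_mod_cast hpos j) (hAu j).le
        · exact mul_neg_of_pos_of_neg (by exact_mod_cast hi) (hAu i)
      linarith
    obtain ⟨j, hj⟩ := hex
    obtain ⟨m, hm⟩ := dot_int hv.vint hv.vzero (h.ird j).fint
    have hm1 : m ≤ -1 := by
      have : (m : ℚ) < 0 := by rw [← hm]; exact hj
      have : m < 0 := by exact_mod_cast this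
      omega
    have hcoord : ∀ i, (rf (ee n c j) (root A B j) *ᵥ v) (Sum.inl i) =
        v (Sum.inl i) + if i = j then -(m : ℚ) else 0 := by
      intro i
      rw [rf_mulVec, hm, Pi.sub_apply, Pi.smul_apply, smul_eq_mul, ee]
      by_cases hij : i = j
      · subst hij
        rw [Pi.single_eq_same, if_pos rfl]; ring
      · rw [Pi.single_eq_of_ne (by simpa using hij), if_neg hij]; ring
    have hm1' : (m : ℚ) ≤ -1 := by exact_mod_cast hm1
    refine ⟨_, _, _, hv.conj (h.ird j), ?_, ?_⟩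
    · intro i
      rw [hcoord]
      have := hpos i
      split_ifs <;> linarith
    · simp only [hcoord]
      rw [Finset.sum_add_distrib, Finset.sum_ite_eq' Finset.univ j, if_pos (Finset.mem_univ j)]
      push_cast
      linarith

/-- `j` has a hyperbolic partner. -/
def Hyp (A : Matrix (Fin n) (Fin n) ℤ) (B : Matrix (Fin c) (Fin n) ℚ) (f : PP n c)
    (j : Fin n) : Prop :=
  ∃ v φ G, IRD f v φ G ∧ ((root A B j ⬝ᵥ v) * (φ ⬝ᵥ ee n c j) < 0 ∨
    5 ≤ (root A B j ⬝ᵥ v) * (φ ⬝ᵥ ee n c j))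

theorem Ctx.exists_hyp (h : Ctx A B f g) (hn : 0 < n) (hindef : IsIndefinite A)
    (hg : ∀ j, g j ≠ 0) : ∃ j, Hyp A B f j := by
  obtain ⟨u, hu, hAu⟩ := hindef
  have : Nonempty (Fin n) := ⟨⟨0, hn⟩⟩
  obtain ⟨i₀, hi₀⟩ := Finite.exists_max (fun i => ∑ j, (A i j : ℝ) * u j)
  set ε : ℝ := - ∑ j, (A i₀ j : ℝ) * u j with hε
  have hεpos : 0 < ε := by rw [hε]; linarith [hAu i₀]
  obtain ⟨H, hH⟩ := exists_nat_gt (5 * (∑ j, u j) / ε)
  obtain ⟨v, φ, G, hv, hpos, hH2⟩ := h.exists_height hn hu hAu H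
  have hex : ∃ j, root A B j ⬝ᵥ v ≤ -5 := by
    by_contra hcon
    push Not at hcon
    have h1 : ∑ j, u j * ((root A B j ⬝ᵥ v : ℚ) : ℝ) =
        ∑ i, (v (Sum.inl i) : ℝ) * ∑ j, (A i j : ℝ) * u j := by
      simp only [dot_eq_sum _ hv.vzero, root_inl]
      push_cast
      simp only [Finset.mul_sum]
      rw [Finset.sum_comm]
      refine Finset.sum_congr rfl fun i _ => Finset.sum_congr rfl fun j _ => by ring
    have h2 : -5 * ∑ j, u j ≤ ∑ j, u j * ((root A B j ⬝ᵥ v : ℚ) : ℝ) := by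
      rw [Finset.mul_sum]
      refine Finset.sum_le_sum fun j _ => ?_
      have h3 : (-5 : ℝ) ≤ ((root A B j ⬝ᵥ v : ℚ) : ℝ) := by exact_mod_cast (hcon j).le
      nlinarith [hu j]
    have h3 : ∑ i, (v (Sum.inl i) : ℝ) * ∑ j, (A i j : ℝ) * u j ≤
        -ε * ∑ i, (v (Sum.inl i) : ℝ) := by
      rw [Finset.mul_sum]
      refine Finset.sum_le_sum fun i _ => ?_
      have h4 := hi₀ i
      have h5 : (0 : ℝ) ≤ (v (Sum.inl i) : ℝ) := by exact_mod_cast hpos i
      have h6 : ∑ j, (A i j : ℝ) * u j ≤ -ε := by rw [hε, neg_neg]; exact h4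
      nlinarith
    have h7 : (H : ℝ) + 1 ≤ ∑ i, (v (Sum.inl i) : ℝ) := by exact_mod_cast hH2
    rw [div_lt_iff₀ hεpos] at hH
    nlinarith
  obtain ⟨j, hj⟩ := hex
  obtain ⟨r, hr⟩ := hv.fint j
  have hp0 : root A B j ⬝ᵥ v ≠ 0 := by intro h0; rw [h0] at hj; norm_num at hj
  have hr' : φ ⬝ᵥ ee n c j = r := by rw [dot_ee, hr]
  by_cases hr0 : r = 0
  · exfalso
    have h1 := two_reflections (h.rd j) hv.toRD rfl hr' hp0
      (Or.inl (by rw [hr0]; simp))
    rw [hr0, Int.cast_zero, C_0, zero_mul] at h1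
    rcases mul_eq_zero.mp h1 with h2 | h2
    · exact hp0 (by simpa using h2)
    · exact hg j h2
  · refine ⟨j, v, φ, G, hv, ?_⟩
    rw [hr']
    rcases lt_or_gt_of_ne hr0 with h0 | h0
    · right
      have : (r : ℚ) ≤ -1 := by exact_mod_cast (by omega : r ≤ -1)
      nlinarith
    · left
      have : (1 : ℚ) ≤ r := by exact_mod_cast (by omega : 1 ≤ r)
      nlinarith

theorem Ctx.propagate (h : Ctx A B f g) {l j : Fin n} (hl : Hyp A B f l) (hlj : A l j ≠ 0) :
    Hyp A B f j ∧ ∃ a b : ℚ, a ≠ 0 ∧ b ≠ 0 ∧ C a * g j = C b * g l := by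
  obtain ⟨v, φ, G, hv, hpr⟩ := hl
  have hjl : A j l ≠ 0 := fun h0 => hlj ((h.gcm.zero_iff l j).mpr h0)
  obtain ⟨p, hp⟩ := dot_int hv.vint hv.vzero (h.ird l).fint
  obtain ⟨r, hr⟩ := dot_int (h.ird l).vint (h.ird l).vzero hv.fint
  rw [hp, hr] at hpr
  have hpr' : p * r < 0 ∨ 5 ≤ p * r := by
    rcases hpr with h1 | h1
    · left; exact_mod_cast h1
    · right; exact_mod_cast h1
  have hp0 : p ≠ 0 := by rintro rfl; simp at hpr'
  have hr0 : r ≠ 0 := by rintro rfl; simp at hpr'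
  have hp0' : (p : ℚ) ≠ 0 := by exact_mod_cast hp0
  have hr0' : (r : ℚ) ≠ 0 := by exact_mod_cast hr0
  have hrel : C (p : ℚ) * g l = C (r : ℚ) * G :=
    two_reflections (h.rd l) hv.toRD hp hr hp0'
      (by
        rcases hpr' with h1 | h1
        · left; exact_mod_cast h1.le
        · right
          have : (5 : ℚ) ≤ p * r := by exact_mod_cast h1
          linarith)
  -- `g l` is invariant under both reflections
  have hinv1 : TT (rf (ee n c l) (root A B l)) (g l) = g l := (h.rd l).inv_G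
  have hinv2 : TT (rf v φ) (g l) = g l := by
    have h1 : C (p : ℚ) * TT (rf v φ) (g l) = C (p : ℚ) * g l := by
      have h2 := congrArg (TT (rf v φ)) hrel
      rw [map_mul, map_mul, TT_C, TT_C, hv.toRD.inv_G] at h2
      rw [h2, hrel]
    exact mul_left_cancel₀ (by simpa using hp0) h1
  set s₁ := rf (ee n c l) (root A B l) with hs₁
  set s₂ := rf v φ with hs₂
  set V : ℕ → (Fin n ⊕ Fin c → ℚ) := fun k => (s₁ * s₂) ^ k *ᵥ ee n c l with hV
  set Φ : ℕ → (Fin n ⊕ Fin c → ℚ) := fun k => root A B l ᵥ* (s₂ * s₁) ^ k with hΦ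
  have hVs : ∀ k, V (k + 1) = s₁ *ᵥ (s₂ *ᵥ V k) := by
    intro k
    simp only [hV]
    rw [Matrix.mulVec_mulVec, Matrix.mulVec_mulVec, pow_succ', Matrix.mul_assoc]
  have hΦs : ∀ k, Φ (k + 1) = (Φ k ᵥ* s₂) ᵥ* s₁ := by
    intro k
    simp only [hΦ]
    rw [Matrix.vecMul_vecMul, Matrix.vecMul_vecMul, pow_succ]
  have hIRD : ∀ k, IRD f (V k) (Φ k) (g l) := by
    intro k
    induction k with
    | zero =>
      simp only [hV, hΦ, pow_zero, Matrix.one_mulVec, Matrix.vecMul_one]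
      exact h.ird l
    | succ k ih =>
      rw [hVs, hΦs]
      have h1 := (ih.conj hv).conj (h.ird l)
      rw [← hs₁, ← hs₂, hinv2, hinv1] at h1
      exact h1
  set τ : ℤ := p * r - 2 with hτ
  have hτ3 : 3 ≤ |τ| := by
    rcases hpr' with h1 | h1
    · rw [abs_of_neg (by omega)]; omega
    · rw [abs_of_nonneg (by omega)]; omega
  have hll : root A B l ⬝ᵥ ee n c l = 2 := (h.rd l).two
  have hvv : φ ⬝ᵥ v = 2 := hv.two
  -- recursions
  have hVrec : ∀ k, V (k + 2) = (τ : ℚ) • V (k + 1) - V k := by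
    have h0 : (s₁ * s₂) *ᵥ ((s₁ * s₂) *ᵥ ee n c l) =
        (τ : ℚ) • ((s₁ * s₂) *ᵥ ee n c l) - ee n c l := by
      have e1 : (s₁ * s₂) *ᵥ ee n c l = ((p : ℚ) * r - 1) • ee n c l - (r : ℚ) • v := by
        rw [← Matrix.mulVec_mulVec, hs₂, rf_mulVec v φ, hr, Matrix.mulVec_sub, Matrix.mulVec_smul,
          hs₁, rf_mulVec_self hll, rf_mulVec, hp]
        ext i
        simp only [Pi.sub_apply, Pi.neg_apply, Pi.smul_apply, smul_eq_mul]
        ring
      have e2 : (s₁ * s₂) *ᵥ v = -v + (p : ℚ) • ee n c l := by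
        rw [← Matrix.mulVec_mulVec, hs₂, rf_mulVec_self hvv, Matrix.mulVec_neg, hs₁, rf_mulVec, hp]
        ext i
        simp only [Pi.sub_apply, Pi.neg_apply, Pi.smul_apply, Pi.add_apply, smul_eq_mul]
        ring
      rw [e1, Matrix.mulVec_sub, Matrix.mulVec_smul, Matrix.mulVec_smul, e1, e2, hτ]
      ext i
      simp only [Pi.sub_apply, Pi.neg_apply, Pi.smul_apply, Pi.add_apply, smul_eq_mul]
      push_cast
      ring
    intro k
    have e3 : V (k + 2) = (s₁ * s₂) ^ k *ᵥ ((s₁ * s₂) *ᵥ ((s₁ * s₂) *ᵥ ee n c l)) := by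
      simp only [hV]
      rw [Matrix.mulVec_mulVec, Matrix.mulVec_mulVec, pow_succ, pow_succ, Matrix.mul_assoc]
    have e4 : V (k + 1) = (s₁ * s₂) ^ k *ᵥ ((s₁ * s₂) *ᵥ ee n c l) := by
      simp only [hV]
      rw [Matrix.mulVec_mulVec, pow_succ]
    rw [e3, h0, e4, Matrix.mulVec_sub, Matrix.mulVec_smul]
  have hΦrec : ∀ k, Φ (k + 2) = (τ : ℚ) • Φ (k + 1) - Φ k := by
    have h0 : (root A B l ᵥ* (s₂ * s₁)) ᵥ* (s₂ * s₁) =
        (τ : ℚ) • (root A B l ᵥ* (s₂ * s₁)) - root A B l := by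
      have e1 : root A B l ᵥ* (s₂ * s₁) = ((p : ℚ) * r - 1) • root A B l - (p : ℚ) • φ := by
        rw [← Matrix.vecMul_vecMul, hs₂, vecMul_rf v φ, hp, Matrix.sub_vecMul, Matrix.smul_vecMul,
          hs₁, vecMul_rf_self hll, vecMul_rf, hr]
        ext i
        simp only [Pi.sub_apply, Pi.neg_apply, Pi.smul_apply, smul_eq_mul]
        ring
      have e2 : φ ᵥ* (s₂ * s₁) = -φ + (r : ℚ) • root A B l := by
        rw [← Matrix.vecMul_vecMul, hs₂, vecMul_rf_self hvv, Matrix.neg_vecMul, hs₁, vecMul_rf, hr]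
        ext i
        simp only [Pi.sub_apply, Pi.neg_apply, Pi.smul_apply, Pi.add_apply, smul_eq_mul]
        ring
      rw [e1, Matrix.sub_vecMul, Matrix.smul_vecMul, Matrix.smul_vecMul, e1, e2, hτ]
      ext i
      simp only [Pi.sub_apply, Pi.neg_apply, Pi.smul_apply, Pi.add_apply, smul_eq_mul]
      push_cast
      ring
    intro k
    have e3 : Φ (k + 2) = ((root A B l ᵥ* (s₂ * s₁)) ᵥ* (s₂ * s₁)) ᵥ* (s₂ * s₁) ^ k := by
      simp only [hΦ]
      rw [Matrix.vecMul_vecMul, Matrix.vecMul_vecMul, pow_succ', pow_succ', Matrix.mul_assoc]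
    have e4 : Φ (k + 1) = (root A B l ᵥ* (s₂ * s₁)) ᵥ* (s₂ * s₁) ^ k := by
      simp only [hΦ]
      rw [Matrix.vecMul_vecMul, pow_succ']
    rw [e3, h0, e4, Matrix.sub_vecMul, Matrix.smul_vecMul]
  have hu : ∀ k, ∃ m : ℤ, root A B j ⬝ᵥ V k = m := fun k =>
    dot_int (hIRD k).vint (hIRD k).vzero (h.ird j).fint
  have hw : ∀ k, ∃ m : ℤ, Φ k ⬝ᵥ ee n c j = m := fun k =>
    dot_int (h.ird j).vint (h.ird j).vzero (hIRD k).fint
  choose x hx using hu
  choose y hy using hw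
  have hxrec : ∀ k, x (k + 2) = τ * x (k + 1) - x k := by
    intro k
    have : ((x (k + 2) : ℤ) : ℚ) = ((τ * x (k + 1) - x k : ℤ) : ℚ) := by
      push_cast
      rw [← hx, ← hx, ← hx, hVrec, dotProduct_sub, dotProduct_smul, smul_eq_mul]
    exact_mod_cast this
  have hyrec : ∀ k, y (k + 2) = τ * y (k + 1) - y k := by
    intro k
    have : ((y (k + 2) : ℤ) : ℚ) = ((τ * y (k + 1) - y k : ℤ) : ℚ) := by
      push_cast
      rw [← hy, ← hy, ← hy, hΦrec, sub_dotProduct, smul_dotProduct, smul_eq_mul]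
    exact_mod_cast this
  have hx0 : x 0 ≠ 0 := by
    intro h0
    have h1 := hx 0
    rw [h0] at h1
    simp only [hV, pow_zero, Matrix.one_mulVec, dot_ee, root_inl] at h1
    exact hlj (by exact_mod_cast h1)
  have hy0 : y 0 ≠ 0 := by
    intro h0
    have h1 := hy 0
    rw [h0] at h1
    simp only [hΦ, pow_zero, Matrix.vecMul_one, dot_ee, root_inl] at h1
    exact hjl (by exact_mod_cast h1)
  obtain ⟨K₁, hK₁⟩ := int_grow hτ3 x hxrec hx0
  obtain ⟨K₂, hK₂⟩ := int_grow hτ3 y hyrec hy0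
  set k := max K₁ K₂ with hk
  have h5x := hK₁ k (le_max_left _ _)
  have h5y := hK₂ k (le_max_right _ _)
  have hxk : x k ≠ 0 := by intro h0; rw [h0] at h5x; simp at h5x
  have hyk : y k ≠ 0 := by intro h0; rw [h0] at h5y; simp at h5y
  have hprod : x k * y k < 0 ∨ 5 ≤ x k * y k := by
    have h25 : 25 ≤ |x k * y k| := by
      rw [abs_mul]; nlinarith
    rcases le_abs.mp h25 with h1 | h1
    · right; omega
    · left; omega
  have hprodQ : ((x k : ℚ) * y k < 0) ∨ (5 ≤ (x k : ℚ) * y k) := by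
    rcases hprod with h1 | h1
    · left; exact_mod_cast h1
    · right; exact_mod_cast h1
  refine ⟨⟨V k, Φ k, g l, hIRD k, ?_⟩, x k, y k, by exact_mod_cast hxk, by exact_mod_cast hyk, ?_⟩
  · rw [hx, hy]; exact hprodQ
  · refine two_reflections (h.rd j) (hIRD k).toRD (hx k) (hy k) (by exact_mod_cast hxk) ?_
    rcases hprodQ with h1 | h1
    · left; exact h1.le
    · right; linarith

end

end Pool.Agent.TH541.KM
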