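import Pool.Agent.TH541.KM.Inv2

set_option autoImplicit false

/-! # Invariants of the Weyl group of an indefinite generalized Cartan matrix, II

The invariant ring is generated by the linear forms that vanish on the coroots and at most one
quadratic form (Moody). -/

namespace Pool.Agent.TH541.KM

open MvPolynomial Matrix

set_option linter.unusedSectionVars false

section

variable {n c : ℕ} {A : Matrix (Fin n) (Fin n) ℤ} {B : Matrix (Fin c) (Fin n) ℚ}

theorem mem_invs_iff {I : Finset (Fin n)} {p : PP n c} :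
    p ∈ invs A B I ↔ ∀ j ∈ I, TT (srefl A B j) p = p := by
  constructor
  · intro h j hj
    exact h _ (Submonoid.subset_closure ⟨j, hj, rfl⟩)
  · intro h g hg
    unfold weyl at hg
    induction hg using Submonoid.closure_induction with
    | mem x hx =>
      obtain ⟨j, hj, rfl⟩ := hx
      exact h j hj
    | one => exact TT_one p
    | mul x y _ _ hx hy => rw [← TT_mul, hx, hy]

theorem indec_induct (hA : IsIndecomposable A) (Q : Fin n → Prop) (i₀ : Fin n) (h0 : Q i₀)
    (hs : ∀ i j, Q i → A i j ≠ 0 → Q j) : ∀ j, Q j := by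
  classical
  by_contra hcon
  push Not at hcon
  obtain ⟨j, hj⟩ := hcon
  obtain ⟨i, hi, k, hk, hik⟩ := hA (Finset.univ.filter Q) ⟨i₀, by simp [h0]⟩ ⟨j, by simp [hj]⟩
  simp only [Finset.mem_filter, Finset.mem_univ, true_and, Finset.mem_compl] at hi hk
  exact hk (hs i k hi hik)

variable {f : PP n c} {g : Fin n → PP n c}

theorem root_dot_ee (l j : Fin n) : root A B j ⬝ᵥ ee n c l = (A l j : ℚ) := by
  rw [dot_ee, root_inl]

theorem Ctx.lin_ne (h : Ctx A B f g) (j : Fin n) : lin (root A B j) ≠ 0 :=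
  lin_ne_zero (v := ee n c j) (by rw [(h.rd j).two]; norm_num)

theorem Ctx.zero_prop (h : Ctx A B f g) {l j : Fin n} (hl : g l = 0) (hlj : A l j ≠ 0) :
    g j = 0 := by
  have h1 : Dv (ee n c l) f = 0 := by rw [(h.rd l).der, hl, mul_zero]
  have h2 : Dv (rf (ee n c j) (root A B j) *ᵥ ee n c l) f = 0 := by
    rw [← Dv_refl (h.rd j).two (h.rd j).inv, h1, map_zero]
  rw [rf_mulVec, root_dot_ee, Dv_sub_vec, Dv_smul_vec, h1, zero_sub, neg_eq_zero,
    (h.rd j).der] at h2
  rcases mul_eq_zero.mp h2 with h3 | h3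
  · exfalso
    apply hlj
    have : (A l j : ℚ) = 0 := by simpa using h3
    exact_mod_cast this
  · exact (mul_eq_zero.mp h3).resolve_left (h.lin_ne j)

theorem Ctx.relation (h : Ctx A B f g) {l j : Fin n}
    (hinv : TT (rf (ee n c j) (root A B j)) (g l) = g l) :
    C (A l j : ℚ) * g j = C (A j l : ℚ) * g l := by
  have h1 := ((h.rd l).conj (h.rd j)).der
  rw [hinv, rf_mulVec, vecMul_rf, root_dot_ee, root_dot_ee, Dv_sub_vec, Dv_smul_vec, lin_sub,
    lin_smul, (h.rd l).der, (h.rd j).der] at h1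
  have h2 : lin (root A B j) * (C (A l j : ℚ) * g j - C (A j l : ℚ) * g l) = 0 := by
    linear_combination -h1
  exact sub_eq_zero.mp ((mul_eq_zero.mp h2).resolve_left (h.lin_ne j))

/-- All the quotients `g i` are invariant. -/
theorem Ctx.inv_all (h : Ctx A B f g) (hn : 0 < n) (hind : IsIndecomposable A)
    (hindef : IsIndefinite A) (i j : Fin n) :
    TT (rf (ee n c j) (root A B j)) (g i) = g i := by
  by_cases hz : ∃ l, g l = 0
  · obtain ⟨l, hl⟩ := hz
    have hall : ∀ i, g i = 0 := indec_induct hind (fun i => g i = 0) l hl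
      (fun i j hi hij => h.zero_prop hi hij)
    rw [hall i, map_zero]
  · push Not at hz
    obtain ⟨l, hl⟩ := h.exists_hyp hn hindef hz
    have hall : ∀ i, Hyp A B f i ∧ ∃ a b : ℚ, a ≠ 0 ∧ b ≠ 0 ∧ C a * g i = C b * g l := by
      apply indec_induct hind (fun i => Hyp A B f i ∧
        ∃ a b : ℚ, a ≠ 0 ∧ b ≠ 0 ∧ C a * g i = C b * g l) l ⟨hl, 1, 1, one_ne_zero, one_ne_zero, rfl⟩
      rintro i j ⟨hi, a, b, ha, hb, hab⟩ hij
      obtain ⟨hj, a', b', ha', hb', hab'⟩ := h.propagate hi hij
      refine ⟨hj, a * a', b * b', mul_ne_zero ha ha', mul_ne_zero hb hb', ?_⟩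
      rw [C_mul, C_mul]
      linear_combination C a * hab' + C b' * hab
    -- `g i` is a multiple of `g j`
    obtain ⟨_, a, b, ha, hb, hab⟩ := hall i
    obtain ⟨_, a', b', ha', hb', hab'⟩ := hall j
    have hrel : C (a * b') * g i = C (b * a') * g j := by
      rw [C_mul, C_mul]
      linear_combination C b' * hab - C b * hab'
    have hne : (C (a * b') : PP n c) ≠ 0 := by
      intro h0
      have : a * b' = 0 := by simpa using h0
      exact mul_ne_zero ha hb' this
    apply mul_left_cancel₀ hne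
    have h3 := congrArg (TT (rf (ee n c j) (root A B j))) hrel
    rw [map_mul (TT _), map_mul (TT _), TT_C, TT_C, (h.rd j).inv_G] at h3
    rw [h3, hrel]

/-! ### Polynomials killed by the derivatives in the directions of the coroots -/

theorem Dv_lin {ι : Type*} [Fintype ι] [DecidableEq ι] (v φ : ι → ℚ) :
    Dv v (lin φ) = C (φ ⬝ᵥ v) := by
  rw [lin, map_sum, dotProduct, map_sum]
  refine Finset.sum_congr rfl fun i _ => ?_
  rw [Dv_mul, Dv_C, Dv_X, mul_zero, add_zero, ← C_mul]

theorem Dv_sum_vec {ι κ : Type*} [Fintype ι] [DecidableEq ι] (s : Finset κ) (v : κ → ι → ℚ)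
    (p : MvPolynomial ι ℚ) : Dv (∑ k ∈ s, v k) p = ∑ k ∈ s, Dv (v k) p := by
  classical
  induction s using Finset.induction_on with
  | empty =>
    rw [Finset.sum_empty, Finset.sum_empty]
    have := Dv_smul_vec 0 (0 : ι → ℚ) p
    rwa [zero_smul, C_0, zero_mul] at this
  | insert k s hk ih => rw [Finset.sum_insert hk, Finset.sum_insert hk, Dv_add_vec, ih]

theorem eq_rename_of_killed {F : PP n c} (h : ∀ i, Dv (ee n c i) F = 0) :
    ∃ y : MvPolynomial (Fin c) ℚ, F = rename Sum.inr y := by
  refine ⟨aeval (Sum.elim (fun _ => 0) X) F, ?_⟩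
  apply ext_eval
  intro x
  set x₀ : Fin n ⊕ Fin c → ℚ := Sum.elim (fun _ => 0) (fun k => x (Sum.inr k)) with hx₀
  set v : Fin n ⊕ Fin c → ℚ := Sum.elim (fun i => x (Sum.inl i)) (fun _ => 0) with hv
  have h1 : eval x (rename Sum.inr (aeval (Sum.elim (fun _ => 0) X) F : MvPolynomial (Fin c) ℚ)) =
      eval x₀ F := by
    rw [eval_rename]
    generalize F = F'
    induction F' using MvPolynomial.induction_on with
    | C a => simp
    | add p q hp hq => rw [map_add, map_add, map_add, hp, hq]
    | mul_X p i hp =>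
      rw [map_mul, map_mul, map_mul, hp, aeval_X, eval_X]
      cases i with
      | inl i => simp [hx₀]
      | inr k => simp [hx₀]
  have hvsum : v = ∑ i, x (Sum.inl i) • ee n c i := by
    funext s
    rw [Finset.sum_apply]
    cases s with
    | inl i =>
      rw [Finset.sum_eq_single i]
      · simp [hv, ee]
      · intro b _ hb
        rw [Pi.smul_apply, ee, Pi.single_eq_of_ne (by simpa using hb.symm), smul_zero]
      · intro hh; exact absurd (Finset.mem_univ _) hh
    | inr k =>
      rw [Finset.sum_eq_zero]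
      · simp [hv]
      · intro b _
        rw [Pi.smul_apply, ee, Pi.single_eq_of_ne (by simp), smul_zero]
  have h2 : Dv v F = 0 := by
    rw [hvsum, Dv_sum_vec]
    refine Finset.sum_eq_zero fun i _ => ?_
    rw [Dv_smul_vec, h i, mul_zero]
  have h3 : Polynomial.derivative (Ln x₀ v F) = 0 := by rw [derivative_Ln, h2, map_zero]
  have h4 := Polynomial.eq_C_of_derivative_eq_zero h3
  have h5 : (Ln x₀ v F).eval 1 = (Ln x₀ v F).eval 0 := by
    rw [h4, Polynomial.eval_C, Polynomial.eval_C]
  rw [eval_Ln, eval_Ln, one_smul, zero_smul, add_zero] at h5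
  have h6 : x₀ + v = x := by
    funext s
    cases s with
    | inl i => simp [hx₀, hv]
    | inr k => simp [hx₀, hv]
  rw [h6] at h5
  rw [h5, h1]

/-! ### The quadratic form -/

section quad

variable {ι : Type*} [Fintype ι] [DecidableEq ι]

/-- The quadratic form with matrix `Q` (up to the factor `1/2`). -/
noncomputable def quad (Q : Matrix ι ι ℚ) : MvPolynomial ι ℚ :=
  C (1 / 2) * ∑ s, X s * lin (Q s)

theorem eval_quad (Q : Matrix ι ι ℚ) (x : ι → ℚ) :
    eval x (quad Q) = 1 / 2 * (x ⬝ᵥ (Q *ᵥ x)) := by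
  rw [quad, map_mul, eval_C, map_sum]
  congr 1
  rw [dotProduct]
  refine Finset.sum_congr rfl fun s _ => ?_
  rw [map_mul, eval_X, eval_lin]
  rfl

theorem isHomogeneous_lin (φ : ι → ℚ) : (lin φ).IsHomogeneous 1 := by
  refine IsHomogeneous.sum _ _ _ fun j _ => ?_
  have h1 := (isHomogeneous_C ι (φ j)).mul (isHomogeneous_X ℚ j)
  rwa [zero_add] at h1

theorem isHomogeneous_quad (Q : Matrix ι ι ℚ) : (quad Q).IsHomogeneous 2 := by
  have h : (∑ s, X s * lin (Q s)).IsHomogeneous 2 := by
    refine IsHomogeneous.sum _ _ _ fun j _ => ?_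
    exact (isHomogeneous_X ℚ j).mul (isHomogeneous_lin (Q j))
  have h1 := (isHomogeneous_C ι (1 / 2 : ℚ)).mul h
  rwa [zero_add] at h1

theorem Dv_quad {Q : Matrix ι ι ℚ} (hQ : Q.transpose = Q) (v : ι → ℚ) :
    Dv v (quad Q) = lin (Q *ᵥ v) := by
  have h0 : ∀ x : ι → ℚ, ∑ s, x s * (Q s ⬝ᵥ v) = (Q *ᵥ v) ⬝ᵥ x := by
    intro x
    rw [dotProduct_comm]
    rfl
  have h1 : ∀ x : ι → ℚ, ∑ s, v s * (Q s ⬝ᵥ x) = (Q *ᵥ v) ⬝ᵥ x := by
    intro x
    have : (Q *ᵥ v) ⬝ᵥ x = v ⬝ᵥ (Q *ᵥ x) := by
      rw [dotProduct_mulVec, ← Matrix.mulVec_transpose, hQ]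
    rw [this]
    rfl
  apply ext_eval
  intro x
  rw [quad, Dv_mul, Dv_C, mul_zero, add_zero, map_mul, eval_C, map_sum, map_sum, eval_lin]
  simp only [Dv_mul, Dv_X, Dv_lin, map_add, map_mul, eval_X, eval_C, eval_lin]
  rw [Finset.sum_add_distrib, h0]
  have h2 : ∑ s, (Q s ⬝ᵥ x) * v s = (Q *ᵥ v) ⬝ᵥ x := by
    rw [← h1]
    exact Finset.sum_congr rfl fun s _ => mul_comm _ _
  rw [h2]
  ring

theorem TT_quad {Q : Matrix ι ι ℚ} (hQ : Q.transpose = Q) {v φ : ι → ℚ} (h2 : φ ⬝ᵥ v = 2) {b : ℚ}
    (hb : Q *ᵥ v = b • φ) : TT (rf v φ) (quad Q) = quad Q := by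
  apply ext_eval
  intro x
  have h1 : v ⬝ᵥ (Q *ᵥ x) = b * (φ ⬝ᵥ x) := by
    rw [dotProduct_mulVec, ← Matrix.mulVec_transpose, hQ, hb, smul_dotProduct, smul_eq_mul]
  have h3 : v ⬝ᵥ (b • φ) = b * 2 := by rw [dotProduct_smul, dotProduct_comm, h2, smul_eq_mul]
  have h4 : x ⬝ᵥ (b • φ) = b * (φ ⬝ᵥ x) := by rw [dotProduct_smul, dotProduct_comm, smul_eq_mul]
  rw [eval_TT, eval_quad, eval_quad, rf_mulVec, Matrix.mulVec_sub, Matrix.mulVec_smul, hb,
    sub_dotProduct, dotProduct_sub, dotProduct_sub, smul_dotProduct, smul_dotProduct,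
    dotProduct_smul (φ ⬝ᵥ x) x (b • φ), dotProduct_smul (φ ⬝ᵥ x) v (b • φ), h1, h3, h4]
  simp only [smul_eq_mul]
  ring

end quad

/-- The matrix of the invariant form attached to a symmetrizer `b`. -/
def formMat (A : Matrix (Fin n) (Fin n) ℤ) (B : Matrix (Fin c) (Fin n) ℚ) (b : Fin n → ℚ) :
    Matrix (Fin n ⊕ Fin c) (Fin n ⊕ Fin c) ℚ :=
  Matrix.fromBlocks (Matrix.of fun i j => b j * A i j) (Matrix.of fun i k => b i * B k i)
    (Matrix.of fun k i => b i * B k i) 0

theorem formMat_symm {b : Fin n → ℚ} (hb : ∀ l j, (A l j : ℚ) * b j = A j l * b l) :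
    (formMat A B b).transpose = formMat A B b := by
  rw [formMat, Matrix.fromBlocks_transpose]
  congr 1
  ext i j
  rw [Matrix.transpose_apply, Matrix.of_apply, Matrix.of_apply, mul_comm, hb, mul_comm]

theorem formMat_mulVec (b : Fin n → ℚ) (j : Fin n) :
    formMat A B b *ᵥ ee n c j = b j • root A B j := by
  funext s
  rw [Matrix.mulVec, dot_ee, formMat, Pi.smul_apply, smul_eq_mul]
  cases s with
  | inl i => rfl
  | inr k => rfl

/-! ### Degrees -/

theorem totalDegree_pderiv_le {ι : Type*} [Fintype ι] [DecidableEq ι] (i : ι)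
    (p : MvPolynomial ι ℚ) : (pderiv i p).totalDegree ≤ p.totalDegree := by
  unfold totalDegree
  apply Finset.sup_le
  intro m hm
  rw [mem_support_iff, coeff_pderiv] at hm
  have h1 : m + Finsupp.single i 1 ∈ p.support := by
    rw [mem_support_iff]
    exact left_ne_zero_of_mul hm
  refine le_trans ?_ (Finset.le_sup h1)
  rw [Finsupp.sum_fintype _ _ (fun _ => rfl), Finsupp.sum_fintype _ _ (fun _ => rfl)]
  exact Finset.sum_le_sum fun j _ => by rw [Finsupp.add_apply]; omega

/-- Polynomials in the second set of variables and `q`. -/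
def InR (q : PP n c) (F : PP n c) : Prop :=
  ∃ P : Polynomial (MvPolynomial (Fin c) ℚ),
    F = Polynomial.eval₂ (rename Sum.inr : MvPolynomial (Fin c) ℚ →ₐ[ℚ] PP n c).toRingHom q P

theorem InR.add {q F G : PP n c} (hF : InR q F) (hG : InR q G) : InR q (F + G) := by
  obtain ⟨P, rfl⟩ := hF
  obtain ⟨Q, rfl⟩ := hG
  exact ⟨P + Q, by rw [Polynomial.eval₂_add]⟩

theorem InR.ren (q : PP n c) (y : MvPolynomial (Fin c) ℚ) :
    InR q (MvPolynomial.rename Sum.inr y) :=
  ⟨Polynomial.C y, by rw [Polynomial.eval₂_C]; rfl⟩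

theorem Dv_rename (y : MvPolynomial (Fin c) ℚ) (i : Fin n) :
    Dv (ee n c i) (MvPolynomial.rename Sum.inr y) = 0 := by
  induction y using MvPolynomial.induction_on with
  | C a => rw [rename_C, Dv_C]
  | add p q hp hq => rw [map_add, map_add, hp, hq, add_zero]
  | mul_X p k hp =>
    rw [map_mul, Dv_mul, hp, rename_X, Dv_X, ee, Pi.single_eq_of_ne (by simp), C_0]
    ring

theorem InR.antideriv {q G : PP n c} (hG : InR q G) :
    ∃ F, InR q F ∧ ∀ i, Dv (ee n c i) F = G * Dv (ee n c i) q := by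
  obtain ⟨P, rfl⟩ := hG
  induction P using Polynomial.induction_on' with
  | add P Q hP hQ =>
    obtain ⟨F, hF, hF'⟩ := hP
    obtain ⟨H, hH, hH'⟩ := hQ
    refine ⟨F + H, hF.add hH, fun i => ?_⟩
    rw [map_add, hF', hH', Polynomial.eval₂_add]
    ring
  | monomial k a =>
    refine ⟨_, ⟨Polynomial.monomial (k + 1) (C (1 / ((k : ℚ) + 1)) * a), rfl⟩, fun i => ?_⟩
    rw [Polynomial.eval₂_monomial, Polynomial.eval₂_monomial]
    have h1 : (rename Sum.inr : MvPolynomial (Fin c) ℚ →ₐ[ℚ] PP n c).toRingHom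
        (C (1 / ((k : ℚ) + 1)) * a) = C (1 / ((k : ℚ) + 1)) * MvPolynomial.rename Sum.inr a := by
      show MvPolynomial.rename Sum.inr (C (1 / ((k : ℚ) + 1)) * a) = _
      rw [map_mul, rename_C]
    have h2 : (rename Sum.inr : MvPolynomial (Fin c) ℚ →ₐ[ℚ] PP n c).toRingHom a =
        MvPolynomial.rename Sum.inr a := rfl
    rw [h1, h2, Dv_mul, Dv_mul, Dv_C, Dv_rename, mul_zero, mul_zero, add_zero, mul_zero, add_zero,
      Derivation.leibniz_pow, nsmul_eq_mul, smul_eq_mul, Nat.add_sub_cancel]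
    have h3 : (C (1 / ((k : ℚ) + 1)) : PP n c) * ((k + 1 : ℕ) : PP n c) = 1 := by
      have : (((k + 1 : ℕ) : PP n c)) = C ((k : ℚ) + 1) := by
        rw [C_add, C_1]; push_cast
        rw [map_natCast]
      rw [this, ← C_mul]
      have h4 : (k : ℚ) + 1 ≠ 0 := by positivity
      rw [one_div, inv_mul_cancel₀ h4, C_1]
    linear_combination (MvPolynomial.rename Sum.inr a * q ^ k * Dv (ee n c i) q) * h3

theorem InR.mem_adjoin {q F : PP n c} (hF : InR q F) :
    F ∈ Algebra.adjoin ℚ (insert q (Set.range fun k : Fin c => (X (Sum.inr k) : PP n c))) := by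
  obtain ⟨P, rfl⟩ := hF
  have h1 : ∀ a : MvPolynomial (Fin c) ℚ, MvPolynomial.rename Sum.inr a ∈
      Algebra.adjoin ℚ (insert q (Set.range fun k : Fin c => (X (Sum.inr k) : PP n c))) := by
    intro a
    induction a using MvPolynomial.induction_on with
    | C a => rw [rename_C]; exact Subalgebra.algebraMap_mem _ a
    | add p q hp hq => rw [map_add]; exact add_mem hp hq
    | mul_X p k hp =>
      rw [map_mul, rename_X]
      exact mul_mem hp (Algebra.subset_adjoin (Or.inr ⟨k, rfl⟩))
  have hq : q ∈ Algebra.adjoin ℚ (insert q (Set.range fun k : Fin c => (X (Sum.inr k) : PP n c))) :=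
    Algebra.subset_adjoin (Set.mem_insert _ _)
  rw [Polynomial.eval₂_eq_sum]
  unfold Polynomial.sum
  exact Subalgebra.sum_mem _ fun k _ => mul_mem (h1 _) (pow_mem hq k)

/-- **Moody's theorem** for indefinite generalized Cartan matrices. -/
theorem moody (hn : 0 < n) (hA : IsGCM A) (hind : IsIndecomposable A) (hindef : IsIndefinite A) :
    ∃ q ∈ invs A B Finset.univ, q.IsHomogeneous 2 ∧ ∀ f ∈ invs A B Finset.univ,
      f ∈ Algebra.adjoin ℚ (insert q (Set.range fun k : Fin c => (X (Sum.inr k) : PP n c))) := by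
  have hctx : ∀ f ∈ invs A B Finset.univ, ∃ g : Fin n → PP n c, Ctx A B f g := by
    intro f hf
    rw [mem_invs_iff] at hf
    have h2 : ∀ j, root A B j ⬝ᵥ ee n c j = 2 := by
      intro j
      rw [root_dot_ee, hA.diag]
      norm_num
    have h3 : ∀ j, ∃ G, RD f (ee n c j) (root A B j) G := fun j =>
      exists_RD (h2 j) (hf j (Finset.mem_univ j))
    choose g hg using h3
    exact ⟨g, hA, hg⟩
  by_cases hsym : ∃ b : Fin n → ℚ, (∀ j, b j ≠ 0) ∧ ∀ l j, (A l j : ℚ) * b j = A j l * b l
  · obtain ⟨b, hb0, hb⟩ := hsym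
    set q : PP n c := quad (formMat A B b) with hq
    have hDq : ∀ i, Dv (ee n c i) q = C (b i) * lin (root A B i) := by
      intro i
      rw [hq, Dv_quad (formMat_symm hb), formMat_mulVec, lin_smul]
    refine ⟨q, ?_, isHomogeneous_quad _, ?_⟩
    · rw [mem_invs_iff]
      intro j _
      rw [srefl_eq]
      apply TT_quad (formMat_symm hb) _ (formMat_mulVec b j)
      rw [root_dot_ee, hA.diag]
      norm_num
    · suffices H : ∀ N : ℕ, ∀ f ∈ invs A B Finset.univ, f.totalDegree < N → InR q f by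
        intro f hf
        exact (H (f.totalDegree + 1) f hf (Nat.lt_succ_self _)).mem_adjoin
      intro N
      induction N with
      | zero => intro f _ h; exact absurd h (Nat.not_lt_zero _)
      | succ N ih =>
        intro f hf hdeg
        obtain ⟨g, hg⟩ := hctx f hf
        have hinv := hg.inv_all hn hind hindef
        have hrel : ∀ l j, C (A l j : ℚ) * g j = C (A j l : ℚ) * g l := fun l j =>
          hg.relation (hinv l j)
        set i₀ : Fin n := ⟨0, hn⟩ with hi₀
        set G : PP n c := C (b i₀)⁻¹ * g i₀ with hG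
        have hgG : ∀ i, g i = C (b i) * G := by
          apply indec_induct hind (fun i => g i = C (b i) * G) i₀
          · rw [hG, ← mul_assoc, ← C_mul, mul_inv_cancel₀ (hb0 i₀), C_1, one_mul]
          · intro i j hi hij
            have h1 := hrel i j
            rw [hi, ← mul_assoc, ← C_mul, ← hb i j, C_mul, mul_assoc] at h1
            have hne : (C (A i j : ℚ) : PP n c) ≠ 0 := by
              intro h0
              apply hij
              have : (A i j : ℚ) = 0 := by simpa using h0
              exact_mod_cast this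
            exact mul_left_cancel₀ hne h1
        have hGinv : G ∈ invs A B Finset.univ := by
          rw [mem_invs_iff]
          intro j _
          rw [srefl_eq, hG, map_mul, TT_C, hinv]
        have hGR : InR q G := by
          by_cases hG0 : G = 0
          · rw [hG0]
            exact ⟨0, by rw [Polynomial.eval₂_zero]⟩
          · apply ih G hGinv
            have h1 : (lin (root A B i₀) * g i₀).totalDegree ≤ f.totalDegree := by
              rw [← (hg.rd i₀).der, ee, Dv_single]
              exact totalDegree_pderiv_le _ _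
            have hgi : g i₀ ≠ 0 := by
              intro h0
              apply hG0
              rw [hG, h0, mul_zero]
            rw [totalDegree_mul_of_isDomain (hg.lin_ne i₀) hgi,
              (isHomogeneous_lin (root A B i₀)).totalDegree (hg.lin_ne i₀)] at h1
            have h2 : G.totalDegree ≤ (g i₀).totalDegree := by
              rw [hG]
              exact (totalDegree_mul _ _).trans (by rw [totalDegree_C, zero_add])
            omega
        obtain ⟨F, hF, hF'⟩ := hGR.antideriv
        have hkill : ∀ i, Dv (ee n c i) (f - F) = 0 := by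
          intro i
          rw [map_sub, (hg.rd i).der, hF', hDq, hgG i]
          ring
        obtain ⟨y, hy⟩ := eq_rename_of_killed hkill
        have : f = F + MvPolynomial.rename Sum.inr y := by rw [← hy]; ring
        rw [this]
        exact hF.add (InR.ren q y)
  · refine ⟨0, zero_mem _, isHomogeneous_zero _ _ _, ?_⟩
    intro f hf
    obtain ⟨g, hg⟩ := hctx f hf
    have hinv := hg.inv_all hn hind hindef
    have hrel : ∀ l j, C (A l j : ℚ) * g j = C (A j l : ℚ) * g l := fun l j =>
      hg.relation (hinv l j)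
    have hzero : ∀ i, g i = 0 := by
      by_contra hcon
      push Not at hcon
      obtain ⟨i₀, hi₀⟩ := hcon
      have hx : ∃ x, eval x (g i₀) ≠ 0 := by
        by_contra hx
        push Not at hx
        exact hi₀ (ext_eval fun x => by rw [hx x, map_zero])
      obtain ⟨x, hx⟩ := hx
      apply hsym
      refine ⟨fun i => eval x (g i), ?_, ?_⟩
      · apply indec_induct hind (fun i => eval x (g i) ≠ 0) i₀ hx
        intro i j hi hij h0
        have h1 := congrArg (eval x) (hrel i j)
        rw [map_mul, map_mul, eval_C, eval_C, h0, mul_zero] at h1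
        have hji : A j i ≠ 0 := fun h => hij ((hA.zero_iff i j).mpr h)
        have hji' : (A j i : ℚ) ≠ 0 := by exact_mod_cast hji
        exact (mul_ne_zero hji' hi) h1.symm
      · intro l j
        have h1 := congrArg (eval x) (hrel l j)
        rw [map_mul, map_mul, eval_C, eval_C] at h1
        exact h1
    have hkill : ∀ i, Dv (ee n c i) f = 0 := by
      intro i
      rw [(hg.rd i).der, hzero i, mul_zero]
    obtain ⟨y, hy⟩ := eq_rename_of_killed hkill
    rw [hy]
    exact (InR.ren 0 y).mem_adjoin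

end

end Pool.Agent.TH541.KM
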