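import Pool.Agent.TH541.KM.D1
import Pool.Agent.TH541.KM.Coch

set_option autoImplicit false

/-! # Ring axioms for cochains -/

namespace Pool.Agent.TH541.KM

open Finset

section

variable {S : Type*} [Preorder S] {P : Type*} [CommRing P]

theorem E_nil (φ : Coch S P) : E φ [] = 0 := by simp [E]

theorem E_coe (φ : Coch S P) (c : Ch S) : E φ c.1 = φ c := by
  rw [E, dif_pos c.2]

theorem E_of (φ : Coch S P) {l : List S} (h : l ≠ [] ∧ l.Pairwise (· < ·)) :
    E φ l = φ ⟨l, h⟩ := by rw [E, dif_pos h]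

theorem mul_apply (φ ψ : Coch S P) (c : Ch S) : (φ * ψ) c = lmul (E φ) (E ψ) c.1 := by
  rw [lmul_eq_sum]; rfl

theorem dif_apply (φ : Coch S P) (c : Ch S) : dif φ c = ld (E φ) c.1 := by
  rw [ld_eq_sum]; rfl

theorem one_apply (c : Ch S) : (1 : Coch S P) c = lone c.1 := rfl

theorem add_apply (φ ψ : Coch S P) (c : Ch S) : (φ + ψ) c = φ c + ψ c := rfl

theorem zero_apply (c : Ch S) : (0 : Coch S P) c = 0 := rfl

theorem neg_apply (φ : Coch S P) (c : Ch S) : (-φ) c = - φ c := rfl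

theorem sub_apply (φ ψ : Coch S P) (c : Ch S) : (φ - ψ) c = φ c - ψ c := rfl

omit [CommRing P] in
theorem smul_apply {R : Type*} [SMul R P] (r : R) (φ : Coch S P) (c : Ch S) :
    (r • φ) c = r • φ c := rfl

theorem pw_of_sublist {l m : List S} (hl : l.Pairwise (· < ·)) (h : m.Sublist l) :
    m.Pairwise (· < ·) := hl.sublist h

theorem E_eq_of_pw (φ : Coch S P) (f : List S → P) (hf : f [] = 0)
    (h : ∀ c : Ch S, φ c = f c.1) {l : List S} (hl : l.Pairwise (· < ·)) : E φ l = f l := by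
  by_cases h0 : l = []
  · subst h0; rw [E_nil, hf]
  · rw [E_of φ ⟨h0, hl⟩, h]

theorem E_add (φ ψ : Coch S P) (l : List S) : E (φ + ψ) l = E φ l + E ψ l := by
  unfold E
  split_ifs
  · rfl
  · rw [add_zero]

theorem E_zero (l : List S) : E (0 : Coch S P) l = 0 := by
  unfold E
  split_ifs
  · rfl
  · rfl

theorem E_neg (φ : Coch S P) (l : List S) : E (-φ) l = - E φ l := by
  unfold E
  split_ifs
  · rfl
  · rw [neg_zero]

theorem E_smul {R : Type*} [Semiring R] [Module R P] (r : R) (φ : Coch S P) (l : List S) :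
    E (r • φ) l = r • E φ l := by
  unfold E
  split_ifs
  · rfl
  · rw [smul_zero]

theorem E_mul (φ ψ : Coch S P) {l : List S} (hl : l.Pairwise (· < ·)) :
    E (φ * ψ) l = lmul (E φ) (E ψ) l :=
  E_eq_of_pw _ _ (lmul_nil _ _) (mul_apply φ ψ) hl

theorem E_dif (φ : Coch S P) {l : List S} (hl : l.Pairwise (· < ·)) :
    E (dif φ) l = ld (E φ) l :=
  E_eq_of_pw _ _ (ld_nil _) (dif_apply φ) hl

theorem E_one {l : List S} (hl : l.Pairwise (· < ·)) : E (1 : Coch S P) l = lone l :=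
  E_eq_of_pw _ _ (by simp [lone]) one_apply hl

protected theorem Coch.mul_assoc (φ ψ χ : Coch S P) : φ * ψ * χ = φ * (ψ * χ) := by
  refine Coch.ext fun c => ?_
  rw [mul_apply, mul_apply]
  have h1 : lmul (E (φ * ψ)) (E χ) c.1 = lmul (lmul (E φ) (E ψ)) (E χ) c.1 :=
    lmul_congr (fun m hm => E_mul φ ψ (pw_of_sublist c.2.2 hm)) (fun _ _ => rfl)
  have h2 : lmul (E φ) (E (ψ * χ)) c.1 = lmul (E φ) (lmul (E ψ) (E χ)) c.1 :=
    lmul_congr (fun _ _ => rfl) (fun m hm => E_mul ψ χ (pw_of_sublist c.2.2 hm))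
  rw [h1, h2, lmul_assoc]

protected theorem Coch.one_mul (φ : Coch S P) : 1 * φ = φ := by
  refine Coch.ext fun c => ?_
  rw [mul_apply]
  have h1 : lmul (E (1 : Coch S P)) (E φ) c.1 = lmul lone (E φ) c.1 :=
    lmul_congr (fun m hm => E_one (pw_of_sublist c.2.2 hm)) (fun _ _ => rfl)
  rw [h1, lone_lmul _ c.2.1, E_coe]

protected theorem Coch.mul_one (φ : Coch S P) : φ * 1 = φ := by
  refine Coch.ext fun c => ?_
  rw [mul_apply]
  have h1 : lmul (E φ) (E (1 : Coch S P)) c.1 = lmul (E φ) lone c.1 :=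
    lmul_congr (fun _ _ => rfl) (fun m hm => E_one (pw_of_sublist c.2.2 hm))
  rw [h1, lmul_lone _ c.2.1, E_coe]

protected theorem Coch.left_distrib (φ ψ χ : Coch S P) : φ * (ψ + χ) = φ * ψ + φ * χ := by
  refine Coch.ext fun c => ?_
  rw [add_apply, mul_apply, mul_apply, mul_apply, ← lmul_add_right]
  congr 1
  funext l
  exact E_add _ _ _

protected theorem Coch.right_distrib (φ ψ χ : Coch S P) : (φ + ψ) * χ = φ * χ + ψ * χ := by
  refine Coch.ext fun c => ?_
  rw [add_apply, mul_apply, mul_apply, mul_apply, ← lmul_add_left]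
  congr 1
  funext l
  exact E_add _ _ _

protected theorem Coch.zero_mul (φ : Coch S P) : 0 * φ = 0 := by
  refine Coch.ext fun c => ?_
  rw [mul_apply, lmul_eq_zero_left (fun m _ => E_zero m)]
  rfl

protected theorem Coch.mul_zero (φ : Coch S P) : φ * 0 = 0 := by
  have h := Coch.left_distrib φ 0 0
  rw [add_zero] at h
  exact (add_eq_left.mp h.symm)

theorem Coch.smul_mul {R : Type*} [CommSemiring R] [Algebra R P] (r : R) (φ ψ : Coch S P) :
    r • φ * ψ = r • (φ * ψ) := by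
  refine Coch.ext fun c => ?_
  rw [smul_apply, mul_apply, mul_apply, Algebra.smul_def, ← lmul_smul_left]
  congr 1
  funext l
  rw [E_smul, Algebra.smul_def]

theorem Coch.mul_smul {R : Type*} [CommSemiring R] [Algebra R P] (r : R) (φ ψ : Coch S P) :
    φ * r • ψ = r • (φ * ψ) := by
  refine Coch.ext fun c => ?_
  rw [smul_apply, mul_apply, mul_apply, Algebra.smul_def, ← lmul_smul_right]
  congr 1
  funext l
  rw [E_smul, Algebra.smul_def]

end

end Pool.Agent.TH541.KM
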