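import Pool.Agent.TH541.KM.D2

set_option autoImplicit false

/-! # The differential -/

namespace Pool.Agent.TH541.KM

open Finset

section

variable {S : Type*} [Preorder S] {P : Type*} [CommRing P]

/-! ### The differential -/

theorem dif_add (φ ψ : Coch S P) : dif (φ + ψ) = dif φ + dif ψ := by
  refine Coch.ext fun c => ?_
  rw [add_apply, dif_apply, dif_apply, dif_apply, ← ld_add]
  congr 1
  funext l
  exact E_add _ _ _

theorem dif_smul {R : Type*} [CommSemiring R] [Algebra R P] (r : R) (φ : Coch S P) :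
    dif (r • φ) = r • dif φ := by
  refine Coch.ext fun c => ?_
  have hs : ∀ x : P, r • x = algebraMap R P r * x := fun x => Algebra.smul_def r x
  rw [smul_apply, dif_apply, dif_apply, hs, ← ld_smul]
  congr 1
  funext l
  rw [E_smul, hs]

theorem dif_zero : dif (0 : Coch S P) = 0 := by
  have h := dif_add (0 : Coch S P) 0
  rw [add_zero] at h
  exact (add_eq_left.mp h.symm)

theorem dif_negg (φ : Coch S P) : dif (-φ) = - dif φ := by
  have h := dif_add φ (-φ)
  rw [add_neg_cancel, dif_zero] at h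
  exact (neg_eq_of_add_eq_zero_right h.symm).symm

theorem dif_sub (φ ψ : Coch S P) : dif (φ - ψ) = dif φ - dif ψ := by
  rw [sub_eq_add_neg, dif_add, dif_negg, ← sub_eq_add_neg]

theorem dif_dif (φ : Coch S P) : dif (dif φ) = 0 := by
  refine Coch.ext fun c => ?_
  rw [dif_apply]
  have h1 : ld (E (dif φ)) c.1 = ld (ld (E φ)) c.1 :=
    ld_congr (fun m hm => E_dif φ (pw_of_sublist c.2.2 hm))
  rw [h1, ld_ld]
  rfl

theorem dif_one : dif (1 : Coch S P) = 0 := by
  refine Coch.ext fun c => ?_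
  rw [dif_apply]
  have h1 : ld (E (1 : Coch S P)) c.1 = ld lone c.1 :=
    ld_congr (fun m hm => E_one (pw_of_sublist c.2.2 hm))
  rw [h1, zero_apply]
  have h2 : ∀ l : List S, ld (fun m => if m = [] then (1 : P) else 0) l =
      if l.length = 1 then 1 else 0 := by
    intro l
    induction l with
    | nil => simp
    | cons x l ih =>
      have hz : ∀ l : List S, ld (fun _ : List S => (0 : P)) l = 0 := by
        intro l
        have := ld_smul (0 : P) (fun _ : List S => (0 : P)) l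
        simpa using this
      rw [ld_cons]
      simp only [List.cons_ne_nil, if_false, hz, sub_zero, List.length_cons]
      by_cases h : l = []
      · simp [h]
      · have : l.length ≠ 0 := by simpa using h
        rw [if_neg h, if_neg (by omega)]
  cases hc : c.1 with
  | nil => exact absurd hc c.2.1
  | cons x l =>
    rw [ld_cons]
    have h3 : (fun m => lone (P := P) (x :: m)) = fun m : List S => if m = [] then (1 : P) else 0 := by
      funext m
      simp [lone]
    rw [h3, h2, lone, sub_self]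

/-- The sign operator: multiplication by `(-1)^p` in degree `p`. -/
def eps (φ : Coch S P) : Coch S P := ⟨fun c => -((-1) ^ c.1.length * φ c)⟩

theorem E_eps (φ : Coch S P) (l : List S) : E (eps φ) l = leps (E φ) l := by
  by_cases h : l ≠ [] ∧ l.Pairwise (· < ·)
  · rw [leps, E_of _ h, E_of _ h]
    rfl
  · rw [leps, E, E, dif_neg h, dif_neg h, mul_zero, neg_zero]

theorem eps_apply (φ : Coch S P) (c : Ch S) : eps φ c = -((-1) ^ c.1.length * φ c) := rfl

theorem eps_eps (φ : Coch S P) : eps (eps φ) = φ := by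
  refine Coch.ext fun c => ?_
  rw [eps_apply, eps_apply, mul_neg, neg_neg, ← mul_assoc, ← pow_add, Even.neg_one_pow ⟨_, rfl⟩,
    one_mul]

/-- **Leibniz rule.** -/
theorem dif_mul (φ ψ : Coch S P) : dif (φ * ψ) = dif φ * ψ + eps φ * dif ψ := by
  refine Coch.ext fun c => ?_
  rw [dif_apply, add_apply, mul_apply, mul_apply]
  have h1 : ld (E (φ * ψ)) c.1 = ld (lmul (E φ) (E ψ)) c.1 :=
    ld_congr (fun m hm => E_mul φ ψ (pw_of_sublist c.2.2 hm))
  have h2 : lmul (E (dif φ)) (E ψ) c.1 = lmul (ld (E φ)) (E ψ) c.1 :=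
    lmul_congr (fun m hm => E_dif φ (pw_of_sublist c.2.2 hm)) (fun _ _ => rfl)
  have h3 : lmul (E (eps φ)) (E (dif ψ)) c.1 = lmul (leps (E φ)) (ld (E ψ)) c.1 :=
    lmul_congr (fun m _ => E_eps φ m) (fun m hm => E_dif ψ (pw_of_sublist c.2.2 hm))
  rw [h1, h2, h3, ld_lmul, E_nil, E_nil]
  ring

theorem dif_eps (φ : Coch S P) : dif (eps φ) = - eps (dif φ) := by
  refine Coch.ext fun c => ?_
  rw [neg_apply, eps_apply, dif_apply, dif_apply]
  have h0 : ∀ (f : List S → P) (l : List S),
      ld (leps f) l = (-1) ^ l.length * ld f l := by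
    intro f l
    induction l generalizing f with
    | nil => simp
    | cons x l ih =>
      have h3 : (fun m => leps f (x :: m)) = fun m => - leps (fun m => f (x :: m)) m := by
        funext m; simp only [leps, List.length_cons, pow_succ]; ring
      rw [ld_cons, h3, ld_neg, ih, ld_cons, leps, List.length_cons, pow_succ]
      ring
  have h1 : ld (E (eps φ)) c.1 = ld (leps (E φ)) c.1 := ld_congr (fun m _ => E_eps φ m)
  rw [h1, h0, neg_neg]

end

section

variable {S : Type*} [Preorder S] {P : Type*} [CommRing P] {R : Type*} [CommRing R] [Algebra R P]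

theorem E_mem_of_head {F : S → Subalgebra R P} (hF : Antitone F) {φ : Coch S P}
    (h : IsCochain F φ) {x : S} {l m : List S} (hl : (x :: l).Pairwise (· < ·))
    (hm : m.Sublist (x :: l)) : E φ m ∈ F x := by
  by_cases h0 : m = []
  · subst h0; rw [E_nil]; exact zero_mem _
  · have hp := pw_of_sublist hl hm
    rw [E_of φ ⟨h0, hp⟩]
    refine hF ?_ (h ⟨m, h0, hp⟩)
    have h1 : m.head h0 ∈ x :: l := hm.subset (List.head_mem h0)
    rcases List.mem_cons.mp h1 with h2 | h2
    · exact le_of_eq h2.symm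
    · exact ((List.pairwise_cons.mp hl).1 _ h2).le

theorem IsCochain.mul {F : S → Subalgebra R P} (hF : Antitone F) {φ ψ : Coch S P}
    (hφ : IsCochain F φ) (hψ : IsCochain F ψ) : IsCochain F (φ * ψ) := by
  rintro ⟨l, h0, hl⟩
  cases l with
  | nil => exact absurd rfl h0
  | cons x l =>
    rw [mul_apply]
    exact lmul_mem (F x) (fun m hm _ => E_mem_of_head hF hφ hl hm)
      (fun m hm _ => E_mem_of_head hF hψ hl hm)

theorem IsCochain.dif {F : S → Subalgebra R P} (hF : Antitone F) {φ : Coch S P}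
    (hφ : IsCochain F φ) : IsCochain F (dif φ) := by
  rintro ⟨l, h0, hl⟩
  cases l with
  | nil => exact absurd rfl h0
  | cons x l =>
    rw [dif_apply]
    exact ld_mem (F x) (fun m hm => E_mem_of_head hF hφ hl hm)

theorem IsCochain.eps {F : S → Subalgebra R P} {φ : Coch S P}
    (hφ : IsCochain F φ) : IsCochain F (eps φ) := by
  intro c
  exact neg_mem (mul_mem (pow_mem (neg_mem (one_mem _)) _) (hφ c))

theorem IsCocycle.add {F : S → Subalgebra R P} {φ ψ : Coch S P} (h : IsCocycle F φ)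
    (h' : IsCocycle F ψ) : IsCocycle F (φ + ψ) := by
  obtain ⟨h1, h2⟩ := h
  obtain ⟨h3, h4⟩ := h'
  refine ⟨fun c => add_mem (h1 c) (h3 c), ?_⟩
  rw [dif_add, h2, h4, add_zero]

theorem IsCocycle.mul {F : S → Subalgebra R P} (hF : Antitone F) {φ ψ : Coch S P}
    (h : IsCocycle F φ) (h' : IsCocycle F ψ) : IsCocycle F (φ * ψ) := by
  obtain ⟨h1, h2⟩ := h
  obtain ⟨h3, h4⟩ := h'
  refine ⟨h1.mul hF h3, ?_⟩
  rw [dif_mul, h2, h4, zero_mul, mul_zero, add_zero]

theorem isCocycle_algebraMap (F : S → Subalgebra R P) (r : R) :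
    IsCocycle F (algebraMap R (Coch S P) r) := by
  rw [Algebra.algebraMap_eq_smul_one]
  refine ⟨fun c => ?_, ?_⟩
  · rw [smul_apply]
    refine Subalgebra.smul_mem _ ?_ r
    rw [one_apply, lone]
    split_ifs
    · exact one_mem _
    · exact zero_mem _
  · rw [dif_smul, dif_one, smul_zero]

theorem Cohom.refl (F : S → Subalgebra R P) (φ : Coch S P) : Cohom F φ φ :=
  ⟨0, fun c => zero_mem _, by rw [dif_zero, sub_self]⟩

theorem Cohom.symm {F : S → Subalgebra R P} {φ ψ : Coch S P} (h : Cohom F φ ψ) :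
    Cohom F ψ φ := by
  obtain ⟨χ, h1, h2⟩ := h
  exact ⟨-χ, fun c => neg_mem (h1 c), by rw [dif_negg, h2, neg_sub]⟩

theorem Cohom.trans {F : S → Subalgebra R P} {φ ψ ρ : Coch S P} (h : Cohom F φ ψ)
    (h' : Cohom F ψ ρ) : Cohom F φ ρ := by
  obtain ⟨χ, h1, h2⟩ := h
  obtain ⟨χ', h3, h4⟩ := h'
  exact ⟨χ + χ', fun c => add_mem (h1 c) (h3 c), by rw [dif_add, h2, h4]; abel⟩

theorem Cohom.add {F : S → Subalgebra R P} {φ ψ φ' ψ' : Coch S P} (h : Cohom F φ ψ)
    (h' : Cohom F φ' ψ') : Cohom F (φ + φ') (ψ + ψ') := by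
  obtain ⟨χ, h1, h2⟩ := h
  obtain ⟨χ', h3, h4⟩ := h'
  refine ⟨χ + χ', fun c => add_mem (h1 c) (h3 c), ?_⟩
  rw [dif_add, h2, h4]
  abel

theorem Cohom.mul {F : S → Subalgebra R P} (hF : Antitone F) {φ ψ φ' ψ' : Coch S P}
    (hψ : IsCocycle F ψ) (hφ' : IsCocycle F φ') (h : Cohom F φ ψ)
    (h' : Cohom F φ' ψ') : Cohom F (φ * φ') (ψ * ψ') := by
  obtain ⟨χ, h1, h2⟩ := h
  obtain ⟨χ', h3, h4⟩ := h'
  refine ⟨χ * φ' + eps ψ * χ', fun c => add_mem ((h1.mul hF hφ'.1) c)
    ((hψ.1.eps.mul hF h3) c), ?_⟩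
  rw [dif_add, dif_mul, dif_mul, hφ'.2, dif_eps, hψ.2, eps_eps, h2, h4]
  have he : eps (0 : Coch S P) = 0 := by
    refine Coch.ext fun c => ?_
    rw [eps_apply, zero_apply, mul_zero, neg_zero]
  rw [he]
  noncomm_ring

end

end Pool.Agent.TH541.KM
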