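import Pool.Agent.TH541.KM.D3
import Pool.Agent.TH541.KM.HS

set_option autoImplicit false

/-! # Finite generation of the cohomology ring implies finite generation as a module -/

namespace Pool.Agent.TH541.KM

open Finset

section tower

variable {S : Type*} [Preorder S] {P : Type*} [CommRing P]

instance {R R' : Type*} [CommSemiring R] [CommSemiring R'] [Algebra R R'] [Algebra R P]
    [Algebra R' P] [IsScalarTower R R' P] : IsScalarTower R R' (Coch S P) :=
  ⟨fun r r' φ => Coch.ext fun c => smul_assoc r r' (φ c)⟩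

end tower

section

variable {S : Type*} [PartialOrder S] {P : Type*} [CommRing P] {K : Type*} [Field K] [Algebra K P]
  {F : S → Subalgebra K P} {R₀ : Subalgebra K P}

/-- Cocycles as a module over the invariants. -/
noncomputable def ZZ (F : S → Subalgebra K P) (R₀ : Subalgebra K P) (hR : ∀ x, R₀ ≤ F x) :
    Submodule R₀ (Coch S P) where
  carrier := {φ | IsCochain F φ ∧ dif φ = 0}
  add_mem' := by
    rintro φ ψ ⟨h1, h2⟩ ⟨h3, h4⟩
    refine ⟨fun c => add_mem (h1 c) (h3 c), ?_⟩
    rw [dif_add, h2, h4, add_zero]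
  zero_mem' := ⟨fun c => zero_mem _, dif_zero⟩
  smul_mem' := by
    rintro r φ ⟨h1, h2⟩
    refine ⟨fun c => ?_, ?_⟩
    · rw [smul_apply]
      exact mul_mem (hR _ r.2) (h1 c)
    · rw [dif_smul, h2, smul_zero]

/-- Coboundaries as a module over the invariants. -/
noncomputable def BB (F : S → Subalgebra K P) (R₀ : Subalgebra K P) (hR : ∀ x, R₀ ≤ F x) :
    Submodule R₀ (Coch S P) where
  carrier := {φ | ∃ ψ, IsCochain F ψ ∧ dif ψ = φ}
  add_mem' := by
    rintro φ ψ ⟨a, h1, rfl⟩ ⟨b, h3, rfl⟩
    exact ⟨a + b, fun c => add_mem (h1 c) (h3 c), dif_add _ _⟩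
  zero_mem' := ⟨0, fun c => zero_mem _, dif_zero⟩
  smul_mem' := by
    rintro r φ ⟨a, h1, rfl⟩
    refine ⟨r • a, fun c => ?_, dif_smul r a⟩
    rw [smul_apply]
    exact mul_mem (hR _ r.2) (h1 c)

/-- Cochains as a module over the invariants. -/
noncomputable def CC (F : S → Subalgebra K P) (R₀ : Subalgebra K P) (hR : ∀ x, R₀ ≤ F x) :
    Submodule R₀ (Coch S P) where
  carrier := {φ | IsCochain F φ}
  add_mem' := fun h1 h3 c => add_mem (h1 c) (h3 c)
  zero_mem' := fun _ => zero_mem _
  smul_mem' := fun r _ h1 c => mul_mem (hR _ r.2) (h1 c)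

theorem length_pos (c : Ch S) : 0 < c.1.length := List.length_pos_iff.mpr c.2.1

/-- The product of `k` cochains that vanish in degree `0` vanishes in degrees `< k`. -/
theorem prod_vanish (l : List (Coch S P)) (hl : ∀ z ∈ l, ∀ c : Ch S, c.1.length = 1 → z c = 0)
    (c : Ch S) (hc : c.1.length ≤ l.length) : l.prod c = 0 := by
  induction l generalizing c with
  | nil =>
    have := length_pos c
    simp at hc
    exact absurd hc c.2.1
  | cons z l ih =>
    rw [List.prod_cons]
    show ∑ i ∈ range c.1.length, E z (c.1.take (i + 1)) * E l.prod (c.1.drop i) = 0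
    refine Finset.sum_eq_zero fun i hi => ?_
    rw [Finset.mem_range] at hi
    rcases Nat.eq_zero_or_pos i with h0 | h0
    · subst h0
      have h1 : (c.1.take (0 + 1)).length = 1 := by
        rw [List.length_take]
        have := length_pos c
        omega
      have h2 : c.1.take (0 + 1) ≠ [] := by
        intro h; rw [h] at h1; simp at h1
      have h3 : (c.1.take (0 + 1)).Pairwise (· < ·) := pw_of_sublist c.2.2 (List.take_sublist _ _)
      rw [E_of z ⟨h2, h3⟩, hl z (by simp) ⟨_, h2, h3⟩ h1, zero_mul]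
    · have h1 : (c.1.drop i).length = c.1.length - i := List.length_drop
      have h2 : c.1.drop i ≠ [] := by
        intro h; rw [h] at h1; simp at h1; omega
      have h3 : (c.1.drop i).Pairwise (· < ·) := pw_of_sublist c.2.2 (List.drop_sublist _ _)
      rw [E_of l.prod ⟨h2, h3⟩, ih (fun z hz => hl z (by simp [hz])) ⟨_, h2, h3⟩, mul_zero]
      show (c.1.drop i).length ≤ l.length
      rw [h1]
      rw [List.length_cons] at hc
      omega

theorem length_le_card [Fintype S] (c : Ch S) : c.1.length ≤ Fintype.card S := by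
  apply List.Nodup.length_le_card
  exact c.2.2.imp (fun h => ne_of_lt h)

/-- The value of a cocycle in degree zero is constant. -/
theorem cocycle_const {z : Coch S P} (hz : dif z = 0) (bot : S) (hbot : ∀ x, bot ≤ x) (x : S) :
    z ⟨[x], by simp, by simp⟩ = z ⟨[bot], by simp, by simp⟩ := by
  by_cases h : bot = x
  · subst h; rfl
  · have hlt : bot < x := lt_of_le_of_ne (hbot x) h
    have h1 : dif z ⟨[bot, x], by simp, by simp [hlt]⟩ = 0 := by rw [hz]; rfl
    rw [dif_apply] at h1
    simp only [ld_cons, ld_nil] at h1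
    rw [E_of z (l := [x]) ⟨by simp, by simp⟩, E_of z (l := [bot]) ⟨by simp, by simp⟩] at h1
    linear_combination h1

/-- The part of a cochain of positive degree. -/
noncomputable def plus (bot : S) (z : Coch S P) : Coch S P :=
  z - z ⟨[bot], by simp, by simp⟩ • (1 : Coch S P)

theorem plus_vanish {z : Coch S P} (hz : dif z = 0) (bot : S) (hbot : ∀ x, bot ≤ x) (c : Ch S)
    (hc : c.1.length = 1) : plus bot z c = 0 := by
  obtain ⟨l, h0, hl⟩ := c
  match l, h0, hl, hc with
  | [x], h0, hl, _ =>
    rw [plus, sub_apply, smul_apply, one_apply, cocycle_const hz bot hbot x]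
    simp [lone]

theorem fg_module [Finite S] (hF : Antitone F) (hR : ∀ x, R₀ ≤ F x)
    (hR' : ∀ p, (∀ x, p ∈ F x) → p ∈ R₀) (bot : S) (hbot : ∀ x, bot ≤ x)
    (h : Algebra.FiniteType K (Cohomology F hF)) :
    ∃ G : Finset (Coch S P), ZZ F R₀ hR ≤ BB F R₀ hR ⊔ Submodule.span R₀ (G : Set (Coch S P)) := by
  classical
  have : Fintype S := Fintype.ofFinite S
  have h' : Algebra.FiniteType K (cohomologous F hF).Quotient := h
  obtain ⟨T, hT⟩ := h'.out
  -- lifts of the generators
  set π : ↥(cocycles F hF) →ₐ[K] (cohomologous F hF).Quotient :=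
    RingCon.mkₐ K (cohomologous F hF) with hπ
  have hπs : Function.Surjective π := RingCon.mkₐ_surjective _
  choose lift hlift using hπs
  set Zs : Finset ↥(cocycles F hF) := T.image lift with hZs
  have hadj : (Algebra.adjoin K (Zs : Set ↥(cocycles F hF))).map π = ⊤ := by
    rw [AlgHom.map_adjoin, hZs, Finset.coe_image, ← Set.image_comp]
    have : (fun x => (π ∘ lift) x) = id := by
      funext x; exact hlift x
    rw [show (π ∘ lift) = id from this, Set.image_id]
    exact hT
  -- the plus parts
  set Pl : Finset (Coch S P) := Zs.image (fun z : ↥(cocycles F hF) => plus bot (z : Coch S P)) with hPl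
  have hPlv : ∀ z ∈ Pl, ∀ c : Ch S, c.1.length = 1 → z c = 0 := by
    intro z hz c hc
    obtain ⟨w, _, rfl⟩ := Finset.mem_image.mp hz
    exact plus_vanish w.2.2 bot hbot c hc
  set N := Fintype.card S with hN
  have hfin : Set.Finite {l : List ↥Pl | l.length ≤ N} := List.finite_length_le ↥Pl N
  set G : Finset (Coch S P) :=
    hfin.toFinset.image (fun l => (l.map Subtype.val).prod) with hG
  refine ⟨G, ?_⟩
  -- words are in the span of `G`
  have hword : ∀ w ∈ Submonoid.closure (Pl : Set (Coch S P)),
      w ∈ Submodule.span R₀ (G : Set (Coch S P)) := by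
    intro w hw
    obtain ⟨l, hl, rfl⟩ := Submonoid.exists_list_of_mem_closure hw
    by_cases hlen : l.length ≤ N
    · apply Submodule.subset_span
      rw [hG, Finset.mem_coe, Finset.mem_image]
      refine ⟨l.attach.map (fun z => (⟨z.1, hl z.1 z.2⟩ : ↥Pl)), ?_, ?_⟩
      · rw [Set.Finite.mem_toFinset, Set.mem_ofPred_eq, List.length_map, List.length_attach]
        exact hlen
      · rw [List.map_map]
        congr 1
        exact List.attach_map_subtype_val l
    · have : l.prod = 0 := by
        refine Coch.ext fun c => ?_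
        exact prod_vanish l (fun z hz => hPlv z (hl z hz)) c
          ((length_le_card c).trans (not_le.mp hlen).le)
      rw [this]
      exact zero_mem _
  have hspan : ∀ a ∈ Algebra.adjoin R₀ (Pl : Set (Coch S P)),
      a ∈ Submodule.span R₀ (G : Set (Coch S P)) := by
    intro a ha
    have h1 : a ∈ Subalgebra.toSubmodule (Algebra.adjoin R₀ (Pl : Set (Coch S P))) := ha
    rw [Algebra.adjoin_eq_span] at h1
    exact (Submodule.span_le.mpr hword) h1
  have hval : ∀ z ∈ Zs, (z : Coch S P) ∈ Algebra.adjoin R₀ (Pl : Set (Coch S P)) := by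
    intro z hz
    have hmem : (z : Coch S P) ⟨[bot], by simp, by simp⟩ ∈ R₀ := by
      apply hR'
      intro x
      rw [← cocycle_const z.2.2 bot hbot x]
      exact z.2.1 ⟨[x], by simp, by simp⟩
    have h1 : (z : Coch S P) = plus bot (z : Coch S P) +
        algebraMap R₀ (Coch S P) ⟨_, hmem⟩ := by
      rw [Algebra.algebraMap_eq_smul_one, plus]
      refine Coch.ext fun c => ?_
      rw [add_apply, sub_apply, smul_apply, smul_apply]
      exact (sub_add_cancel _ _).symm
    rw [h1]
    refine add_mem (Algebra.subset_adjoin ?_) (Subalgebra.algebraMap_mem _ _)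
    exact Finset.mem_coe.mpr (Finset.mem_image_of_mem _ hz)
  have hadj2 : ∀ a ∈ Algebra.adjoin K (Zs : Set ↥(cocycles F hF)),
      (a : Coch S P) ∈ Algebra.adjoin R₀ (Pl : Set (Coch S P)) := by
    intro a ha
    induction ha using Algebra.adjoin_induction with
    | mem x hx => exact hval x (Finset.mem_coe.mp hx)
    | algebraMap r =>
      have : ((algebraMap K ↥(cocycles F hF) r : ↥(cocycles F hF)) : Coch S P) =
          algebraMap R₀ (Coch S P) (algebraMap K R₀ r) := by
        rw [← IsScalarTower.algebraMap_apply]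
        rfl
      rw [this]
      exact Subalgebra.algebraMap_mem _ _
    | add x y _ _ hx hy => exact add_mem hx hy
    | mul x y _ _ hx hy => exact mul_mem hx hy
  rintro z ⟨hz1, hz2⟩
  have hz : π ⟨z, hz1, hz2⟩ ∈ (Algebra.adjoin K (Zs : Set ↥(cocycles F hF))).map π := by
    rw [hadj]; trivial
  obtain ⟨a, ha, hae⟩ := hz
  have hrel : (cohomologous F hF) a ⟨z, hz1, hz2⟩ := by
    rw [← RingCon.eq]
    exact hae
  obtain ⟨ψ, hψ, hd⟩ := hrel
  have h1 : z = dif (-ψ) + (a : Coch S P) := by
    rw [dif_negg, hd]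
    show z = -((a : Coch S P) - z) + a
    abel
  rw [h1]
  refine add_mem (Submodule.mem_sup_left ⟨-ψ, fun c => neg_mem (hψ c), rfl⟩)
    (Submodule.mem_sup_right (hspan _ (hadj2 a ha)))

end

end Pool.Agent.TH541.KM
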