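import Pool.Agent.TH541.KM.Mol1

set_option autoImplicit false

/-! # Molien's formula for finite groups of rational matrices -/

namespace Pool.Agent.TH541.KM

open MvPolynomial Matrix Module

set_option linter.unusedSectionVars false

variable {ι : Type*} [Fintype ι] [DecidableEq ι]

theorem diag_of_pow_eq_one (G : Matrix ι ι ℂ) (N : ℕ) (hN : 0 < N) (hG : G ^ N = 1) :
    ∃ (B B' : Matrix ι ι ℂ) (d : ι → ℂ), B' * B = 1 ∧ B * B' = 1 ∧
      G = B * Matrix.diagonal d * B' := by
  classical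
  set f : Module.End ℂ (ι → ℂ) := Matrix.toLin' G with hf
  have hfN : f ^ N = 1 := by
    rw [hf, ← Matrix.toLin'_pow, hG, Matrix.toLin'_one]
    rfl
  have hsep : (Polynomial.X ^ N - 1 : Polynomial ℂ).Separable := by
    rw [Polynomial.X_pow_sub_one_separable_iff]
    exact_mod_cast hN.ne'
  have hss : f.IsSemisimple := by
    apply Module.End.isSemisimple_of_squarefree_aeval_eq_zero hsep.squarefree
    simp [hfN]
  have htop := hss.iSup_eigenspace_eq_top
  have hint : DirectSum.IsInternal f.eigenspace :=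
    DirectSum.isInternal_submodule_of_iSupIndep_of_iSup_eq_top f.eigenspaces_iSupIndep htop
  set b0 := hint.collectedBasis (fun μ => Module.finBasis ℂ (f.eigenspace μ)) with hb0
  have hfin : Finite (Σ μ : ℂ, Fin (Module.finrank ℂ (f.eigenspace μ))) :=
    Module.Finite.finite_basis b0
  have : Fintype (Σ μ : ℂ, Fin (Module.finrank ℂ (f.eigenspace μ))) := Fintype.ofFinite _
  have hcard : Fintype.card (Σ μ : ℂ, Fin (Module.finrank ℂ (f.eigenspace μ))) =
      Fintype.card ι := by
    rw [← Module.finrank_eq_card_basis b0, Module.finrank_fintype_fun_eq_card]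
  have e := Fintype.equivOfCardEq hcard
  set b : Module.Basis ι ℂ (ι → ℂ) := b0.reindex e with hb
  set d : ι → ℂ := fun i => (e.symm i).1 with hd
  have hbi : ∀ i, G.mulVec (b i) = d i • b i := by
    intro i
    have h1 : b i = b0 (e.symm i) := by rw [hb, Module.Basis.reindex_apply]
    have h2 : b i ∈ f.eigenspace (d i) := by
      rw [h1]
      exact hint.collectedBasis_mem _ _
    rw [Module.End.mem_eigenspace_iff, hf, Matrix.toLin'_apply] at h2
    exact h2
  set B : Matrix ι ι ℂ := (Pi.basisFun ℂ ι).toMatrix b with hB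
  set B' : Matrix ι ι ℂ := b.toMatrix (Pi.basisFun ℂ ι) with hB'
  have h1 : B' * B = 1 := Module.Basis.toMatrix_mul_toMatrix_flip _ _
  have h2 : B * B' = 1 := Module.Basis.toMatrix_mul_toMatrix_flip _ _
  have h3 : G * B = B * Matrix.diagonal d := by
    ext i j
    have h4 := congrFun (hbi j) i
    rw [Matrix.mul_diagonal, Matrix.mul_apply]
    simp only [hB, Module.Basis.toMatrix_apply, Pi.basisFun_repr]
    rw [Matrix.mulVec, dotProduct] at h4
    rw [h4, Pi.smul_apply, smul_eq_mul, mul_comm]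
  refine ⟨B, B', d, h1, h2, ?_⟩
  rw [← h3, Matrix.mul_assoc, h2, Matrix.mul_one]

theorem tau_mul_charpolyRev_complex (G : Matrix ι ι ℂ) (N : ℕ) (hN : 0 < N) (hG : G ^ N = 1) :
    tau G * (G.charpolyRev : PowerSeries ℂ) = 1 := by
  obtain ⟨B, B', d, h1, _, h3⟩ := diag_of_pow_eq_one G N hN hG
  rw [h3]
  exact tau_mul_charpolyRev_of_diag B _ B' d rfl h1

theorem tau_map {R S : Type*} [CommRing R] [CommRing S] (φ : R →+* S) (g : Matrix ι ι R) :
    tau (g.map φ) = PowerSeries.map φ (tau g) := by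
  ext k
  rw [coeff_tau, PowerSeries.coeff_map, coeff_tau, Mk_map, Matrix.trace, Matrix.trace, map_sum]
  rfl

theorem charpolyRev_map {R S : Type*} [CommRing R] [CommRing S] (φ : R →+* S)
    (g : Matrix ι ι R) : (g.map φ).charpolyRev = g.charpolyRev.map φ := by
  rw [Matrix.charpolyRev, Matrix.charpolyRev, ← Polynomial.coe_mapRingHom, RingHom.map_det]
  congr 1
  ext i j : 2
  rw [RingHom.mapMatrix_apply, Matrix.map_apply]
  simp only [Matrix.sub_apply, Matrix.smul_apply, Matrix.map_apply, smul_eq_mul, map_sub, map_mul,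
    Polynomial.coe_mapRingHom, Polynomial.map_X, Polynomial.map_C]
  congr 1
  by_cases h : i = j
  · subst h; simp
  · simp [Matrix.one_apply_ne h]

theorem tau_mul_charpolyRev (g : Matrix ι ι ℚ) (N : ℕ) (hN : 0 < N) (hG : g ^ N = 1) :
    tau g * (g.charpolyRev : PowerSeries ℚ) = 1 := by
  have hinj : Function.Injective (PowerSeries.map (algebraMap ℚ ℂ)) := by
    intro a b h
    ext k
    have := congrArg (PowerSeries.coeff k) h
    rw [PowerSeries.coeff_map, PowerSeries.coeff_map] at this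
    exact (algebraMap ℚ ℂ).injective this
  apply hinj
  rw [map_mul, map_one, ← tau_map, ← Polynomial.polynomial_map_coe, ← charpolyRev_map]
  apply tau_mul_charpolyRev_complex _ N hN
  have : (g.map (algebraMap ℚ ℂ)) ^ N = (g ^ N).map (algebraMap ℚ ℂ) := by
    have := (map_pow (RingHom.mapMatrix (m := ι) (algebraMap ℚ ℂ)) g N).symm
    simpa using this
  rw [this, hG]
  exact Matrix.map_one _ (map_zero _) (map_one _)

theorem natDegree_charpolyRev (g : Matrix ι ι ℚ) (h : IsUnit g.det) :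
    g.charpolyRev.natDegree = Fintype.card ι ∧ g.charpolyRev ≠ 0 := by
  have hc : g.charpoly.coeff 0 ≠ 0 := by
    rw [Matrix.det_eq_sign_charpoly_coeff] at h
    intro h0
    rw [h0, mul_zero] at h
    exact not_isUnit_zero h
  have h1 : g.charpoly ≠ 0 := g.charpoly_monic.ne_zero
  constructor
  · have h0 : g.charpoly.natTrailingDegree = 0 :=
      Nat.eq_zero_of_le_zero (Polynomial.natTrailingDegree_le_of_ne_zero hc)
    rw [← Matrix.reverse_charpoly, Polynomial.reverse_natDegree, h0, Nat.sub_zero,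
      Matrix.charpoly_natDegree_eq_dim]
  · rw [← Matrix.reverse_charpoly]
    intro h0
    exact h1 (Polynomial.reverse_eq_zero.mp h0)

/-- Embedding of coefficient vectors. -/
noncomputable def emb (ι : Type*) [Fintype ι] [DecidableEq ι] (k : ℕ) :
    (Idx ι k → ℚ) →ₗ[ℚ] MvPolynomial ι ℚ where
  toFun v := ∑ s : Idx ι k, monomial s.1 (v s)
  map_add' v w := by
    rw [← Finset.sum_add_distrib]
    exact Finset.sum_congr rfl fun s _ => by rw [Pi.add_apply, map_add]
  map_smul' c v := by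
    rw [RingHom.id_apply, Finset.smul_sum]
    exact Finset.sum_congr rfl fun s _ => by rw [Pi.smul_apply, smul_monomial]

theorem emb_apply (k : ℕ) (v : Idx ι k → ℚ) : emb ι k v = ∑ s : Idx ι k, monomial s.1 (v s) := rfl

theorem coeff_emb (k : ℕ) (v : Idx ι k → ℚ) (s : Idx ι k) : coeff s.1 (emb ι k v) = v s := by
  classical
  rw [emb_apply, coeff_sum, Finset.sum_eq_single s]
  · rw [coeff_monomial, if_pos rfl]
  · intro b _ hb
    rw [coeff_monomial, if_neg]
    intro h; exact hb (Subtype.ext h)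
  · intro h; exact absurd (Finset.mem_univ _) h

theorem emb_injective (k : ℕ) : Function.Injective (emb ι k) := by
  intro v w h
  funext s
  rw [← coeff_emb k v s, ← coeff_emb k w s, h]

theorem emb_mem (k : ℕ) (v : Idx ι k → ℚ) : emb ι k v ∈ homogeneousSubmodule ι ℚ k := by
  rw [mem_homogeneousSubmodule, emb_apply]
  exact IsHomogeneous.sum _ _ _ fun s _ => monomial_homog s _

theorem range_emb (k : ℕ) : LinearMap.range (emb ι k) = homogeneousSubmodule ι ℚ k := by
  apply le_antisymm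
  · rintro _ ⟨v, rfl⟩
    exact emb_mem k v
  · intro p hp
    rw [mem_homogeneousSubmodule] at hp
    exact ⟨fun s => coeff s.1 p, (expand hp).symm⟩

theorem finite_homog (k : ℕ) : FiniteDimensional ℚ (homogeneousSubmodule ι ℚ k) := by
  rw [← range_emb]
  infer_instance

theorem TT_emb (k : ℕ) (g : Matrix ι ι ℚ) (v : Idx ι k → ℚ) :
    TT g (emb ι k v) = emb ι k ((Mk k g).mulVec v) := by
  rw [emb_apply, emb_apply, map_sum]
  simp only [TT_monomial]
  rw [Finset.sum_comm]
  refine Finset.sum_congr rfl fun s _ => ?_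
  rw [Matrix.mulVec, dotProduct, map_sum]

/-- Invariants of a set of matrices. -/
noncomputable def InvS (Γ : Submonoid (Matrix ι ι ℚ)) : Submodule ℚ (MvPolynomial ι ℚ) where
  carrier := {p | ∀ g ∈ Γ, TT g p = p}
  add_mem' := fun ha hb g hg => by rw [map_add, ha g hg, hb g hg]
  zero_mem' := fun g _ => map_zero _
  smul_mem' := fun c p hp g hg => by rw [map_smul, hp g hg]

/-- **Molien's formula**, coefficient by coefficient. -/
theorem molien (k : ℕ) (Γ : Submonoid (Matrix ι ι ℚ)) [Fintype Γ]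
    (hinv : ∀ g ∈ Γ, ∃ h ∈ Γ, h * g = 1) :
    (Fintype.card Γ : ℚ) * (Module.finrank ℚ ↥(homogeneousSubmodule ι ℚ k ⊓ InvS Γ) : ℚ) =
      ∑ g : Γ, (Mk k g.1).trace := by
  classical
  set U : Submodule ℚ (Idx ι k → ℚ) :=
    ⨅ g : Γ, LinearMap.ker (Matrix.toLin' (Mk k g.1) - LinearMap.id) with hU
  have hmemU : ∀ v, v ∈ U ↔ ∀ g : Γ, (Mk k g.1).mulVec v = v := by
    intro v
    rw [hU, Submodule.mem_iInf]
    refine forall_congr' fun g => ?_
    rw [LinearMap.mem_ker, LinearMap.sub_apply, Matrix.toLin'_apply, LinearMap.id_apply,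
      sub_eq_zero]
  have hmap : U.map (emb ι k) = homogeneousSubmodule ι ℚ k ⊓ InvS Γ := by
    ext p
    rw [Submodule.mem_map, Submodule.mem_inf]
    constructor
    · rintro ⟨v, hv, rfl⟩
      refine ⟨emb_mem k v, fun g hg => ?_⟩
      rw [TT_emb]
      have := (hmemU v).mp hv ⟨g, hg⟩
      exact congrArg _ this
    · rintro ⟨hp, hinv⟩
      rw [mem_homogeneousSubmodule] at hp
      refine ⟨fun s => coeff s.1 p, ?_, (expand hp).symm⟩
      have hpe : emb ι k (fun s => coeff s.1 p) = p := (expand hp).symm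
      rw [hmemU]
      intro g
      apply emb_injective k
      rw [← TT_emb, hpe]
      exact hinv g.1 g.2
  have hrank : Module.finrank ℚ ↥(homogeneousSubmodule ι ℚ k ⊓ InvS Γ) =
      Module.finrank ℚ U := by
    rw [← hmap]
    exact (LinearEquiv.finrank_eq (Submodule.equivMapOfInjective (emb ι k) (emb_injective k) U)).symm
  have hc : (Fintype.card Γ : ℚ) ≠ 0 := by
    have : 0 < Fintype.card Γ := Fintype.card_pos
    exact_mod_cast this.ne'
  set P : Matrix (Idx ι k) (Idx ι k) ℚ := (Fintype.card Γ : ℚ)⁻¹ • ∑ g : Γ, Mk k g.1 with hP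
  have hbij : ∀ g : Γ, Function.Bijective (fun h : Γ => h * g) := by
    intro g
    rw [← Finite.injective_iff_bijective]
    intro a b hab
    obtain ⟨h, hh, hhg⟩ := hinv g.1 g.2
    have hgh : g.1 * h = 1 := mul_eq_one_comm.mp hhg
    apply Subtype.ext
    have h1 : a.1 * g.1 = b.1 * g.1 := congrArg Subtype.val hab
    calc a.1 = a.1 * g.1 * h := by rw [Matrix.mul_assoc, hgh, Matrix.mul_one]
      _ = b.1 * g.1 * h := by rw [h1]
      _ = b.1 := by rw [Matrix.mul_assoc, hgh, Matrix.mul_one]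
  have hproj : LinearMap.IsProj U (Matrix.toLin' P) := by
    constructor
    · intro v
      rw [hmemU, Matrix.toLin'_apply, hP]
      intro g
      rw [Matrix.smul_mulVec, Matrix.mulVec_smul, Matrix.mulVec_mulVec, Finset.mul_sum]
      congr 2
      have h1 : ∀ h : Γ, Mk k g.1 * Mk k h.1 = Mk k (h * g).1 := by
        intro h
        rw [← Mk_mul]
        rfl
      simp only [h1]
      exact Fintype.sum_bijective (fun h : Γ => h * g) (hbij g) _ _ fun h => rfl
    · intro v hv
      rw [hmemU] at hv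
      rw [Matrix.toLin'_apply, hP, Matrix.smul_mulVec, Matrix.sum_mulVec]
      simp only [hv]
      rw [Finset.sum_const, Finset.card_univ, ← Nat.cast_smul_eq_nsmul ℚ, smul_smul,
        inv_mul_cancel₀ hc, one_smul]
  have htr := hproj.trace
  rw [Matrix.trace_toLin'_eq] at htr
  rw [hrank, ← htr, hP, Matrix.trace_smul, Matrix.trace_sum, smul_eq_mul, ← mul_assoc,
    mul_inv_cancel₀ hc, one_mul]

/-- Hilbert series of the invariants. -/
noncomputable def hilb (Γ : Submonoid (Matrix ι ι ℚ)) : PowerSeries ℚ :=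
  PowerSeries.mk fun k => (Module.finrank ℚ ↥(homogeneousSubmodule ι ℚ k ⊓ InvS Γ) : ℚ)

theorem molien_series (Γ : Submonoid (Matrix ι ι ℚ)) [Fintype Γ]
    (hinv : ∀ g ∈ Γ, ∃ h ∈ Γ, h * g = 1) :
    PowerSeries.C (Fintype.card Γ : ℚ) * hilb Γ = ∑ g : Γ, tau g.1 := by
  refine PowerSeries.ext fun k => ?_
  rw [PowerSeries.coeff_C_mul, hilb, PowerSeries.coeff_mk, map_sum, molien k Γ hinv]
  simp only [coeff_tau]

/-- `f` is a rational function of degree at most `-N`. -/
def NegDeg (N : ℕ) (f : PowerSeries ℚ) : Prop :=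
  ∃ p D : Polynomial ℚ, D ≠ 0 ∧ f * (D : PowerSeries ℚ) = (p : PowerSeries ℚ) ∧
    p.natDegree + N ≤ D.natDegree

theorem NegDeg.zero (N : ℕ) : NegDeg N 0 :=
  ⟨0, Polynomial.X ^ N, pow_ne_zero _ Polynomial.X_ne_zero, by simp, by simp⟩

theorem NegDeg.add {N : ℕ} {f g : PowerSeries ℚ} (hf : NegDeg N f) (hg : NegDeg N g) :
    NegDeg N (f + g) := by
  obtain ⟨p, D, hD, h1, h2⟩ := hf
  obtain ⟨q, E, hE, h3, h4⟩ := hg
  refine ⟨p * E + q * D, D * E, mul_ne_zero hD hE, ?_, ?_⟩
  · push_cast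
    rw [← h1, ← h3]
    ring
  · rw [Polynomial.natDegree_mul hD hE]
    have h5 := Polynomial.natDegree_add_le (p * E) (q * D)
    have h6 := Polynomial.natDegree_mul_le (p := p) (q := E)
    have h7 := Polynomial.natDegree_mul_le (p := q) (q := D)
    rcases le_max_iff.mp h5 with h | h <;> omega

theorem NegDeg.C_mul {N : ℕ} {f : PowerSeries ℚ} (a : ℚ) (hf : NegDeg N f) :
    NegDeg N (PowerSeries.C a * f) := by
  obtain ⟨p, D, hD, h1, h2⟩ := hf
  refine ⟨Polynomial.C a * p, D, hD, ?_, ?_⟩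
  · push_cast
    rw [mul_assoc, h1]
  · have := Polynomial.natDegree_C_mul_le a p
    omega

theorem NegDeg.sum {N : ℕ} {κ : Type*} (s : Finset κ) (f : κ → PowerSeries ℚ)
    (h : ∀ i ∈ s, NegDeg N (f i)) : NegDeg N (∑ i ∈ s, f i) := by
  classical
  induction s using Finset.induction_on with
  | empty => rw [Finset.sum_empty]; exact NegDeg.zero N
  | insert i s hi ih =>
    rw [Finset.sum_insert hi]
    exact (h i (Finset.mem_insert_self i s)).add
      (ih fun j hj => h j (Finset.mem_insert_of_mem hj))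

theorem exists_pow_eq_one (Γ : Submonoid (Matrix ι ι ℚ)) [Finite Γ]
    (hinv : ∀ g ∈ Γ, ∃ h ∈ Γ, h * g = 1) (g : Matrix ι ι ℚ) (hg : g ∈ Γ) :
    ∃ N, 0 < N ∧ g ^ N = 1 := by
  obtain ⟨h, _, hhg⟩ := hinv g hg
  obtain ⟨a, b, hab, he⟩ := Finite.exists_ne_map_eq_of_infinite
    (fun k : ℕ => (⟨g ^ k, pow_mem hg k⟩ : Γ))
  have he' : g ^ a = g ^ b := congrArg Subtype.val he
  have hcancel : ∀ k, h ^ k * g ^ k = 1 := by
    intro k
    induction k with
    | zero => simp
    | succ k ih =>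
      rw [pow_succ h, pow_succ' g]
      calc h ^ k * h * (g * g ^ k) = h ^ k * (h * g) * g ^ k := by
            simp only [Matrix.mul_assoc]
        _ = 1 := by rw [hhg, Matrix.mul_one, ih]
  have key : ∀ a b : ℕ, a < b → g ^ a = g ^ b → ∃ N, 0 < N ∧ g ^ N = 1 := by
    intro a b hab he
    refine ⟨b - a, by omega, ?_⟩
    have h1 : g ^ b = g ^ a * g ^ (b - a) := by rw [← pow_add]; congr 1; omega
    calc g ^ (b - a) = h ^ a * g ^ a * g ^ (b - a) := by rw [hcancel, Matrix.one_mul]
      _ = h ^ a * g ^ b := by rw [Matrix.mul_assoc, ← h1]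
      _ = 1 := by rw [← he, hcancel]
  rcases lt_or_gt_of_ne hab with h | h
  · exact key a b h he'
  · exact key b a h he'.symm

theorem negDeg_tau (g : Matrix ι ι ℚ) (N : ℕ) (hN : 0 < N) (hG : g ^ N = 1) :
    NegDeg (Fintype.card ι) (tau g) := by
  have hdet : IsUnit g.det := by
    have h1 : g.det ^ N = 1 := by rw [← Matrix.det_pow, hG, Matrix.det_one]
    exact IsUnit.of_pow_eq_one h1 hN.ne'
  obtain ⟨h1, h2⟩ := natDegree_charpolyRev g hdet
  refine ⟨1, g.charpolyRev, h2, ?_, ?_⟩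
  · rw [tau_mul_charpolyRev g N hN hG]; simp
  · rw [h1]; simp

theorem negDeg_hilb (Γ : Submonoid (Matrix ι ι ℚ)) [Finite Γ]
    (hinv : ∀ g ∈ Γ, ∃ h ∈ Γ, h * g = 1) : NegDeg (Fintype.card ι) (hilb Γ) := by
  classical
  have : Fintype Γ := Fintype.ofFinite Γ
  have hc : (Fintype.card Γ : ℚ) ≠ 0 := by
    have : 0 < Fintype.card Γ := Fintype.card_pos
    exact_mod_cast this.ne'
  have h1 : hilb Γ = PowerSeries.C ((Fintype.card Γ : ℚ)⁻¹) * ∑ g : Γ, tau g.1 := by
    rw [← molien_series Γ hinv, ← mul_assoc, ← map_mul, inv_mul_cancel₀ hc, map_one, one_mul]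
  rw [h1]
  apply NegDeg.C_mul
  apply NegDeg.sum
  intro g _
  obtain ⟨N, hN, hg⟩ := exists_pow_eq_one Γ hinv g.1 g.2
  exact negDeg_tau g.1 N hN hg

/-- The final comparison of degrees. -/
theorem NegDeg.eq_zero {N : ℕ} {f : PowerSeries ℚ} (hf : NegDeg N f) (q p' : Polynomial ℚ)
    (hq : q.natDegree < N) (h : (q : PowerSeries ℚ) * f = (p' : PowerSeries ℚ)) : p' = 0 := by
  obtain ⟨p, D, hD, h1, h2⟩ := hf
  by_contra hp'
  have h3 : ((p' * D : Polynomial ℚ) : PowerSeries ℚ) = ((q * p : Polynomial ℚ) : PowerSeries ℚ) := by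
    push_cast
    rw [← h, mul_assoc, h1]
  have h4 : p' * D = q * p := Polynomial.coe_injective ℚ h3
  have h5 := Polynomial.natDegree_mul hp' hD
  have h6 := Polynomial.natDegree_mul_le (p := q) (q := p)
  rw [h4] at h5
  omega

end Pool.Agent.TH541.KM
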