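import Pool.Agent.TH541.KM.Main1
import Pool.Agent.TH541.KM.Mol2

set_option autoImplicit false

/-! # Grading, parity and Euler characteristic of the cochain complex -/

namespace Pool.Agent.TH541.KM

open Finset MvPolynomial Module

set_option linter.unusedSectionVars false

section

variable {S : Type*} [PartialOrder S]

instance [Finite S] : Finite (Ch S) := by
  classical
  have : Fintype S := Fintype.ofFinite S
  exact Finite.of_injective (β := {l : List S // l.Nodup})
    (fun c => ⟨c.1, c.2.2.imp (fun h => ne_of_lt h)⟩)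
    (fun a b h => Subtype.ext (congrArg (fun x : {l : List S // l.Nodup} => x.1) h))

end

section euler

variable {S : Type*} [PartialOrder S]

open Classical in
/-- Toggle the presence of `bot` in a list. -/
noncomputable def tg (bot : S) : List S → List S
  | [] => []
  | (x :: l) => if x = bot then l else bot :: x :: l

theorem tg_prop (bot : S) (hbot : ∀ x, bot ≤ x) (l : List S)
    (h : l ≠ [] ∧ l.Pairwise (· < ·)) (hne : l ≠ [bot]) :
    (tg bot l ≠ [] ∧ (tg bot l).Pairwise (· < ·)) ∧ tg bot l ≠ [bot] ∧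
      ((-1 : ℚ) ^ (l.length + 1) + (-1) ^ ((tg bot l).length + 1) = 0) ∧
      tg bot (tg bot l) = l ∧ tg bot l ≠ l := by
  classical
  obtain ⟨h0, hp⟩ := h
  cases l with
  | nil => exact absurd rfl h0
  | cons x l =>
    rw [List.pairwise_cons] at hp
    by_cases hx : x = bot
    · subst hx
      have h1 : tg x (x :: l) = l := by simp [tg]
      have h2 : l ≠ [] := by rintro rfl; exact hne rfl
      rw [h1]
      cases l with
      | nil => exact absurd rfl h2
      | cons y l =>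
        have hy : y ≠ x := (ne_of_lt (hp.1 y (by simp))).symm
        refine ⟨⟨h2, hp.2⟩, ?_, ?_, ?_, ?_⟩
        · intro h; exact hy (List.cons.inj h).1
        · simp only [List.length_cons]; ring
        · simp [tg, hy]
        · intro h
          have := congrArg List.length h
          simp at this
    · have h1 : tg bot (x :: l) = bot :: x :: l := by simp [tg, hx]
      have hlt : bot < x := lt_of_le_of_ne (hbot x) (Ne.symm hx)
      rw [h1]
      refine ⟨⟨by simp, ?_⟩, by simp, ?_, ?_, ?_⟩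
      · rw [List.pairwise_cons, List.pairwise_cons]
        refine ⟨?_, hp⟩
        intro y hy
        rcases List.mem_cons.mp hy with rfl | hy
        · exact hlt
        · exact hlt.trans (hp.1 y hy)
      · simp only [List.length_cons]; ring
      · simp [tg]
      · intro h
        have := congrArg List.length h
        simp at this

/-- The Euler characteristic of the nerve of a partially ordered set with a least element. -/
theorem euler_char [Finite S] [Fintype (Ch S)] (bot : S) (hbot : ∀ x, bot ≤ x) :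
    ∑ c : Ch S, (-1 : ℚ) ^ (c.1.length + 1) = 1 := by
  classical
  set c₀ : Ch S := ⟨[bot], by simp, by simp⟩ with hc₀
  rw [← Finset.add_sum_erase Finset.univ _ (Finset.mem_univ c₀)]
  have h0 : ∑ c ∈ Finset.univ.erase c₀, (-1 : ℚ) ^ (c.1.length + 1) = 0 := by
    have hne : ∀ c ∈ Finset.univ.erase c₀, c.1 ≠ [bot] := by
      intro c hc h
      rw [Finset.mem_erase] at hc
      exact hc.1 (Subtype.ext h)
    refine Finset.sum_involution
      (fun c hc => (⟨tg bot c.1, (tg_prop bot hbot c.1 c.2 (hne c hc)).1⟩ : Ch S)) ?_ ?_ ?_ ?_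
    · intro c hc
      exact (tg_prop bot hbot c.1 c.2 (hne c hc)).2.2.1
    · intro c hc _ h
      exact (tg_prop bot hbot c.1 c.2 (hne c hc)).2.2.2.2 (congrArg Subtype.val h)
    · intro c hc
      rw [Finset.mem_erase]
      refine ⟨fun h => ?_, Finset.mem_univ _⟩
      exact (tg_prop bot hbot c.1 c.2 (hne c hc)).2.1 (congrArg Subtype.val h)
    · intro c hc
      exact Subtype.ext (tg_prop bot hbot c.1 c.2 (hne c hc)).2.2.2.1
  rw [h0, add_zero]
  show (-1 : ℚ) ^ (1 + 1) = 1
  norm_num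

end euler

section grading

variable {S : Type*} [PartialOrder S] {σ : Type*} [Fintype σ] [DecidableEq σ]

/-- The projection of cochains to polynomial degree `m`. -/
noncomputable def cpr (S : Type*) [PartialOrder S] (σ : Type*) (m : ℕ) :
    Coch S (MvPolynomial σ ℚ) →ₗ[ℚ] Coch S (MvPolynomial σ ℚ) where
  toFun φ := ⟨fun c => homogeneousComponent m (φ c)⟩
  map_add' φ ψ := Coch.ext fun c => by
    show homogeneousComponent m (φ c + ψ c) = _
    rw [map_add]; rfl
  map_smul' a φ := Coch.ext fun c => by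
    show homogeneousComponent m (a • φ c) = _
    rw [map_smul]; rfl

theorem cpr_apply (m : ℕ) (φ : Coch S (MvPolynomial σ ℚ)) (c : Ch S) :
    cpr S σ m φ c = homogeneousComponent m (φ c) := rfl

theorem hc_hc (m m' : ℕ) (p : MvPolynomial σ ℚ) :
    homogeneousComponent m (homogeneousComponent m' p) =
      if m = m' then homogeneousComponent m' p else 0 :=
  homogeneousComponent_of_mem (homogeneousComponent_mem m' p)

/-- The grading of the cochains by polynomial degree. -/
noncomputable def cgr (S : Type*) [PartialOrder S] [Finite S] (σ : Type*) [Fintype σ]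
    [DecidableEq σ] : Grading ℚ (Coch S (MvPolynomial σ ℚ)) where
  pr := cpr S σ
  idem m φ := Coch.ext fun c => by rw [cpr_apply, cpr_apply, hc_hc, if_pos rfl]
  orth m m' φ h := Coch.ext fun c => by
    rw [cpr_apply, cpr_apply, hc_hc, if_neg h]; rfl
  sum_pr φ := by
    classical
    have : Fintype (Ch S) := Fintype.ofFinite _
    refine ⟨Finset.univ.sup (fun c : Ch S => (φ c).totalDegree + 1), Coch.ext fun c => ?_⟩
    set N := Finset.univ.sup (fun c : Ch S => (φ c).totalDegree + 1) with hN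
    have h1 : ∀ s : Finset ℕ, (∑ m ∈ s, cpr S σ m φ) c = ∑ m ∈ s, homogeneousComponent m (φ c) := by
      intro s
      induction s using Finset.induction_on with
      | empty => rfl
      | insert a s ha ih => rw [Finset.sum_insert ha, Finset.sum_insert ha, add_apply, ih]; rfl
    rw [h1]
    have h2 : (φ c).totalDegree + 1 ≤ N :=
      Finset.le_sup (f := fun c : Ch S => (φ c).totalDegree + 1) (Finset.mem_univ c)
    rw [← Finset.sum_subset (Finset.range_subset_range.mpr h2), sum_homogeneousComponent]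
    intro m _ hm
    rw [Finset.mem_range, not_lt] at hm
    exact homogeneousComponent_eq_zero _ _ (by omega)
  fin m := by
    have := finite_homog (ι := σ) m
    set J : (Ch S → ↥(homogeneousSubmodule σ ℚ m)) →ₗ[ℚ] Coch S (MvPolynomial σ ℚ) :=
      { toFun := fun y => ⟨fun c => (y c : MvPolynomial σ ℚ)⟩
        map_add' := fun _ _ => rfl
        map_smul' := fun _ _ => rfl } with hJ
    have hle : LinearMap.range (cpr S σ m) ≤ LinearMap.range J := by
      rintro _ ⟨φ, rfl⟩
      exact ⟨fun c => ⟨homogeneousComponent m (φ c), homogeneousComponent_mem m (φ c)⟩, rfl⟩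
    exact Submodule.finiteDimensional_of_le hle

theorem cgr_pr [Finite S] (m : ℕ) (φ : Coch S (MvPolynomial σ ℚ)) :
    (cgr S σ).pr m φ = cpr S σ m φ := rfl

end grading

section parity

variable {S : Type*} [PartialOrder S] {P : Type*} [CommRing P]

/-- Restriction of a cochain to the chains whose length has residue `b` modulo two. -/
def pj (b : ℕ) (φ : Coch S P) : Coch S P := ⟨fun c => if c.1.length % 2 = b then φ c else 0⟩

theorem pj_apply (b : ℕ) (φ : Coch S P) (c : Ch S) :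
    pj b φ c = if c.1.length % 2 = b then φ c else 0 := rfl

theorem pj_add (b : ℕ) (φ ψ : Coch S P) : pj b (φ + ψ) = pj b φ + pj b ψ := by
  refine Coch.ext fun c => ?_
  rw [add_apply, pj_apply, pj_apply, pj_apply, add_apply]
  split_ifs
  · rfl
  · rw [add_zero]

theorem pj_smul {R : Type*} [Semiring R] [Module R P] (b : ℕ) (r : R) (φ : Coch S P) :
    pj b (r • φ) = r • pj b φ := by
  refine Coch.ext fun c => ?_
  rw [smul_apply, pj_apply, pj_apply, smul_apply]
  split_ifs
  · rfl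
  · rw [smul_zero]

theorem E_pj (b : ℕ) (φ : Coch S P) (l : List S) :
    E (pj b φ) l = if l.length % 2 = b then E φ l else 0 := by
  by_cases h : l ≠ [] ∧ l.Pairwise (· < ·)
  · rw [E_of _ h, E_of _ h, pj_apply]
  · rw [E, E, dif_neg h, dif_neg h, ite_self]

theorem dif_pj {b : ℕ} (hb : b < 2) (φ : Coch S P) : dif (pj b φ) = pj ((b + 1) % 2) (dif φ) := by
  refine Coch.ext fun c => ?_
  rw [pj_apply]
  show ∑ i ∈ range c.1.length, (-1) ^ i * E (pj b φ) (c.1.eraseIdx i) =
    if c.1.length % 2 = (b + 1) % 2 then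
      ∑ i ∈ range c.1.length, (-1) ^ i * E φ (c.1.eraseIdx i) else 0
  have hlen : ∀ i ∈ range c.1.length, (c.1.eraseIdx i).length = c.1.length - 1 := by
    intro i hi
    rw [Finset.mem_range] at hi
    rw [List.length_eraseIdx, if_pos hi]
  have hpos := length_pos c
  by_cases h : c.1.length % 2 = (b + 1) % 2
  · rw [if_pos h]
    refine Finset.sum_congr rfl fun i hi => ?_
    rw [E_pj, hlen i hi, if_pos (by omega)]
  · rw [if_neg h]
    refine Finset.sum_eq_zero fun i hi => ?_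
    rw [E_pj, hlen i hi, if_neg (by omega), mul_zero]

end parity

section complex

variable {S : Type*} [PartialOrder S] {σ : Type*} [Fintype σ] [DecidableEq σ]
  {F : S → Subalgebra ℚ (MvPolynomial σ ℚ)} {R₀ : Subalgebra ℚ (MvPolynomial σ ℚ)}

/-- Cochains supported on the chains whose length has residue `b` modulo two. -/
def Par (S : Type*) [PartialOrder S] {σ : Type*} (R₀ : Subalgebra ℚ (MvPolynomial σ ℚ)) (b : ℕ) :
    Submodule R₀ (Coch S (MvPolynomial σ ℚ)) where
  carrier := {φ | ∀ c : Ch S, c.1.length % 2 ≠ b → φ c = 0}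
  add_mem' := fun h1 h2 c hc => by rw [add_apply, h1 c hc, h2 c hc, add_zero]
  zero_mem' := fun _ _ => rfl
  smul_mem' := fun r φ h c hc => by rw [smul_apply, h c hc, smul_zero]

theorem pj_mem_Par (b : ℕ) (φ : Coch S (MvPolynomial σ ℚ)) : pj b φ ∈ Par S R₀ b :=
  fun c hc => by rw [pj_apply, if_neg hc]

theorem pj_of_mem {b : ℕ} {φ : Coch S (MvPolynomial σ ℚ)} (h : φ ∈ Par S R₀ b) : pj b φ = φ := by
  refine Coch.ext fun c => ?_
  rw [pj_apply]
  split_ifs with hc
  · rfl
  · exact (h c hc).symm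

theorem isCochain_pj (b : ℕ) {φ : Coch S (MvPolynomial σ ℚ)} (h : IsCochain F φ) :
    IsCochain F (pj b φ) := by
  intro c
  rw [pj_apply]
  split_ifs
  · exact h c
  · exact zero_mem _

theorem isCochain_cpr (hgr : ∀ x, ∀ p ∈ F x, ∀ m, homogeneousComponent m p ∈ F x) (m : ℕ)
    {φ : Coch S (MvPolynomial σ ℚ)} (h : IsCochain F φ) : IsCochain F (cpr S σ m φ) :=
  fun c => hgr _ _ (h c) m

theorem E_cpr (m : ℕ) (φ : Coch S (MvPolynomial σ ℚ)) (l : List S) :
    E (cpr S σ m φ) l = homogeneousComponent m (E φ l) := by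
  by_cases h : l ≠ [] ∧ l.Pairwise (· < ·)
  · rw [E_of _ h, E_of _ h, cpr_apply]
  · rw [E, E, dif_neg h, dif_neg h, map_zero]

theorem dif_cpr (m : ℕ) (φ : Coch S (MvPolynomial σ ℚ)) :
    dif (cpr S σ m φ) = cpr S σ m (dif φ) := by
  refine Coch.ext fun c => ?_
  rw [cpr_apply]
  show ∑ i ∈ range c.1.length, (-1) ^ i * E (cpr S σ m φ) (c.1.eraseIdx i) =
    homogeneousComponent m (∑ i ∈ range c.1.length, (-1) ^ i * E φ (c.1.eraseIdx i))
  rw [map_sum]
  refine Finset.sum_congr rfl fun i _ => ?_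
  rw [E_cpr]
  rcases neg_one_pow_eq_or (MvPolynomial σ ℚ) i with h | h
  · rw [h, one_mul, one_mul]
  · rw [h, neg_one_mul, neg_one_mul, map_neg]

theorem pj_cpr (b m : ℕ) (φ : Coch S (MvPolynomial σ ℚ)) :
    pj b (cpr S σ m φ) = cpr S σ m (pj b φ) := by
  refine Coch.ext fun c => ?_
  rw [cpr_apply, pj_apply, pj_apply, cpr_apply]
  split_ifs
  · rfl
  · rw [map_zero]

variable (hR : ∀ x, R₀ ≤ F x)

/-- Cocycles of given parity. -/
noncomputable def Zb (F : S → Subalgebra ℚ (MvPolynomial σ ℚ))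
    (R₀ : Subalgebra ℚ (MvPolynomial σ ℚ)) (hR : ∀ x, R₀ ≤ F x) (b : ℕ) :
    Submodule R₀ (Coch S (MvPolynomial σ ℚ)) := ZZ F R₀ hR ⊓ Par S R₀ b

/-- Coboundaries of given parity. -/
noncomputable def Bb (F : S → Subalgebra ℚ (MvPolynomial σ ℚ))
    (R₀ : Subalgebra ℚ (MvPolynomial σ ℚ)) (hR : ∀ x, R₀ ≤ F x) (b : ℕ) :
    Submodule R₀ (Coch S (MvPolynomial σ ℚ)) := BB F R₀ hR ⊓ Par S R₀ b

/-- Cochains of given parity. -/
noncomputable def Cb (F : S → Subalgebra ℚ (MvPolynomial σ ℚ))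
    (R₀ : Subalgebra ℚ (MvPolynomial σ ℚ)) (hR : ∀ x, R₀ ≤ F x) (b : ℕ) :
    Submodule R₀ (Coch S (MvPolynomial σ ℚ)) := CC F R₀ hR ⊓ Par S R₀ b

theorem BB_le_ZZ (hF : Antitone F) : BB F R₀ hR ≤ ZZ F R₀ hR := by
  rintro _ ⟨ψ, hψ, rfl⟩
  exact ⟨hψ.dif hF, dif_dif ψ⟩

theorem Bb_le_Zb (hF : Antitone F) (b : ℕ) : Bb F R₀ hR b ≤ Zb F R₀ hR b :=
  inf_le_inf_right _ (BB_le_ZZ hR hF)

theorem isGr_Par [Finite S] (b : ℕ) : IsGr (cgr S σ) (Par S R₀ b) := by
  intro φ h m c hc
  rw [cgr_pr, cpr_apply, h c hc, map_zero]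

theorem isGr_Zb [Finite S] (hgr : ∀ x, ∀ p ∈ F x, ∀ m, homogeneousComponent m p ∈ F x) (b : ℕ) :
    IsGr (cgr S σ) (Zb F R₀ hR b) := by
  rintro φ ⟨⟨h1, h2⟩, h3⟩ m
  refine ⟨⟨isCochain_cpr hgr m h1, ?_⟩, isGr_Par b φ h3 m⟩
  rw [cgr_pr, dif_cpr, h2, map_zero]

theorem isGr_Bb [Finite S] (hgr : ∀ x, ∀ p ∈ F x, ∀ m, homogeneousComponent m p ∈ F x) (b : ℕ) :
    IsGr (cgr S σ) (Bb F R₀ hR b) := by
  rintro φ ⟨⟨ψ, h1, h2⟩, h3⟩ m
  refine ⟨⟨cpr S σ m ψ, isCochain_cpr hgr m h1, ?_⟩, isGr_Par b φ h3 m⟩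
  rw [dif_cpr, h2]; rfl

theorem noeth_b [IsNoetherianRing R₀] (G : Finset (Coch S (MvPolynomial σ ℚ)))
    (hG : ZZ F R₀ hR ≤ BB F R₀ hR ⊔ Submodule.span R₀ (G : Set (Coch S (MvPolynomial σ ℚ))))
    {b : ℕ} (hb : b < 2) : Noeth (Zb F R₀ hR b) (Bb F R₀ hR b) := by
  classical
  apply noeth_of_fg (G.image (pj b))
  rintro z ⟨hz, hz2⟩
  obtain ⟨x, ⟨ψ, hψ, rfl⟩, y, hy, hxy⟩ := Submodule.mem_sup.mp (hG hz)
  rw [← pj_of_mem hz2, ← hxy, pj_add]
  refine add_mem (Submodule.mem_sup_left ⟨⟨pj ((b + 1) % 2) ψ, isCochain_pj _ hψ, ?_⟩,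
    pj_mem_Par b _⟩) (Submodule.mem_sup_right ?_)
  · rw [dif_pj (by omega)]
    congr 1
    omega
  · rw [Finset.coe_image]
    have key : ∀ y ∈ Submodule.span R₀ (G : Set (Coch S (MvPolynomial σ ℚ))),
        pj b y ∈ Submodule.span R₀ (pj b '' (G : Set (Coch S (MvPolynomial σ ℚ)))) := by
      intro y hy
      induction hy using Submodule.span_induction with
      | mem y hy => exact Submodule.subset_span ⟨y, hy, rfl⟩
      | zero =>
        have : pj b (0 : Coch S (MvPolynomial σ ℚ)) = 0 := by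
          refine Coch.ext fun c => ?_
          rw [pj_apply]
          split_ifs <;> rfl
        rw [this]
        exact zero_mem _
      | add u v _ _ hu hv =>
        rw [pj_add]
        exact add_mem hu hv
      | smul r u _ ih =>
        rw [pj_smul]
        exact Submodule.smul_mem _ r ih
    exact key y hy

/-- The differential as a linear map. -/
noncomputable def difK (S : Type*) [PartialOrder S] (σ : Type*) :
    Coch S (MvPolynomial σ ℚ) →ₗ[ℚ] Coch S (MvPolynomial σ ℚ) where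
  toFun := dif
  map_add' := dif_add
  map_smul' r φ := dif_smul r φ

theorem hd_Cb [Finite S]
    (hgr : ∀ x, ∀ p ∈ F x, ∀ m, homogeneousComponent m p ∈ F x)
    {b : ℕ} (hb : b < 2) (m : ℕ) :
    hd (cgr S σ) (Cb F R₀ hR b) m =
      hd (cgr S σ) (Zb F R₀ hR b) m + hd (cgr S σ) (Bb F R₀ hR ((b + 1) % 2)) m := by
  have f1 := finite_piece (cgr S σ) (Cb F R₀ hR b) m
  have h1 := finrank_map_add (difK S σ) (piece (cgr S σ) (Cb F R₀ hR b) m)
  have e1 : piece (cgr S σ) (Cb F R₀ hR b) m ⊓ LinearMap.ker (difK S σ) =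
      piece (cgr S σ) (Zb F R₀ hR b) m := by
    ext φ
    rw [Submodule.mem_inf, mem_piece, mem_piece, LinearMap.mem_ker]
    constructor
    · rintro ⟨⟨⟨h1, h2⟩, h3⟩, h4⟩
      exact ⟨⟨⟨h1, h4⟩, h2⟩, h3⟩
    · rintro ⟨⟨⟨h1, h4⟩, h2⟩, h3⟩
      exact ⟨⟨⟨h1, h2⟩, h3⟩, h4⟩
  have e2 : (piece (cgr S σ) (Cb F R₀ hR b) m).map (difK S σ) =
      piece (cgr S σ) (Bb F R₀ hR ((b + 1) % 2)) m := by
    ext φ
    rw [mem_piece]
    constructor
    · rintro ⟨ψ, hψ, rfl⟩
      obtain ⟨⟨h1, h2⟩, h3⟩ := mem_piece.mp hψ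
      show (dif ψ ∈ Bb F R₀ hR ((b + 1) % 2)) ∧ cpr S σ m (dif ψ) = dif ψ
      have h3' : cpr S σ m ψ = ψ := h3
      refine ⟨⟨⟨ψ, h1, rfl⟩, ?_⟩, by rw [← dif_cpr, h3']⟩
      have h4 : dif ψ = pj ((b + 1) % 2) (dif ψ) := by
        rw [← dif_pj hb, pj_of_mem h2]
      rw [h4]
      exact pj_mem_Par _ _
    · rintro ⟨⟨⟨ψ, hψ, rfl⟩, h2⟩, h3⟩
      refine ⟨pj b (cpr S σ m ψ), mem_piece.mpr ⟨⟨isCochain_pj b (isCochain_cpr hgr m hψ),
        pj_mem_Par b _⟩, ?_⟩, ?_⟩
      · show cpr S σ m (pj b (cpr S σ m ψ)) = pj b (cpr S σ m ψ)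
        rw [← pj_cpr]
        congr 1
        exact (cgr S σ).idem m ψ
      · show dif (pj b (cpr S σ m ψ)) = dif ψ
        have h3' : cpr S σ m (dif ψ) = dif ψ := h3
        rw [dif_pj hb, dif_cpr, h3', pj_of_mem h2]
  rw [e1, e2] at h1
  unfold hd
  omega

/-- The coefficient spaces of the homogeneous cochains. -/
noncomputable def UU (F : S → Subalgebra ℚ (MvPolynomial σ ℚ)) (b m : ℕ) (c : Ch S) :
    Submodule ℚ (MvPolynomial σ ℚ) :=
  if c.1.length % 2 = b then homogeneousSubmodule σ ℚ m ⊓ Subalgebra.toSubmodule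
    (F (c.1.head c.2.1)) else ⊥

theorem mem_piece_Cb [Finite S] (b m : ℕ) (φ : Coch S (MvPolynomial σ ℚ)) :
    φ ∈ piece (cgr S σ) (Cb F R₀ hR b) m ↔ ∀ c, φ c ∈ UU F b m c := by
  rw [mem_piece]
  constructor
  · rintro ⟨⟨h1, h2⟩, h3⟩ c
    unfold UU
    split_ifs with hc
    · refine ⟨?_, h1 c⟩
      have h4 : homogeneousComponent m (φ c) = φ c := congrArg (fun ψ : Coch S _ => ψ c) h3
      rw [← h4]
      exact homogeneousComponent_mem m (φ c)
    · rw [h2 c hc]; exact zero_mem _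
  · intro h
    have h1 : ∀ c : Ch S, c.1.length % 2 ≠ b → φ c = 0 := by
      intro c hc
      have := h c
      rw [UU, if_neg hc] at this
      exact (Submodule.mem_bot ℚ).mp this
    have h2 : ∀ c : Ch S, φ c ∈ homogeneousSubmodule σ ℚ m ∧ φ c ∈ F (c.1.head c.2.1) := by
      intro c
      by_cases hc : c.1.length % 2 = b
      · have := h c
        rw [UU, if_pos hc] at this
        exact this
      · rw [h1 c hc]
        exact ⟨zero_mem _, zero_mem _⟩
    refine ⟨⟨fun c => (h2 c).2, h1⟩, Coch.ext fun c => ?_⟩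
    rw [cgr_pr, cpr_apply, homogeneousComponent_of_mem (h2 c).1, if_pos rfl]

theorem hd_Cb_eq [Finite S] [Fintype (Ch S)] (b m : ℕ) :
    hd (cgr S σ) (Cb F R₀ hR b) m = ∑ c : Ch S, finrank ℚ (UU F b m c) := by
  have hfin : ∀ c : Ch S, FiniteDimensional ℚ (UU F b m c) := by
    intro c
    have := finite_homog (ι := σ) m
    apply Submodule.finiteDimensional_of_le (S₂ := homogeneousSubmodule σ ℚ m)
    unfold UU
    split_ifs
    · exact inf_le_left
    · exact bot_le
  have e : piece (cgr S σ) (Cb F R₀ hR b) m ≃ₗ[ℚ] ((c : Ch S) → ↥(UU F b m c)) :=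
    { toFun := fun x c => ⟨x.1 c, (mem_piece_Cb hR b m x.1).mp x.2 c⟩
      invFun := fun y => ⟨⟨fun c => (y c : MvPolynomial σ ℚ)⟩,
        (mem_piece_Cb hR b m _).mpr fun c => (y c).2⟩
      map_add' := fun _ _ => rfl
      map_smul' := fun _ _ => rfl
      left_inv := fun _ => rfl
      right_inv := fun _ => rfl }
  unfold hd
  rw [LinearEquiv.finrank_eq e, Module.finrank_pi_fintype]

end complex

end Pool.Agent.TH541.KM
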