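import Pool.Agent.TH541.KM.Main2
import Pool.Agent.TH541.KM.Inv3

set_option autoImplicit false

/-! # The cohomology ring is not finitely generated -/

namespace Pool.Agent.TH541.KM

open Finset MvPolynomial Module

set_option linter.unusedSectionVars false

section abstract_part

variable {S : Type*} [PartialOrder S] {σ : Type*} [Fintype σ] [DecidableEq σ]
  {F : S → Subalgebra ℚ (MvPolynomial σ ℚ)} {R₀ : Subalgebra ℚ (MvPolynomial σ ℚ)}

/-- The Hilbert series of a graded subalgebra. -/
noncomputable def hser (Q : Subalgebra ℚ (MvPolynomial σ ℚ)) : PowerSeries ℚ :=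
  PowerSeries.mk fun m =>
    (finrank ℚ ↥(homogeneousSubmodule σ ℚ m ⊓ Subalgebra.toSubmodule Q) : ℚ)

theorem coeff_zero_hser (Q : Subalgebra ℚ (MvPolynomial σ ℚ)) :
    PowerSeries.coeff 0 (hser Q) = 1 := by
  rw [hser, PowerSeries.coeff_mk]
  have h : homogeneousSubmodule σ ℚ 0 ⊓ Subalgebra.toSubmodule Q =
      Submodule.span ℚ {(1 : MvPolynomial σ ℚ)} := by
    apply le_antisymm
    · rintro p ⟨hp, _⟩
      have h1 := homogeneousComponent_of_mem (m := 0) hp
      rw [if_pos rfl, homogeneousComponent_zero] at h1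
      rw [← h1, Submodule.mem_span_singleton]
      exact ⟨coeff 0 p, by rw [smul_eq_C_mul, mul_one]⟩
    · rw [Submodule.span_le, Set.singleton_subset_iff]
      exact ⟨isHomogeneous_one σ ℚ, one_mem Q⟩
  rw [h, finrank_span_singleton one_ne_zero]
  norm_num

/-- The alternating sum of Hilbert series over the chains. -/
noncomputable def EU [Fintype (Ch S)] (F : S → Subalgebra ℚ (MvPolynomial σ ℚ)) : PowerSeries ℚ :=
  ∑ c : Ch S, PowerSeries.C ((-1 : ℚ) ^ (c.1.length + 1)) * hser (F (c.1.head c.2.1))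

theorem coeff_zero_EU [Finite S] [Fintype (Ch S)] (bot : S) (hbot : ∀ x, bot ≤ x) :
    PowerSeries.coeff 0 (EU F) = 1 := by
  rw [EU, map_sum]
  simp only [PowerSeries.coeff_C_mul, coeff_zero_hser, mul_one]
  exact euler_char bot hbot

theorem EU_eq [Finite S] [Fintype (Ch S)] (hR : ∀ x, R₀ ≤ F x)
    (hgr : ∀ x, ∀ p ∈ F x, ∀ m, homogeneousComponent m p ∈ F x) :
    PowerSeries.map (Int.castRingHom ℚ)
      (HSer (cgr S σ) (Zb F R₀ hR 1) (Bb F R₀ hR 1) -
        HSer (cgr S σ) (Zb F R₀ hR 0) (Bb F R₀ hR 0)) = EU F := by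
  ext m
  rw [PowerSeries.coeff_map, map_sub, HSer, HSer, PowerSeries.coeff_mk, PowerSeries.coeff_mk, EU,
    map_sum]
  have h1 := hd_Cb (S := S) (F := F) hR hgr (b := 1) (by norm_num) m
  have h0 := hd_Cb (S := S) (F := F) hR hgr (b := 0) (by norm_num) m
  rw [hd_Cb_eq] at h1 h0
  have e1 : ((1 + 1) % 2 : ℕ) = 0 := rfl
  have e0 : ((0 + 1) % 2 : ℕ) = 1 := rfl
  rw [e1] at h1
  rw [e0] at h0
  have key : ∀ c : Ch S, PowerSeries.coeff m (PowerSeries.C ((-1 : ℚ) ^ (c.1.length + 1)) *
      hser (F (c.1.head c.2.1))) = (finrank ℚ (UU F 1 m c) : ℚ) - (finrank ℚ (UU F 0 m c) : ℚ) := by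
    intro c
    rw [PowerSeries.coeff_C_mul, hser, PowerSeries.coeff_mk]
    rcases Nat.mod_two_eq_zero_or_one c.1.length with h | h
    · rw [UU, UU, if_neg (by omega), if_pos h, finrank_bot]
      have : (-1 : ℚ) ^ (c.1.length + 1) = -1 := Odd.neg_one_pow (Nat.odd_iff.mpr (by omega))
      rw [this]
      push_cast
      ring
    · rw [UU, UU, if_pos h, if_neg (by omega), finrank_bot]
      have : (-1 : ℚ) ^ (c.1.length + 1) = 1 := Even.neg_one_pow (Nat.even_iff.mpr (by omega))
      rw [this]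
      push_cast
      ring
  simp only [key]
  rw [Finset.sum_sub_distrib]
  have h1' : (∑ c : Ch S, (finrank ℚ (UU F 1 m c) : ℚ)) =
      (hd (cgr S σ) (Zb F R₀ hR 1) m : ℚ) + (hd (cgr S σ) (Bb F R₀ hR 0) m : ℚ) := by
    exact_mod_cast h1
  have h0' : (∑ c : Ch S, (finrank ℚ (UU F 0 m c) : ℚ)) =
      (hd (cgr S σ) (Zb F R₀ hR 0) m : ℚ) + (hd (cgr S σ) (Bb F R₀ hR 1) m : ℚ) := by
    exact_mod_cast h0
  rw [h1', h0']
  simp only [eq_intCast]
  push_cast
  ring

theorem not_finiteType {ι : Type*} [Fintype ι] [DecidableEq ι] [Finite S] (hF : Antitone F)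
    (hR : ∀ x, R₀ ≤ F x) (hR' : ∀ p, (∀ x, p ∈ F x) → p ∈ R₀)
    (hgr : ∀ x, ∀ p ∈ F x, ∀ m, homogeneousComponent m p ∈ F x)
    (bot : S) (hbot : ∀ x, bot ≤ x) (x : ι → R₀) (d : ι → ℕ)
    (hx : ∀ i, (x i : MvPolynomial σ ℚ).IsHomogeneous (d i)) (hd0 : ∀ i, 0 < d i)
    (hgen : Algebra.adjoin ℚ (Set.range x) = ⊤) (N : ℕ) (hN : ∑ i, d i < N)
    (hneg : ∀ x, NegDeg N (hser (F x))) :
    ¬ Algebra.FiniteType ℚ (Cohomology F hF) := by
  classical
  intro hft
  have : Fintype (Ch S) := Fintype.ofFinite _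
  have hft0 : Algebra.FiniteType ℚ R₀ := by
    refine ⟨⟨Finset.univ.image x, ?_⟩⟩
    rw [Finset.coe_image, Finset.coe_univ, Set.image_univ]
    exact hgen
  have hnoeth : IsNoetherianRing R₀ := Algebra.FiniteType.isNoetherianRing ℚ R₀
  obtain ⟨G, hG⟩ := fg_module hF hR hR' bot hbot hft
  have hxd : ∀ i, HomDeg (cgr S σ) (x i) (d i) := by
    intro i m φ
    refine Coch.ext fun c => ?_
    rw [cgr_pr, cgr_pr, cpr_apply, smul_apply, cpr_apply]
    have h1 : (x i) • homogeneousComponent m (φ c) =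
        (x i : MvPolynomial σ ℚ) * homogeneousComponent m (φ c) := rfl
    rw [h1, add_comm m (d i)]
    have h2 : ((x i : MvPolynomial σ ℚ) * homogeneousComponent m (φ c)).IsHomogeneous (d i + m) :=
      (hx i).mul (homogeneousComponent_isHomogeneous m (φ c))
    exact homogeneousComponent_eq_self h2
  have hHS : ∀ b : ℕ, b < 2 → ∃ p : Polynomial ℤ, (∏ i, (1 - PowerSeries.X ^ (d i))) *
      HSer (cgr S σ) (Zb F R₀ hR b) (Bb F R₀ hR b) = (p : PowerSeries ℤ) := by
    intro b hb
    exact hilbert_serre hxd hgen Finset.univ _ _ (isGr_Zb hR hgr b) (isGr_Bb hR hgr b)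
      (Bb_le_Zb hR hF b) (noeth_b hR G hG hb) (fun i hi => absurd (Finset.mem_univ i) hi)
  obtain ⟨p₁, hp₁⟩ := hHS 1 (by norm_num)
  obtain ⟨p₀, hp₀⟩ := hHS 0 (by norm_num)
  set q : Polynomial ℚ := ∏ i, (1 - Polynomial.X ^ (d i)) with hq
  have hqc : (q : PowerSeries ℚ) = ∏ i, (1 - PowerSeries.X ^ (d i)) := by
    rw [hq]
    have := map_prod (Polynomial.coeToPowerSeries.ringHom (R := ℚ))
      (fun i => (1 - Polynomial.X ^ (d i) : Polynomial ℚ)) Finset.univ
    rw [Polynomial.coeToPowerSeries.ringHom_apply] at this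
    rw [this]
    refine Finset.prod_congr rfl fun i _ => ?_
    rw [Polynomial.coeToPowerSeries.ringHom_apply]
    push_cast
    rfl
  have hmap : (q : PowerSeries ℚ) * EU F =
      (((p₁ - p₀).map (Int.castRingHom ℚ) : Polynomial ℚ) : PowerSeries ℚ) := by
    rw [← EU_eq hR hgr, hqc, Polynomial.polynomial_map_coe]
    have h1 : (∏ i, (1 - PowerSeries.X ^ (d i)) : PowerSeries ℚ) =
        PowerSeries.map (Int.castRingHom ℚ) (∏ i, (1 - PowerSeries.X ^ (d i))) := by
      rw [map_prod]
      refine Finset.prod_congr rfl fun i _ => ?_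
      rw [map_sub, map_one, map_pow, PowerSeries.map_X]
    rw [h1, ← map_mul, mul_sub, hp₁, hp₀]
    push_cast
    rfl
  have hdeg : q.natDegree < N := by
    refine lt_of_le_of_lt ?_ hN
    rw [hq]
    refine (Polynomial.natDegree_prod_le _ _).trans (Finset.sum_le_sum fun i _ => ?_)
    refine (Polynomial.natDegree_sub_le _ _).trans ?_
    rw [Polynomial.natDegree_one, Polynomial.natDegree_X_pow]
    exact max_le (Nat.zero_le _) le_rfl
  have hEU : NegDeg N (EU F) := by
    unfold EU
    exact NegDeg.sum _ _ fun c _ => (hneg _).C_mul _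
  have hzero := hEU.eq_zero q _ hdeg hmap
  rw [hzero, Polynomial.coe_zero] at hmap
  have h2 := congrArg PowerSeries.constantCoeff hmap
  rw [map_mul, map_zero, hqc, map_prod] at h2
  have h3 : PowerSeries.constantCoeff (EU F) = 1 := by
    rw [← PowerSeries.coeff_zero_eq_constantCoeff_apply]
    exact coeff_zero_EU bot hbot
  rw [h3, mul_one] at h2
  have h4 : ∏ i, PowerSeries.constantCoeff (1 - PowerSeries.X ^ (d i) : PowerSeries ℚ) = 1 := by
    refine Finset.prod_eq_one fun i _ => ?_
    rw [map_sub, map_one, map_pow, PowerSeries.constantCoeff_X, zero_pow (hd0 i).ne', sub_zero]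
  rw [h4] at h2
  exact one_ne_zero h2

end abstract_part

section main

variable {n c : ℕ} {A : Matrix (Fin n) (Fin n) ℤ} {B : Matrix (Fin c) (Fin n) ℚ}

theorem homogeneousComponent_TT {ι : Type*} [Fintype ι] [DecidableEq ι] (g : Matrix ι ι ℚ) (m : ℕ)
    (p : MvPolynomial ι ℚ) :
    homogeneousComponent m (TT g p) = TT g (homogeneousComponent m p) := by
  conv_lhs => rw [← sum_homogeneousComponent (φ := p)]
  rw [map_sum, map_sum]
  have h1 : ∀ k, homogeneousComponent m (TT g (homogeneousComponent k p)) =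
      if m = k then TT g (homogeneousComponent k p) else 0 := fun k =>
    homogeneousComponent_of_mem (TT_homog g (homogeneousComponent_isHomogeneous k p))
  simp only [h1]
  rw [Finset.sum_ite_eq (Finset.range (p.totalDegree + 1)) m]
  split_ifs with h
  · rfl
  · rw [Finset.mem_range, not_lt] at h
    rw [homogeneousComponent_eq_zero m p (by omega), map_zero]

theorem invs_graded (I : Finset (Fin n)) (p : PP n c) (hp : p ∈ invs A B I) (m : ℕ) :
    homogeneousComponent m p ∈ invs A B I := by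
  intro g hg
  rw [← homogeneousComponent_TT, hp g hg]

theorem srefl_mul_self (hA : IsGCM A) (j : Fin n) : srefl A B j * srefl A B j = 1 := by
  rw [srefl_eq]
  apply rf_mul_self
  rw [root_dot_ee, hA.diag]
  norm_num

theorem weyl_inv (hA : IsGCM A) (I : Finset (Fin n)) :
    ∀ g ∈ weyl A B I, ∃ h ∈ weyl A B I, h * g = 1 := by
  intro g hg
  unfold weyl at hg
  induction hg using Submonoid.closure_induction with
  | mem x hx =>
    obtain ⟨j, hj, rfl⟩ := hx
    exact ⟨_, Submonoid.subset_closure ⟨j, hj, rfl⟩, srefl_mul_self hA j⟩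
  | one => exact ⟨1, one_mem _, one_mul 1⟩
  | mul x y _ _ hx hy =>
    obtain ⟨x', hx', hxx⟩ := hx
    obtain ⟨y', hy', hyy⟩ := hy
    refine ⟨y' * x', mul_mem hy' hx', ?_⟩
    calc y' * x' * (x * y) = y' * (x' * x) * y := by simp only [mul_assoc]
      _ = 1 := by rw [hxx, mul_one, hyy]

theorem finite_weyl_empty : (weyl A B ∅ : Set (Matrix (Fin n ⊕ Fin c) (Fin n ⊕ Fin c) ℚ)).Finite := by
  rw [weyl, Finset.coe_empty, Set.image_empty, Submonoid.closure_empty]
  exact Set.finite_singleton 1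

theorem finite_weyl_singleton (hA : IsGCM A) (j : Fin n) :
    (weyl A B {j} : Set (Matrix (Fin n ⊕ Fin c) (Fin n ⊕ Fin c) ℚ)).Finite := by
  have hle : weyl A B {j} ≤
      { carrier := {1, srefl A B j}
        mul_mem' := by
          rintro a b (rfl | rfl) (rfl | rfl)
          · left; exact mul_one 1
          · right; exact one_mul _
          · right; exact mul_one _
          · left; exact srefl_mul_self hA j
        one_mem' := Or.inl rfl } := by
    unfold weyl
    rw [Submonoid.closure_le]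
    rintro _ ⟨i, hi, rfl⟩
    rw [Finset.coe_singleton, Set.mem_singleton_iff] at hi
    subst hi
    right; rfl
  exact Set.Finite.subset (Set.toFinite {1, srefl A B j}) hle

theorem negDeg_invs (hA : IsGCM A) (I : Sph A B) : NegDeg (n + c) (hser (invs A B I.1)) := by
  have hfin : Finite (weyl A B I.1) := I.2
  have h := negDeg_hilb (weyl A B I.1) (weyl_inv hA I.1)
  rw [Fintype.card_sum, Fintype.card_fin, Fintype.card_fin] at h
  exact h

/-- **Main theorem.** -/
theorem km_main (hn : 3 ≤ n) (hA : IsGCM A) (hind : IsIndecomposable A)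
    (hindef : IsIndefinite A) (B : Matrix (Fin c) (Fin n) ℚ) :
    ¬ Algebra.FiniteType ℚ (KMCohomology A B) := by
  classical
  obtain ⟨q, hq, hqh, hmoody⟩ := moody (B := B) (by omega) hA hind hindef
  have hY : ∀ k : Fin c, (X (Sum.inr k) : PP n c) ∈ invs A B Finset.univ := by
    intro k
    rw [mem_invs_iff]
    intro j _
    apply ext_eval
    intro x
    rw [srefl_eq, eval_TT, eval_X, eval_X, rf_mulVec, Pi.sub_apply, Pi.smul_apply, ee,
      Pi.single_eq_of_ne (by simp), smul_zero, sub_zero]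
  set x : Option (Fin c) → invs A B Finset.univ :=
    fun o => o.elim ⟨q, hq⟩ (fun k => ⟨X (Sum.inr k), hY k⟩) with hx
  set d : Option (Fin c) → ℕ := fun o => o.elim 2 (fun _ => 1) with hd
  have hgen : Algebra.adjoin ℚ (Set.range x) = ⊤ := by
    rw [eq_top_iff]
    rintro r -
    have h1 := hmoody r.1 r.2
    have h2 : insert q (Set.range fun k : Fin c => (X (Sum.inr k) : PP n c)) =
        (invs A B Finset.univ).val '' (Set.range x) := by
      ext p
      constructor
      · rintro (rfl | ⟨k, rfl⟩)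
        · exact ⟨_, ⟨none, rfl⟩, rfl⟩
        · exact ⟨_, ⟨some k, rfl⟩, rfl⟩
      · rintro ⟨_, ⟨o, rfl⟩, rfl⟩
        cases o with
        | none => left; rfl
        | some k => right; exact ⟨k, rfl⟩
    rw [h2, ← AlgHom.map_adjoin] at h1
    obtain ⟨r', hr', he⟩ := h1
    have : r' = r := Subtype.ext he
    rwa [← this]
  refine not_finiteType (R₀ := invs A B Finset.univ) (invs_anti A B) ?_ ?_ ?_
    (⟨∅, finite_weyl_empty⟩ : Sph A B) ?_ x d ?_ ?_ hgen (n + c) ?_ (negDeg_invs hA)
  · intro I p hp g hg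
    exact hp g (weyl_mono A B (Finset.subset_univ _) hg)
  · intro p hp
    rw [mem_invs_iff]
    intro j _
    exact hp ⟨{j}, finite_weyl_singleton hA j⟩ _
      (Submonoid.subset_closure ⟨j, by simp, rfl⟩)
  · intro I p hp m
    exact invs_graded _ p hp m
  · intro I
    exact Finset.empty_subset _
  · intro o
    cases o with
    | none => exact hqh
    | some k => exact isHomogeneous_X ℚ _
  · intro o
    cases o with
    | none => exact Nat.succ_pos 1
    | some k => exact Nat.one_pos
  · rw [Fintype.sum_option]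
    simp only [hd, Option.elim]
    rw [Finset.sum_const, Finset.card_univ, Fintype.card_fin, smul_eq_mul, mul_one]
    omega

end main

end Pool.Agent.TH541.KM
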